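import Mathlib.Topology.Sheaves.Presheaf
import Mathlib.Algebra.Order.Star.Real
import Mathlib.Algebra.Ring.IsFormallyReal
import Mathlib.MeasureTheory.Integral.IntervalIntegral.FundThmCalculus
import Mathlib.Analysis.CStarAlgebra.Classes
import Mathlib.Analysis.Real.Pi.Bounds

-- ======== part 0: formerly Pool.Agent.MP_b8ade4_gt.Core
section MrgPart0

/-!
The continuous layer: a plane curve is recorded by its derivative `u : ℝ → ℂ`.
`W u s t` is the displacement, `A u s t` is twice the height of the Legendrian lift when `W = 0`.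
-/

namespace Pool.Agent.MP_b8ade4_gt

open Complex Real Set

noncomputable def W (u : ℝ → ℂ) (s t : ℝ) : ℂ := ∫ τ in s..t, u τ

noncomputable def A (u : ℝ → ℂ) (s t : ℝ) : ℝ :=
  ∫ τ in s..t, (W u s τ * (starRingEnd ℂ) (u τ)).im

/-- the Legendrian lift is injective -/
def Emb (u : ℝ → ℂ) : Prop := ∀ s t, s < t → W u s t = 0 → A u s t ≠ 0

/-- the x-coordinate lags behind the parameter by at most `B` -/
def Dev (u : ℝ → ℂ) (B : ℝ) : Prop := ∀ s t, s ≤ t → t - s - B ≤ (W u s t).re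

/-- unit speed and total deviation from the line at most `B` -/
def L1 (u : ℝ → ℂ) (B : ℝ) : Prop :=
  Continuous u ∧ (∀ t, ‖u t‖ = 1) ∧ ∀ s t, s ≤ t → ∫ τ in s..t, ‖u τ - 1‖ ≤ B

/-- a clockwise round kink of radius `l` starting at time `p` -/
noncomputable def red (p l t : ℝ) : ℂ :=
  Complex.exp (-(Complex.I * ((max 0 (min ((t - p) / l) (2 * π)) : ℝ) : ℂ)))

/-- its mirror image -/
noncomputable def blue (p l t : ℝ) : ℂ := (starRingEnd ℂ) (red p l t)

noncomputable def cl (x : ℝ) : ℝ := max 0 (min x 1)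
/-- position profile of a slide -/
noncomputable def ff (θ : ℝ) : ℝ := cl (3 * θ - 1)
/-- size profile of the sliding kink -/
noncomputable def gg (l θ : ℝ) : ℝ := 1 - (1 - l) * min (cl (3 * θ)) (cl (3 - 3 * θ))
/-- position of the red kink along the loop -/
noncomputable def pr (θ : ℝ) : ℝ := 1000 * (ff (2 * θ) - ff (2 * θ - 1)) - 500

/-- the loop: red slides over blue, then blue slides over red -/
noncomputable def al (l θ t : ℝ) : ℂ :=
  red (pr θ) (gg l (2 * θ)) t * blue (-pr θ) (gg l (2 * θ - 1)) t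

/-- where the chords of the loop are -/
def Win (l : ℝ) : Prop := ∀ θ s t, s < t → W (al l θ) s t = 0 →
  (0 < A (al l θ) s t ∧ |s - pr θ| < 1 ∧ |t - s - 2 * π * gg l (2 * θ)| < 1) ∨
  (A (al l θ) s t < 0 ∧ |s + pr θ| < 1 ∧ |t - s - 2 * π * gg l (2 * θ - 1)| < 1)

/-- continuous curves with free ends, controlled at infinity -/
def XX (T M : ℝ) : Type :=
  {u : C(ℝ, ℂ) // (∀ t, u t ≠ 0) ∧ Emb u ∧ (∀ t, T ≤ |t| → 0 < (u t).re) ∧ Dev u M}

noncomputable instance (T M : ℝ) : TopologicalSpace (XX T M) :=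
  inferInstanceAs (TopologicalSpace {u : C(ℝ, ℂ) //
    (∀ t, u t ≠ 0) ∧ Emb u ∧ (∀ t, T ≤ |t| → 0 < (u t).re) ∧ Dev u M})

end Pool.Agent.MP_b8ade4_gt

end MrgPart0

-- ======== part 1: formerly Pool.Agent.MP_b8ade4_gt.Basic
section MrgPart1

/-!
Elementary properties of `W`, `A`, `red`, `L1`, `Dev`.
-/

namespace Pool.Agent.MP_b8ade4_gt
open Complex Real Set

theorem W_conj (u : ℝ → ℂ) (s t : ℝ) :
    W (fun τ => (starRingEnd ℂ) (u τ)) s t = (starRingEnd ℂ) (W u s t) := by
  unfold W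
  simp only [intervalIntegral, integral_conj, map_sub]

theorem A_conj (u : ℝ → ℂ) (s t : ℝ) : A (fun τ => (starRingEnd ℂ) (u τ)) s t = -A u s t := by
  unfold A
  rw [← intervalIntegral.integral_neg]
  congr 1
  funext τ
  rw [W_conj, ← map_mul, Complex.conj_im]

theorem W_shift (u : ℝ → ℂ) (c s t : ℝ) : W (fun τ => u (τ + c)) s t = W u (s + c) (t + c) := by
  unfold W
  exact intervalIntegral.integral_comp_add_right u c

theorem A_shift (u : ℝ → ℂ) (c s t : ℝ) : A (fun τ => u (τ + c)) s t = A u (s + c) (t + c) := by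
  unfold A
  simp only [W_shift]
  exact intervalIntegral.integral_comp_add_right
    (fun τ => (W u (s + c) τ * (starRingEnd ℂ) (u τ)).im) c

theorem W_congr {u v : ℝ → ℂ} {s t : ℝ} (hst : s ≤ t) (h : ∀ τ ∈ Icc s t, u τ = v τ) :
    W u s t = W v s t := by
  unfold W
  apply intervalIntegral.integral_congr
  intro τ hτ
  rw [uIcc_of_le hst] at hτ
  exact h τ hτ

theorem A_congr {u v : ℝ → ℂ} {s t : ℝ} (hst : s ≤ t) (h : ∀ τ ∈ Icc s t, u τ = v τ) :
    A u s t = A v s t := by
  unfold A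
  apply intervalIntegral.integral_congr
  intro τ hτ
  rw [uIcc_of_le hst] at hτ
  have h1 : W u s τ = W v s τ := W_congr hτ.1 fun σ hσ => h σ ⟨hσ.1, hσ.2.trans hτ.2⟩
  simp only [h1, h τ hτ]

/-- joint continuity of a parametric interval integral in the parameter and both endpoints -/
theorem continuous_param {X E : Type*} [TopologicalSpace X] [NormedAddCommGroup E]
    [NormedSpace ℝ E] [CompleteSpace E] {f : X → ℝ → E}
    (hf : Continuous fun q : X × ℝ => f q.1 q.2) {a b : X → ℝ} (ha : Continuous a)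
    (hb : Continuous b) : Continuous fun q : X => ∫ τ in a q..b q, f q τ := by
  have h1 : Continuous fun q : X => ∫ τ in (0 : ℝ)..b q, f q τ :=
    intervalIntegral.continuous_parametric_intervalIntegral_of_continuous hf hb
  have h2 : Continuous fun q : X => ∫ τ in (0 : ℝ)..a q, f q τ :=
    intervalIntegral.continuous_parametric_intervalIntegral_of_continuous hf ha
  refine (h1.sub h2).congr fun q => ?_
  have hq : Continuous (f q) := hf.comp (Continuous.prodMk_right q)
  exact intervalIntegral.integral_interval_sub_left (hq.intervalIntegrable _ _)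
    (hq.intervalIntegrable _ _)

theorem continuous_W {X : Type*} [TopologicalSpace X] {x : X → ℝ → ℂ}
    (hx : Continuous fun q : X × ℝ => x q.1 q.2) :
    Continuous fun q : X × ℝ × ℝ => W (x q.1) q.2.1 q.2.2 := by
  unfold W
  exact continuous_param (f := fun (q : X × ℝ × ℝ) τ => x q.1 τ)
    (hx.comp ((continuous_fst.comp continuous_fst).prodMk continuous_snd))
    (continuous_fst.comp continuous_snd) (continuous_snd.comp continuous_snd)

theorem continuous_A {X : Type*} [TopologicalSpace X] {x : X → ℝ → ℂ}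
    (hx : Continuous fun q : X × ℝ => x q.1 q.2) :
    Continuous fun q : X × ℝ × ℝ => A (x q.1) q.2.1 q.2.2 := by
  unfold A
  refine continuous_param
    (f := fun (q : X × ℝ × ℝ) τ => (W (x q.1) q.2.1 τ * (starRingEnd ℂ) (x q.1 τ)).im) ?_
    (continuous_fst.comp continuous_snd) (continuous_snd.comp continuous_snd)
  have h1 : Continuous fun q : (X × ℝ × ℝ) × ℝ => W (x q.1.1) q.1.2.1 q.2 :=
    (continuous_W hx).comp (f := fun q : (X × ℝ × ℝ) × ℝ => (q.1.1, q.1.2.1, q.2)) (by fun_prop)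
  have h2 : Continuous fun q : (X × ℝ × ℝ) × ℝ => x q.1.1 q.2 :=
    hx.comp (f := fun q : (X × ℝ × ℝ) × ℝ => (q.1.1, q.2)) (by fun_prop)
  exact Complex.continuous_im.comp (h1.mul (Complex.continuous_conj.comp h2))

theorem continuous_W_right {u : ℝ → ℂ} (hu : Continuous u) (s : ℝ) : Continuous (W u s) :=
  (continuous_W (X := Unit) (x := fun _ => u) (hu.comp continuous_snd)).comp
    (f := fun t : ℝ => ((), s, t)) (by fun_prop)

theorem W_add {u : ℝ → ℂ} (hu : Continuous u) (s m t : ℝ) : W u s m + W u m t = W u s t :=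
  intervalIntegral.integral_add_adjacent_intervals (hu.intervalIntegrable _ _)
    (hu.intervalIntegrable _ _)

theorem W_self (u : ℝ → ℂ) (s : ℝ) : W u s s = 0 := intervalIntegral.integral_same

theorem W_symm (u : ℝ → ℂ) (s t : ℝ) : W u t s = -W u s t := intervalIntegral.integral_symm _ _

theorem red_left {p l t : ℝ} (hl : 0 < l) (h : t ≤ p) : red p l t = 1 := by
  have h1 : (t - p) / l ≤ 0 := div_nonpos_of_nonpos_of_nonneg (by linarith) hl.le
  have h2 : max 0 (min ((t - p) / l) (2 * π)) = 0 := max_eq_left ((min_le_left _ _).trans h1)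
  simp [red, h2]

theorem red_right {p l t : ℝ} (hl : 0 < l) (h : p + 2 * π * l ≤ t) : red p l t = 1 := by
  have h1 : 2 * π ≤ (t - p) / l := by rw [le_div_iff₀ hl]; linarith
  have h2 : max 0 (min ((t - p) / l) (2 * π)) = 2 * π := by
    rw [min_eq_right h1, max_eq_right (by positivity)]
  unfold red
  rw [h2]
  have : -(Complex.I * ((2 * π : ℝ) : ℂ)) = -(2 * π * Complex.I) := by push_cast; ring
  rw [this, Complex.exp_neg, Complex.exp_two_pi_mul_I, inv_one]

theorem norm_red (p l t : ℝ) : ‖red p l t‖ = 1 := by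
  unfold red
  rw [Complex.norm_exp]
  simp

theorem continuous_red (p l : ℝ) : Continuous (red p l) := by
  unfold red
  fun_prop

theorem L1_red (p : ℝ) {l : ℝ} (hl : 0 < l) : L1 (red p l) (4 * π * l) := by
  refine ⟨continuous_red p l, norm_red p l, fun s t hst => ?_⟩
  have hc : Continuous fun τ => ‖red p l τ - 1‖ := ((continuous_red p l).sub continuous_const).norm
  have hpe : p ≤ p + 2 * π * l := by have := Real.pi_pos; nlinarith
  have h1 : ∫ τ in s..t, ‖red p l τ - 1‖ ≤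
      ∫ τ in (min s p)..(max t (p + 2 * π * l)), ‖red p l τ - 1‖ :=
    intervalIntegral.integral_mono_interval (min_le_left _ _) hst (le_max_left _ _)
      (Filter.Eventually.of_forall fun _ => norm_nonneg _) (hc.intervalIntegrable _ _)
  have h2 : ∫ τ in (min s p)..p, ‖red p l τ - 1‖ = 0 := by
    rw [intervalIntegral.integral_congr (g := fun _ => (0 : ℝ))]
    · simp
    · intro τ hτ
      rw [uIcc_of_le (min_le_right _ _)] at hτ
      simp [red_left hl hτ.2]
  have h3 : ∫ τ in (p + 2 * π * l)..(max t (p + 2 * π * l)), ‖red p l τ - 1‖ = 0 := by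
    rw [intervalIntegral.integral_congr (g := fun _ => (0 : ℝ))]
    · simp
    · intro τ hτ
      rw [uIcc_of_le (le_max_right _ _)] at hτ
      simp [red_right hl hτ.1]
  have h4 : ∫ τ in p..(p + 2 * π * l), ‖red p l τ - 1‖ ≤ ∫ _ in p..(p + 2 * π * l), (2 : ℝ) := by
    apply intervalIntegral.integral_mono_on hpe (hc.intervalIntegrable _ _)
      (continuous_const.intervalIntegrable _ _)
    intro τ _
    have := norm_sub_le (red p l τ) 1
    rw [norm_red, norm_one] at this
    linarith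
  have h5 := intervalIntegral.integral_add_adjacent_intervals (μ := MeasureTheory.volume)
    (a := min s p) (b := p) (c := max t (p + 2 * π * l))
    (hc.intervalIntegrable _ _) (hc.intervalIntegrable _ _)
  have h6 := intervalIntegral.integral_add_adjacent_intervals (μ := MeasureTheory.volume)
    (a := p) (b := p + 2 * π * l) (c := max t (p + 2 * π * l))
    (hc.intervalIntegrable _ _) (hc.intervalIntegrable _ _)
  simp only [intervalIntegral.integral_const, smul_eq_mul] at h4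
  linarith

theorem L1.conj {u : ℝ → ℂ} {B : ℝ} (h : L1 u B) : L1 (fun t => (starRingEnd ℂ) (u t)) B := by
  refine ⟨Complex.continuous_conj.comp h.1, fun t => by simp [h.2.1 t], fun s t hst => ?_⟩
  have : (fun τ => ‖(starRingEnd ℂ) (u τ) - 1‖) = fun τ => ‖u τ - 1‖ := by
    funext τ
    rw [← Complex.norm_conj (u τ - 1), map_sub, map_one]
  rw [this]
  exact h.2.2 s t hst

theorem L1.mul {u v : ℝ → ℂ} {B C : ℝ} (hu : L1 u B) (hv : L1 v C) :
    L1 (fun t => u t * v t) (B + C) := by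
  refine ⟨hu.1.mul hv.1, fun t => by simp [hu.2.1 t, hv.2.1 t], fun s t hst => ?_⟩
  have c1 : Continuous fun τ => ‖u τ - 1‖ := (hu.1.sub continuous_const).norm
  have c2 : Continuous fun τ => ‖v τ - 1‖ := (hv.1.sub continuous_const).norm
  have c3 : Continuous fun τ => ‖u τ * v τ - 1‖ := ((hu.1.mul hv.1).sub continuous_const).norm
  have h1 : ∫ τ in s..t, ‖u τ * v τ - 1‖ ≤ ∫ τ in s..t, (‖u τ - 1‖ + ‖v τ - 1‖) := by
    apply intervalIntegral.integral_mono_on hst (c3.intervalIntegrable _ _)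
      ((c1.add c2).intervalIntegrable _ _)
    intro τ _
    have e : u τ * v τ - 1 = (u τ - 1) * v τ + (v τ - 1) := by ring
    show ‖u τ * v τ - 1‖ ≤ ‖u τ - 1‖ + ‖v τ - 1‖
    rw [e]
    refine (norm_add_le _ _).trans ?_
    rw [norm_mul, hv.2.1, mul_one]
  rw [intervalIntegral.integral_add (c1.intervalIntegrable _ _) (c2.intervalIntegrable _ _)] at h1
  linarith [hu.2.2 s t hst, hv.2.2 s t hst]

theorem L1.dev {u : ℝ → ℂ} {B : ℝ} (h : L1 u B) : Dev u B := by
  intro s t hst
  have e : W u s t = (∫ τ in s..t, (u τ - 1)) + ((t - s : ℝ) : ℂ) := by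
    unfold W
    rw [intervalIntegral.integral_sub (h.1.intervalIntegrable _ _)
      (continuous_const.intervalIntegrable _ _)]
    simp
  have h1 : ‖∫ τ in s..t, (u τ - 1)‖ ≤ ∫ τ in s..t, ‖u τ - 1‖ :=
    intervalIntegral.norm_integral_le_integral_norm hst
  have h2 := (abs_le.1 (Complex.abs_re_le_norm (∫ τ in s..t, (u τ - 1)))).1
  rw [e, Complex.add_re, Complex.ofReal_re]
  linarith [h.2.2 s t hst]

end Pool.Agent.MP_b8ade4_gt

end MrgPart1

-- ======== part 2: formerly Pool.Agent.MP_b8ade4_gt.CSm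
section MrgPart2

/-!
Families of smooth functions of one variable all of whose derivatives are jointly continuous.
-/

namespace Pool.Agent.MP_b8ade4_gt

open Set Filter Topology

variable {P Q : Type*} [TopologicalSpace P] [TopologicalSpace Q]
  {E F G : Type*} [NormedAddCommGroup E] [NormedSpace ℝ E] [NormedAddCommGroup F] [NormedSpace ℝ F]
  [NormedAddCommGroup G] [NormedSpace ℝ G]

/-- derivatives up to order `n` exist and are jointly continuous -/
def SCn : ℕ → (P → ℝ → E) → Prop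
  | 0, f => Continuous fun q : P × ℝ => f q.1 q.2
  | n + 1, f => (Continuous fun q : P × ℝ => f q.1 q.2) ∧ (∀ p, Differentiable ℝ (f p)) ∧
      SCn n fun p => deriv (f p)

/-- all derivatives exist and are jointly continuous -/
def SC (f : P → ℝ → E) : Prop := ∀ n, SCn n f

theorem SCn.cont {n : ℕ} {f : P → ℝ → E} (h : SCn n f) :
    Continuous fun q : P × ℝ => f q.1 q.2 := by
  cases n with
  | zero => exact h
  | succ n => exact h.1

theorem SCn.pred {n : ℕ} : ∀ {f : P → ℝ → E}, SCn (n + 1) f → SCn n f := by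
  induction n with
  | zero => intro f h; exact h.1
  | succ n ih => intro f h; exact ⟨h.1, h.2.1, ih h.2.2⟩

theorem SCn.mk' {n : ℕ} {f f' : P → ℝ → E} (hc : Continuous fun q : P × ℝ => f q.1 q.2)
    (hd : ∀ p t, HasDerivAt (f p) (f' p t) t) (h : SCn n f') : SCn (n + 1) f := by
  refine ⟨hc, fun p t => (hd p t).differentiableAt, ?_⟩
  have : (fun p => deriv (f p)) = f' := by
    funext p t; exact (hd p t).deriv
  rwa [this]

theorem SCn.hasDerivAt {n : ℕ} {f : P → ℝ → E} (h : SCn (n + 1) f) (p : P) (t : ℝ) :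
    HasDerivAt (f p) (deriv (f p) t) t := (h.2.1 p t).hasDerivAt

theorem SC.cont {f : P → ℝ → E} (h : SC f) : Continuous fun q : P × ℝ => f q.1 q.2 := h 0

theorem SC.cont1 {f : P → ℝ → E} (h : SC f) (p : P) : Continuous (f p) :=
  h.cont.comp (Continuous.prodMk_right p)

theorem SC.deriv {f : P → ℝ → E} (h : SC f) : SC fun p => deriv (f p) := fun n => (h (n + 1)).2.2

theorem SC.mk' {f f' : P → ℝ → E} (hc : Continuous fun q : P × ℝ => f q.1 q.2)
    (hd : ∀ p t, HasDerivAt (f p) (f' p t) t) (h : SC f') : SC f := fun n => by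
  cases n with
  | zero => exact hc
  | succ n => exact SCn.mk' hc hd (h n)

theorem SCn.iter {n : ℕ} : ∀ {f : P → ℝ → E}, SCn n f →
    (∀ p, ContDiff ℝ n (f p)) ∧ Continuous fun q : P × ℝ => iteratedDeriv n (f q.1) q.2 := by
  induction n with
  | zero =>
    intro f h
    refine ⟨fun p => ?_, by simpa using h.cont⟩
    exact contDiff_zero.2 (h.cont.comp (Continuous.prodMk_right p))
  | succ n ih =>
    intro f h
    obtain ⟨h1, h2⟩ := ih h.2.2
    refine ⟨fun p => ?_, by simpa only [iteratedDeriv_succ'] using h2⟩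
    rw [Nat.cast_succ, contDiff_succ_iff_deriv]
    exact ⟨h.2.1 p, by simp, h1 p⟩

theorem SC.smooth {f : P → ℝ → E} (h : SC f) (p : P) : ContDiff ℝ (⊤ : ℕ∞) (f p) :=
  contDiff_infty.2 fun n => (h n).iter.1 p

theorem SC.comp {f : P → ℝ → E} (h : SC f) {g : Q → P} (hg : Continuous g) :
    SC fun q => f (g q) := by
  intro n
  have key : ∀ {f : P → ℝ → E}, SCn n f → SCn n fun q => f (g q) := by
    induction n with
    | zero => intro f h; exact h.cont.comp (hg.prodMap continuous_id)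
    | succ n ih =>
      intro f h
      exact ⟨h.cont.comp (hg.prodMap continuous_id), fun q => h.2.1 _, ih h.2.2⟩
  exact key (h n)

theorem SC.shift {f : P → ℝ → E} (h : SC f) {c : P → ℝ} (hc : Continuous c) :
    SC fun p t => f p (t + c p) := by
  intro n
  have hh : Continuous fun q : P × ℝ => (q.1, q.2 + c q.1) := by fun_prop
  have key : ∀ {f : P → ℝ → E}, SCn n f → SCn n fun p t => f p (t + c p) := by
    induction n with
    | zero => intro f h; exact h.cont.comp hh
    | succ n ih =>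
      intro f h
      exact SCn.mk' (f' := fun p t => _root_.deriv (f p) (t + c p)) (h.cont.comp hh)
        (fun p t => (h.hasDerivAt p (t + c p)).comp_add_const t (c p)) (ih h.2.2)
  exact key (h n)

theorem SC.fixed {g : ℝ → E} (hg : ContDiff ℝ (⊤ : ℕ∞) g) : SC fun (_ : P) => g := by
  intro n
  induction n generalizing g with
  | zero => exact hg.continuous.comp continuous_snd
  | succ n ih =>
    rw [show ((⊤ : ℕ∞) : WithTop ℕ∞) = (⊤ : ℕ∞) + 1 from rfl, contDiff_succ_iff_deriv] at hg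
    exact ⟨hg.1.continuous.comp continuous_snd, fun _ => hg.1, ih hg.2.2⟩

theorem SC.const {c : P → E} (hc : Continuous c) : SC fun p (_ : ℝ) => c p :=
  SC.mk' (f' := fun _ _ => 0) (hc.comp continuous_fst) (fun p t => hasDerivAt_const t (c p))
    (SC.fixed contDiff_const)

theorem SCn.add {n : ℕ} : ∀ {f g : P → ℝ → E}, SCn n f → SCn n g →
    SCn n fun p t => f p t + g p t := by
  induction n with
  | zero => intro f g hf hg; exact hf.cont.add hg.cont
  | succ n ih =>
    intro f g hf hg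
    exact SCn.mk' (f' := fun p t => deriv (f p) t + deriv (g p) t) (hf.cont.add hg.cont)
      (fun p t => (hf.hasDerivAt p t).add (hg.hasDerivAt p t)) (ih hf.2.2 hg.2.2)

theorem SC.add {f g : P → ℝ → E} (hf : SC f) (hg : SC g) : SC fun p t => f p t + g p t :=
  fun n => (hf n).add (hg n)

theorem SC.clm (L : E →L[ℝ] F) {f : P → ℝ → E} (hf : SC f) : SC fun p t => L (f p t) := by
  intro n
  have key : ∀ {f : P → ℝ → E}, SCn n f → SCn n fun p t => L (f p t) := by
    induction n with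
    | zero => intro f h; exact L.continuous.comp h.cont
    | succ n ih =>
      intro f h
      exact SCn.mk' (f' := fun p t => L (_root_.deriv (f p) t)) (L.continuous.comp h.cont)
        (fun p t => L.hasFDerivAt.comp_hasDerivAt t (h.hasDerivAt p t)) (ih h.2.2)
  exact key (hf n)

theorem SC.bil (B : E →L[ℝ] F →L[ℝ] G) {f : P → ℝ → E} {g : P → ℝ → F} (hf : SC f) (hg : SC g) :
    SC fun p t => B (f p t) (g p t) := by
  intro n
  have key : ∀ {f : P → ℝ → E} {g : P → ℝ → F}, SCn n f → SCn n g →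
      SCn n fun p t => B (f p t) (g p t) := by
    induction n with
    | zero => intro f g hf hg; exact B.continuous₂.comp (hf.cont.prodMk hg.cont)
    | succ n ih =>
      intro f g hf hg
      exact SCn.mk'
        (f' := fun p t => B (_root_.deriv (f p) t) (g p t) + B (f p t) (_root_.deriv (g p) t))
        (B.continuous₂.comp (hf.cont.prodMk hg.cont))
        (fun p t => B.hasDerivAt_of_bilinear (fun _ => hf.hasDerivAt p t) (fun _ => hg.hasDerivAt p t) |>.congr_deriv (add_comm _ _))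
        ((ih hf.2.2 hg.pred).add (ih hf.pred hg.2.2))
  exact key (hf n) (hg n)

theorem SC.mul {f g : P → ℝ → ℂ} (hf : SC f) (hg : SC g) : SC fun p t => f p t * g p t :=
  SC.bil (ContinuousLinearMap.mul ℝ ℂ) hf hg

theorem SC.mulr {f g : P → ℝ → ℝ} (hf : SC f) (hg : SC g) : SC fun p t => f p t * g p t :=
  SC.bil (ContinuousLinearMap.mul ℝ ℝ) hf hg

theorem SC.re {f : P → ℝ → ℂ} (hf : SC f) : SC fun p t => (f p t).re := SC.clm Complex.reCLM hf

theorem SC.im {f : P → ℝ → ℂ} (hf : SC f) : SC fun p t => (f p t).im := SC.clm Complex.imCLM hf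

theorem SC.ofReal {f : P → ℝ → ℝ} (hf : SC f) : SC fun p t => (f p t : ℂ) :=
  SC.clm Complex.ofRealCLM hf

theorem SC.prodMk {f : P → ℝ → E} {g : P → ℝ → F} (hf : SC f) (hg : SC g) :
    SC fun p t => (f p t, g p t) := by
  have := (SC.clm (ContinuousLinearMap.inl ℝ E F) hf).add (SC.clm (ContinuousLinearMap.inr ℝ E F) hg)
  simpa using this

theorem SC.prim [CompleteSpace E] {f : P → ℝ → E} (hf : SC f) (a : ℝ) :
    SC fun p t => ∫ τ in a..t, f p τ :=
  SC.mk' (continuous_param (X := P × ℝ) (f := fun q τ => f q.1 τ)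
      (hf.cont.comp (by fun_prop : Continuous fun q : (P × ℝ) × ℝ => (q.1.1, q.2)))
      continuous_const continuous_snd)
    (fun p t => ((hf.cont1 p).integral_hasStrictDerivAt a t).hasDerivAt) hf

end Pool.Agent.MP_b8ade4_gt

end MrgPart2

-- ======== part 3: formerly Pool.Agent.MP_b8ade4_gt.Chord
section MrgPart3

/-!
Chords of one round kink, of two red kinks, and of a concatenation.
-/

namespace Pool.Agent.MP_b8ade4_gt
open Complex Real Set

/-- the turning angle of a kink -/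
noncomputable def ph (p l t : ℝ) : ℝ := max 0 (min ((t - p) / l) (2 * π))

/-- the straight part of the displacement of a kink -/
noncomputable def gl (p l t : ℝ) : ℝ := t - p - l * ph p l t

theorem red_eq (p l t : ℝ) : red p l t = Complex.exp (-(Complex.I * (ph p l t : ℂ))) := rfl

theorem red_re (p l t : ℝ) : (red p l t).re = Real.cos (ph p l t) := by
  rw [red_eq, Complex.exp_re]; simp

theorem red_im (p l t : ℝ) : (red p l t).im = -Real.sin (ph p l t) := by
  rw [red_eq, Complex.exp_im]; simp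

theorem ph_left {p l t : ℝ} (hl : 0 < l) (h : t ≤ p) : ph p l t = 0 := by
  have h1 : (t - p) / l ≤ 0 := div_nonpos_of_nonpos_of_nonneg (by linarith) hl.le
  exact max_eq_left ((min_le_left _ _).trans h1)

theorem ph_right {p l t : ℝ} (hl : 0 < l) (h : p + 2 * π * l ≤ t) : ph p l t = 2 * π := by
  have h1 : 2 * π ≤ (t - p) / l := by rw [le_div_iff₀ hl]; linarith
  unfold ph
  rw [min_eq_right h1, max_eq_right (by positivity)]

theorem ph_mid {p l t : ℝ} (hl : 0 < l) (h : p ≤ t) (h' : t ≤ p + 2 * π * l) :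
    ph p l t = (t - p) / l := by
  have h1 : (t - p) / l ≤ 2 * π := by rw [div_le_iff₀ hl]; linarith
  have h2 : 0 ≤ (t - p) / l := div_nonneg (by linarith) hl.le
  unfold ph
  rw [min_eq_left h1, max_eq_right h2]

theorem ph_mono {p l s t : ℝ} (hl : 0 < l) (h : s ≤ t) : ph p l s ≤ ph p l t := by
  unfold ph
  exact max_le_max le_rfl (min_le_min (div_le_div_of_nonneg_right (by linarith) hl.le) le_rfl)

theorem gl_left {p l t : ℝ} (hl : 0 < l) (h : t ≤ p) : gl p l t = t - p := by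
  simp [gl, ph_left hl h]

theorem gl_right {p l t : ℝ} (hl : 0 < l) (h : p + 2 * π * l ≤ t) :
    gl p l t = t - (p + 2 * π * l) := by
  rw [gl, ph_right hl h]; ring

theorem gl_mid {p l t : ℝ} (hl : 0 < l) (h : p ≤ t) (h' : t ≤ p + 2 * π * l) : gl p l t = 0 := by
  rw [gl, ph_mid hl h h']; field_simp; ring

theorem gl_nonneg {p l t : ℝ} (hl : 0 < l) (h : p ≤ t) : 0 ≤ gl p l t := by
  rcases le_total t (p + 2 * π * l) with h' | h'
  · rw [gl_mid hl h h']
  · rw [gl_right hl h']; linarith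

theorem gl_nonpos {p l t : ℝ} (hl : 0 < l) (h : t ≤ p + 2 * π * l) : gl p l t ≤ 0 := by
  rcases le_total t p with h' | h'
  · rw [gl_left hl h']; linarith
  · rw [gl_mid hl h' h]

theorem gl_mul_red {p l : ℝ} (hl : 0 < l) (t : ℝ) :
    (gl p l t : ℂ) * red p l t = gl p l t := by
  rcases le_total t p with h | h
  · rw [red_left hl h, mul_one]
  rcases le_total t (p + 2 * π * l) with h' | h'
  · rw [gl_mid hl h h']; simp
  · rw [red_right hl h', mul_one]

theorem gl_mul_sin {p l : ℝ} (hl : 0 < l) (t : ℝ) : gl p l t * Real.sin (ph p l t) = 0 := by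
  have := congrArg Complex.im (gl_mul_red (p := p) hl t)
  simp only [Complex.mul_im, Complex.ofReal_re, Complex.ofReal_im, red_im, zero_mul] at this
  linarith

theorem continuous_gl (p l : ℝ) : Continuous (gl p l) := by
  unfold gl ph; fun_prop

theorem W_red {l : ℝ} (hl : 0 < l) (p s t : ℝ) :
    W (red p l) s t = ((gl p l t : ℂ) + Complex.I * l * red p l t) -
      ((gl p l s : ℂ) + Complex.I * l * red p l s) := by
  unfold W
  have hc : Continuous fun τ => (gl p l τ : ℂ) + Complex.I * l * red p l τ :=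
    (Complex.continuous_ofReal.comp (continuous_gl p l)).add
      (continuous_const.mul (continuous_red p l))
  refine intervalIntegral.integral_eq_sub_of_hasDeriv_right
    (f := fun τ => (gl p l τ : ℂ) + Complex.I * l * red p l τ) hc.continuousOn ?_
    ((continuous_red p l).intervalIntegrable _ _)
  intro τ _
  have hid : ∀ c : ℂ, HasDerivAt (fun σ : ℝ => (σ : ℂ) + c) 1 τ := fun c => by
    simpa using (Complex.ofRealCLM.hasDerivAt (x := τ)).add_const c
  rcases lt_or_ge τ p with h | h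
  · rw [red_left hl h.le]
    refine (hid (-p + Complex.I * l)).hasDerivWithinAt.congr_of_eventuallyEq ?_ ?_
    · filter_upwards [mem_nhdsWithin_of_mem_nhds (Iio_mem_nhds h)] with σ hσ
      rw [gl_left hl (le_of_lt hσ), red_left hl (le_of_lt hσ)]
      push_cast; ring
    · rw [gl_left hl h.le, red_left hl h.le]
      push_cast; ring
  rcases lt_or_ge τ (p + 2 * π * l) with h' | h'
  · have hl' : (l : ℂ) ≠ 0 := by exact_mod_cast hl.ne'
    have e : ∀ σ, p ≤ σ → σ ≤ p + 2 * π * l → (gl p l σ : ℂ) + Complex.I * l * red p l σ =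
        Complex.I * l * Complex.exp (-(Complex.I * (((σ : ℂ) + -p) / l))) := by
      intro σ h1 h2
      rw [gl_mid hl h1 h2, red_eq, ph_mid hl h1 h2]
      push_cast; rw [zero_add, sub_eq_add_neg]
    have hd : HasDerivAt
        (fun σ : ℝ => Complex.I * l * Complex.exp (-(Complex.I * (((σ : ℂ) + -p) / l))))
        (red p l τ) τ := by
      have := ((((hid (-p)).div_const (l : ℂ)).const_mul Complex.I).neg.cexp).const_mul
        (Complex.I * l)
      refine this.congr_deriv ?_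
      rw [red_eq, ph_mid hl h h'.le]
      simp only [Pi.neg_apply]
      push_cast
      rw [sub_eq_add_neg]
      field_simp
      simp
    refine hd.hasDerivWithinAt.congr_of_eventuallyEq ?_ (e τ h h'.le)
    filter_upwards [mem_nhdsWithin_of_mem_nhds (Iio_mem_nhds h'), self_mem_nhdsWithin] with σ h1 h2
    exact e σ (h.trans (le_of_lt h2)) (le_of_lt h1)
  · rw [red_right hl h']
    refine (hid (-(p + 2 * π * l) + Complex.I * l)).hasDerivWithinAt.congr_of_eventuallyEq ?_ ?_
    · filter_upwards [self_mem_nhdsWithin] with σ hσ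
      rw [gl_right hl (h'.trans (le_of_lt hσ)), red_right hl (h'.trans (le_of_lt hσ))]
      push_cast; ring
    · rw [gl_right hl h', red_right hl h']
      push_cast; ring

/-- change of the centre in the area integral -/
theorem A_centre {u : ℝ → ℂ} (hu : Continuous u) (P : ℂ) (a s t : ℝ) :
    A u s t = (∫ τ in s..t, ((P + W u a τ) * (starRingEnd ℂ) (u τ)).im) -
      ((P + W u a s) * (starRingEnd ℂ) (W u s t)).im := by
  have c1 : Continuous fun τ => (starRingEnd ℂ) (u τ) := Complex.continuous_conj.comp hu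
  have c2 : Continuous fun τ => ((P + W u a τ) * (starRingEnd ℂ) (u τ)).im :=
    Complex.continuous_im.comp ((continuous_const.add (continuous_W_right hu a)).mul c1)
  have c3 : Continuous fun τ => (P + W u a s) * (starRingEnd ℂ) (u τ) := continuous_const.mul c1
  have e1 : ((P + W u a s) * (starRingEnd ℂ) (W u s t)).im =
      ∫ τ in s..t, ((P + W u a s) * (starRingEnd ℂ) (u τ)).im := by
    rw [← W_conj]
    have e0 : (P + W u a s) * W (fun τ => (starRingEnd ℂ) (u τ)) s t =
        ∫ τ in s..t, (P + W u a s) * (starRingEnd ℂ) (u τ) :=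
      (intervalIntegral.integral_const_mul _ _).symm
    rw [e0]
    exact (Complex.imCLM.intervalIntegral_comp_comm (c3.intervalIntegrable s t)).symm
  have c4 : Continuous fun τ => ((P + W u a s) * (starRingEnd ℂ) (u τ)).im :=
    Complex.continuous_im.comp c3
  rw [e1, ← intervalIntegral.integral_sub (c2.intervalIntegrable _ _) (c4.intervalIntegrable _ _)]
  unfold A
  congr 1
  funext τ
  rw [← Complex.sub_im, ← W_add hu a s τ]
  congr 1
  ring

theorem A_add {u : ℝ → ℂ} (hu : Continuous u) (s m t : ℝ) :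
    A u s t = A u s m + A u m t + (W u s m * (starRingEnd ℂ) (W u m t)).im := by
  have c2 : Continuous fun τ => (W u s τ * (starRingEnd ℂ) (u τ)).im :=
    Complex.continuous_im.comp ((continuous_W_right hu s).mul (Complex.continuous_conj.comp hu))
  have h1 := A_centre hu 0 s m t
  simp only [zero_add] at h1
  have h2 : A u s m + ∫ τ in m..t, (W u s τ * (starRingEnd ℂ) (u τ)).im = A u s t :=
    intervalIntegral.integral_add_adjacent_intervals (c2.intervalIntegrable _ _)
      (c2.intervalIntegrable _ _)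
  linarith

theorem im_centre_red {l : ℝ} (hl : 0 < l) (p τ : ℝ) :
    (((gl p l τ : ℂ) + Complex.I * l * red p l τ) * (starRingEnd ℂ) (red p l τ)).im = l := by
  have h1 := gl_mul_sin (p := p) hl τ
  have h2 := Real.sin_sq_add_cos_sq (ph p l τ)
  simp only [Complex.mul_im, Complex.add_re, Complex.add_im, Complex.mul_re, Complex.ofReal_re,
    Complex.ofReal_im, Complex.I_re, Complex.I_im, Complex.conj_re, Complex.conj_im, red_re, red_im]
  linear_combination h1 + l * h2

theorem A_red {l : ℝ} (hl : 0 < l) (p s t : ℝ) :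
    A (red p l) s t = l ^ 2 * ((ph p l t - ph p l s) - Real.sin (ph p l t - ph p l s)) +
      l * gl p l t * (1 - Real.cos (ph p l s)) - l * gl p l s * (1 - Real.cos (ph p l t)) := by
  rw [A_centre (continuous_red p l) ((gl p l s : ℂ) + Complex.I * l * red p l s) s s t]
  have e : ∀ τ, (gl p l s : ℂ) + Complex.I * l * red p l s + W (red p l) s τ =
      (gl p l τ : ℂ) + Complex.I * l * red p l τ := fun τ => by rw [W_red hl]; ring
  simp only [e, im_centre_red hl, intervalIntegral.integral_const, smul_eq_mul]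
  rw [W_red hl, Real.sin_sub]
  have e2 : t - s = gl p l t - gl p l s + l * (ph p l t - ph p l s) := by unfold gl; ring
  rw [e2]
  simp only [Complex.mul_im, Complex.add_re, Complex.add_im, Complex.mul_re, Complex.ofReal_re,
    Complex.ofReal_im, Complex.I_re, Complex.I_im, Complex.conj_re, Complex.conj_im, red_re, red_im,
    Complex.sub_re, Complex.sub_im]
  ring

theorem A_red_ge {l : ℝ} (hl : 0 < l) (p : ℝ) {s t : ℝ} (hst : s ≤ t) :
    l ^ 2 * ((ph p l t - ph p l s) - Real.sin (ph p l t - ph p l s)) ≤ A (red p l) s t := by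
  rw [A_red hl]
  have h1 : 0 ≤ l * gl p l t * (1 - Real.cos (ph p l s)) := by
    rcases le_total p t with h | h
    · exact mul_nonneg (mul_nonneg hl.le (gl_nonneg hl h)) (by linarith [Real.cos_le_one (ph p l s)])
    · rw [ph_left hl (hst.trans h)]; simp
  have h2 : l * gl p l s * (1 - Real.cos (ph p l t)) ≤ 0 := by
    rcases le_total s (p + 2 * π * l) with h | h
    · exact mul_nonpos_of_nonpos_of_nonneg (mul_nonpos_of_nonneg_of_nonpos hl.le (gl_nonpos hl h))
        (by linarith [Real.cos_le_one (ph p l t)])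
    · rw [ph_right hl (h.trans hst)]; simp
  linarith

theorem A_red_nonneg {l : ℝ} (hl : 0 < l) (p : ℝ) {s t : ℝ} (hst : s ≤ t) :
    0 ≤ A (red p l) s t := by
  refine le_trans ?_ (A_red_ge hl p hst)
  have := Real.sin_le (sub_nonneg.2 (ph_mono (p := p) hl hst))
  exact mul_nonneg (sq_nonneg _) (by linarith)

theorem A_red_pos {l : ℝ} (hl : 0 < l) (p : ℝ) {s t : ℝ} (hst : s ≤ t)
    (h : ph p l s < ph p l t) : 0 < A (red p l) s t := by
  refine lt_of_lt_of_le ?_ (A_red_ge hl p hst)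
  have := Real.sin_lt (sub_pos.2 h)
  exact mul_pos (pow_pos hl 2) (by linarith)

/-- A1: the only chord of one round kink -/
theorem red_chord {p l s t : ℝ} (hl : 0 < l) (hst : s < t) (h : W (red p l) s t = 0) :
    s = p ∧ t = p + 2 * π * l ∧ 0 < A (red p l) s t := by
  rw [W_red hl] at h
  have hre := congrArg Complex.re h
  have him := congrArg Complex.im h
  simp only [Complex.mul_im, Complex.add_re, Complex.add_im, Complex.mul_re, Complex.ofReal_re,
    Complex.ofReal_im, Complex.I_re, Complex.I_im, red_re, red_im,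
    Complex.sub_re, Complex.sub_im, Complex.zero_re, Complex.zero_im] at hre him
  have hc : Real.cos (ph p l t) = Real.cos (ph p l s) := by
    have : l * (Real.cos (ph p l t) - Real.cos (ph p l s)) = 0 := by linarith
    rcases mul_eq_zero.1 this with h0 | h0
    · exact absurd h0 hl.ne'
    · linarith
  have hs : gl p l t + l * Real.sin (ph p l t) = gl p l s + l * Real.sin (ph p l s) := by linarith
  have h2t := Real.sin_sq_add_cos_sq (ph p l t)
  have h2s := Real.sin_sq_add_cos_sq (ph p l s)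
  have hsp : p ≤ s := by
    by_contra hsp
    push Not at hsp
    rw [ph_left hl hsp.le, Real.cos_zero] at hc
    have h0 : Real.sin (ph p l t) = 0 := by
      rw [hc] at h2t
      exact pow_eq_zero_iff (two_ne_zero) |>.1 (by linarith)
    rw [h0, ph_left hl hsp.le, Real.sin_zero, gl_left hl hsp.le] at hs
    rcases le_total p t with h1 | h1
    · have := gl_nonneg hl h1
      linarith
    · rw [gl_left hl h1] at hs
      linarith
  have hte : t ≤ p + 2 * π * l := by
    by_contra hte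
    push Not at hte
    rw [ph_right hl hte.le, Real.cos_two_pi] at hc
    have h0 : Real.sin (ph p l s) = 0 := by
      rw [← hc] at h2s
      exact pow_eq_zero_iff (two_ne_zero) |>.1 (by linarith)
    rw [h0, ph_right hl hte.le, Real.sin_two_pi, gl_right hl hte.le] at hs
    rcases le_total s (p + 2 * π * l) with h1 | h1
    · have := gl_nonpos hl h1
      linarith
    · rw [gl_right hl h1] at hs
      linarith
  rw [gl_mid hl hsp (by linarith), gl_mid hl (by linarith) hte] at hs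
  have hs' : Real.sin (ph p l t) = Real.sin (ph p l s) := by
    have : l * (Real.sin (ph p l t) - Real.sin (ph p l s)) = 0 := by linarith
    rcases mul_eq_zero.1 this with h0 | h0
    · exact absurd h0 hl.ne'
    · linarith
  have hcos : Real.cos (ph p l t - ph p l s) = 1 := by
    rw [Real.cos_sub, hc, hs']; linarith
  have hd : ph p l t - ph p l s = (t - s) / l := by
    rw [ph_mid hl hsp (by linarith), ph_mid hl (by linarith) hte]; ring
  have hpos : 0 < (t - s) / l := div_pos (by linarith) hl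
  have hge : 2 * π ≤ (t - s) / l := by
    by_contra hlt
    push Not at hlt
    rw [hd] at hcos
    have := (Real.cos_eq_one_iff_of_lt_of_lt (by linarith [Real.pi_pos]) hlt).1 hcos
    linarith
  rw [le_div_iff₀ hl] at hge
  exact ⟨by linarith, by linarith, A_red_pos hl p hst.le (by linarith)⟩

/-- star shape of one kink about the centre of a smaller tangent circle -/
theorem star_red {p l b ρ : ℝ} (hl : 0 < l) (hb : p ≤ b) (hb' : b ≤ p + 2 * π * l) (hρ : ρ ≤ l)
    (τ : ℝ) : ρ ≤ ((Complex.I * ρ * red p l b + W (red p l) b τ) *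
      (starRingEnd ℂ) (red p l τ)).im := by
  rw [W_red hl, gl_mid hl hb hb']
  have h1 := gl_mul_sin (p := p) hl τ
  have h2 := Real.sin_sq_add_cos_sq (ph p l τ)
  have h3 := Real.cos_le_one (ph p l τ - ph p l b)
  rw [Real.cos_sub] at h3
  simp only [Complex.mul_im, Complex.add_re, Complex.add_im, Complex.mul_re, Complex.ofReal_re,
    Complex.ofReal_im, Complex.I_re, Complex.I_im, Complex.conj_re, Complex.conj_im, red_re, red_im,
    Complex.sub_re, Complex.sub_im]
  have h4 := mul_le_mul_of_nonneg_left h3 (sub_nonneg.2 hρ)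
  nlinarith

/-- on the overlap of two kinks the curve is an arc of a circle -/
theorem W_overlap {p₁ l₁ p₂ l₂ a τ : ℝ} (h₁ : 0 < l₁) (h₂ : 0 < l₂) (ha₁ : p₁ ≤ a) (ha₂ : p₂ ≤ a)
    (haτ : a ≤ τ) (hτ₁ : τ ≤ p₁ + 2 * π * l₁) (hτ₂ : τ ≤ p₂ + 2 * π * l₂) :
    W (fun σ => red p₁ l₁ σ * red p₂ l₂ σ) a τ =
      Complex.I * (l₁ * l₂ / (l₁ + l₂) : ℝ) *
        (red p₁ l₁ τ * red p₂ l₂ τ - red p₁ l₁ a * red p₂ l₂ a) := by
  have e : ∀ σ, a ≤ σ → σ ≤ τ → red p₁ l₁ σ * red p₂ l₂ σ =
      Complex.exp (-(Complex.I * (((σ : ℂ) + -p₁) / l₁ + ((σ : ℂ) + -p₂) / l₂))) := by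
    intro σ h1 h2
    rw [red_eq, red_eq, ph_mid h₁ (by linarith) (by linarith), ph_mid h₂ (by linarith) (by linarith),
      ← Complex.exp_add]
    congr 1
    push_cast; ring
  rw [W_congr haτ (fun σ hσ => e σ hσ.1 hσ.2), e τ haτ le_rfl, e a le_rfl haτ, mul_sub]
  unfold W
  have hl₁ : (l₁ : ℂ) ≠ 0 := by exact_mod_cast h₁.ne'
  have hl₂ : (l₂ : ℂ) ≠ 0 := by exact_mod_cast h₂.ne'
  have hl₃ : (l₁ : ℂ) + l₂ ≠ 0 := by exact_mod_cast (add_pos h₁ h₂).ne'
  refine intervalIntegral.integral_eq_sub_of_hasDerivAt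
    (f := fun σ : ℝ => Complex.I * (l₁ * l₂ / (l₁ + l₂) : ℝ) *
      Complex.exp (-(Complex.I * (((σ : ℂ) + -p₁) / l₁ + ((σ : ℂ) + -p₂) / l₂)))) ?_
    (Continuous.intervalIntegrable (by fun_prop) _ _)
  intro σ _
  have hid : ∀ c : ℂ, HasDerivAt (fun σ : ℝ => (σ : ℂ) + c) 1 σ := fun c => by
    simpa using (Complex.ofRealCLM.hasDerivAt (x := σ)).add_const c
  have := (((((hid (-p₁)).div_const (l₁ : ℂ)).add ((hid (-p₂)).div_const (l₂ : ℂ))).const_mul
    Complex.I).neg.cexp).const_mul (Complex.I * (l₁ * l₂ / (l₁ + l₂) : ℝ))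
  refine this.congr_deriv ?_
  simp only [Pi.neg_apply, Pi.add_apply]
  push_cast
  field_simp
  simp only [Complex.I_sq]
  ring

theorem pos_of_star {u : ℝ → ℂ} (hu : Continuous u) {P : ℂ} {a ρ s t : ℝ} (hρ : 0 < ρ)
    (hst : s < t) (h : W u s t = 0)
    (hs : ∀ τ ∈ Icc s t, ρ ≤ ((P + W u a τ) * (starRingEnd ℂ) (u τ)).im) : 0 < A u s t := by
  rw [A_centre hu P a, h]
  have c2 : Continuous fun τ => ((P + W u a τ) * (starRingEnd ℂ) (u τ)).im :=
    Complex.continuous_im.comp ((continuous_const.add (continuous_W_right hu a)).mul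
      (Complex.continuous_conj.comp hu))
  have h1 := intervalIntegral.integral_mono_on (μ := MeasureTheory.volume) hst.le
    (continuous_const.intervalIntegrable _ _) (c2.intervalIntegrable _ _) hs
  simp only [intervalIntegral.integral_const, smul_eq_mul] at h1
  have h2 : 0 < (t - s) * ρ := mul_pos (by linarith) hρ
  simp only [map_zero, mul_zero, Complex.zero_im, sub_zero]
  linarith

theorem red_red_overlap {p₁ l₁ p₂ l₂ s t : ℝ} (h₁ : 0 < l₁) (h₂ : 0 < l₂) (hst : s < t)
    (h12 : p₁ ≤ p₂) (ho : p₂ ≤ p₁ + 2 * π * l₁)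
    (h : W (fun τ => red p₁ l₁ τ * red p₂ l₂ τ) s t = 0) :
    0 < A (fun τ => red p₁ l₁ τ * red p₂ l₂ τ) s t := by
  set u : ℝ → ℂ := fun τ => red p₁ l₁ τ * red p₂ l₂ τ with hu
  have cu : Continuous u := (continuous_red _ _).mul (continuous_red _ _)
  set ρ : ℝ := l₁ * l₂ / (l₁ + l₂) with hρ
  have hρ0 : 0 < ρ := by positivity
  have hρ1 : ρ ≤ l₁ := by rw [hρ, div_le_iff₀ (by positivity)]; nlinarith
  have hρ2 : ρ ≤ l₂ := by rw [hρ, div_le_iff₀ (by positivity)]; nlinarith
  have hpi := Real.pi_pos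
  have he₂ : p₂ ≤ p₂ + 2 * π * l₂ := by nlinarith
  refine pos_of_star cu (P := Complex.I * ρ * u p₂) (a := p₂) hρ0 hst h fun τ _ => ?_
  rcases le_total τ p₂ with hτ | hτ
  · have e1 : W u p₂ τ = W (red p₁ l₁) p₂ τ := by
      rw [W_symm, W_symm (red p₁ l₁)]
      congr 1
      exact W_congr hτ fun σ hσ => by simp [hu, red_left h₂ hσ.2]
    have e2 : u p₂ = red p₁ l₁ p₂ := by simp [hu, red_left h₂ le_rfl]
    have e3 : u τ = red p₁ l₁ τ := by simp [hu, red_left h₂ hτ]
    rw [e1, e2, e3]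
    exact star_red h₁ h12 ho hρ1 τ
  set b := min (p₁ + 2 * π * l₁) (p₂ + 2 * π * l₂) with hb
  have hb2 : p₂ ≤ b := le_min ho he₂
  have hov : ∀ σ, p₂ ≤ σ → σ ≤ b → Complex.I * ρ * u p₂ + W u p₂ σ = Complex.I * ρ * u σ := by
    intro σ h1 h2
    rw [hu, W_overlap h₁ h₂ h12 le_rfl h1 (h2.trans (min_le_left _ _))
      (h2.trans (min_le_right _ _))]
    simp only [hρ]
    ring
  rcases le_total τ b with hτb | hτb
  · rw [hov τ hτ hτb, mul_assoc, Complex.mul_conj, Complex.normSq_eq_norm_sq]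
    simp [hu, norm_red]
  have e0 : Complex.I * ρ * u p₂ + W u p₂ τ = Complex.I * ρ * u b + W u b τ := by
    rw [← hov b hb2 le_rfl, ← W_add cu p₂ b τ]; ring
  rw [e0]
  rcases le_total (p₁ + 2 * π * l₁) (p₂ + 2 * π * l₂) with he | he
  · have hbe : b = p₁ + 2 * π * l₁ := min_eq_left he
    have e : ∀ σ, b ≤ σ → u σ = red p₂ l₂ σ := fun σ hσ => by
      simp [hu, red_right h₁ (hbe ▸ hσ)]
    rw [W_congr hτb fun σ hσ => e σ hσ.1, e b le_rfl, e τ hτb]
    exact star_red h₂ hb2 (min_le_right _ _) hρ2 τ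
  · have hbe : b = p₂ + 2 * π * l₂ := min_eq_right he
    have e : ∀ σ, b ≤ σ → u σ = red p₁ l₁ σ := fun σ hσ => by
      simp [hu, red_right h₂ (hbe ▸ hσ)]
    rw [W_congr hτb fun σ hσ => e σ hσ.1, e b le_rfl, e τ hτb]
    exact star_red h₁ (h12.trans hb2) (min_le_left _ _) hρ1 τ

theorem red_red_apart {p₁ l₁ p₂ l₂ s t : ℝ} (h₁ : 0 < l₁) (h₂ : 0 < l₂) (hst : s < t)
    (ho : p₁ + 2 * π * l₁ ≤ p₂) (h : W (fun τ => red p₁ l₁ τ * red p₂ l₂ τ) s t = 0) :
    0 < A (fun τ => red p₁ l₁ τ * red p₂ l₂ τ) s t := by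
  set u : ℝ → ℂ := fun τ => red p₁ l₁ τ * red p₂ l₂ τ with hu
  have cu : Continuous u := (continuous_red _ _).mul (continuous_red _ _)
  have e1 : ∀ σ, σ ≤ p₂ → u σ = red p₁ l₁ σ := fun σ hσ => by simp [hu, red_left h₂ hσ]
  have e2 : ∀ σ, p₂ ≤ σ → u σ = red p₂ l₂ σ := fun σ hσ => by
    simp [hu, red_right h₁ (ho.trans hσ)]
  rcases le_total t p₂ with ht | ht
  · rw [W_congr hst.le fun σ hσ => e1 σ (hσ.2.trans ht)] at h
    rw [A_congr hst.le fun σ hσ => e1 σ (hσ.2.trans ht)]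
    exact (red_chord h₁ hst h).2.2
  rcases le_total p₂ s with hs | hs
  · rw [W_congr hst.le fun σ hσ => e2 σ (hs.trans hσ.1)] at h
    rw [A_congr hst.le fun σ hσ => e2 σ (hs.trans hσ.1)]
    exact (red_chord h₂ hst h).2.2
  have hW : W u p₂ t = -W u s p₂ := by
    have := W_add cu s p₂ t
    rw [h] at this
    linear_combination this
  have hA : A u s t = A (red p₁ l₁) s p₂ + A (red p₂ l₂) p₂ t := by
    rw [A_add cu s p₂ t, hW, map_neg, mul_neg, Complex.mul_conj,
      A_congr hs fun σ hσ => e1 σ hσ.2, A_congr ht fun σ hσ => e2 σ hσ.1]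
    simp
  rw [hA]
  have n1 := A_red_nonneg h₁ p₁ hs
  have n2 := A_red_nonneg h₂ p₂ ht
  by_cases c1 : s < p₁ + 2 * π * l₁
  · have : ph p₁ l₁ s < ph p₁ l₁ p₂ := by
      rw [ph_right h₁ ho]
      unfold ph
      refine max_lt (by linarith [Real.pi_pos]) (min_lt_iff.2 (Or.inl ?_))
      rw [div_lt_iff₀ h₁]; linarith
    linarith [A_red_pos h₁ p₁ hs this]
  by_cases c2 : p₂ < t
  · have : ph p₂ l₂ p₂ < ph p₂ l₂ t := by
      rw [ph_left h₂ le_rfl]
      unfold ph
      refine lt_max_iff.2 (Or.inr (lt_min (div_pos (by linarith) h₂) (by linarith [Real.pi_pos])))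
    linarith [A_red_pos h₂ p₂ ht this]
  exfalso
  push Not at c1 c2
  rw [W_congr (v := fun _ => 1) hst.le fun σ hσ => by
    rw [e1 σ (hσ.2.trans c2), red_right h₁ (c1.trans hσ.1)]] at h
  unfold W at h
  simp only [intervalIntegral.integral_const, Complex.real_smul, mul_one, Complex.ofReal_eq_zero] at h
  linarith

/-- A2: two red kinks, any positions and sizes -/
theorem red_red {p₁ l₁ p₂ l₂ s t : ℝ} (h₁ : 0 < l₁) (h₂ : 0 < l₂) (hst : s < t)
    (h : W (fun τ => red p₁ l₁ τ * red p₂ l₂ τ) s t = 0) :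
    0 < A (fun τ => red p₁ l₁ τ * red p₂ l₂ τ) s t := by
  rcases le_total p₁ p₂ with h12 | h12
  · rcases le_total p₂ (p₁ + 2 * π * l₁) with ho | ho
    · exact red_red_overlap h₁ h₂ hst h12 ho h
    · exact red_red_apart h₁ h₂ hst ho h
  · have e : (fun τ => red p₁ l₁ τ * red p₂ l₂ τ) = fun τ => red p₂ l₂ τ * red p₁ l₁ τ :=
      funext fun τ => mul_comm _ _
    rw [e] at h ⊢
    rcases le_total p₁ (p₂ + 2 * π * l₂) with ho | ho
    · exact red_red_overlap h₂ h₁ hst h12 ho h
    · exact red_red_apart h₂ h₁ hst ho h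

/-- A3: concatenation -/
theorem concat {u v : ℝ → ℂ} {B C m m' s t : ℝ} (hu : Continuous u) (hv : Continuous v)
    (hB : Dev u B) (hC : Dev v C) (hu1 : ∀ τ, m ≤ τ → u τ = 1) (hv1 : ∀ τ, τ ≤ m' → v τ = 1)
    (hm : m ≤ m') (hgap : B + C < m' - m) (hst : s < t) (h : W (fun τ => u τ * v τ) s t = 0) :
    (W u s t = 0 ∧ A (fun τ => u τ * v τ) s t = A u s t) ∨
    (W v s t = 0 ∧ A (fun τ => u τ * v τ) s t = A v s t) := by
  have e1 : ∀ σ, σ ≤ m' → u σ * v σ = u σ := fun σ hσ => by rw [hv1 σ hσ, mul_one]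
  have e2 : ∀ σ, m ≤ σ → u σ * v σ = v σ := fun σ hσ => by rw [hu1 σ hσ, one_mul]
  rcases le_total t m' with ht | ht
  · left
    rw [W_congr hst.le fun σ hσ => e1 σ (hσ.2.trans ht)] at h
    exact ⟨h, A_congr hst.le fun σ hσ => e1 σ (hσ.2.trans ht)⟩
  rcases le_total m s with hs | hs
  · right
    rw [W_congr hst.le fun σ hσ => e2 σ (hs.trans hσ.1)] at h
    exact ⟨h, A_congr hst.le fun σ hσ => e2 σ (hs.trans hσ.1)⟩
  exfalso
  have h1 := W_add (hu.mul hv) s m' t
  have h2 : W (u * v) s m' = W u s m' := W_congr (hs.trans hm) fun σ hσ => e1 σ hσ.2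
  have h3 : W (u * v) m' t = W v m' t := W_congr ht fun σ hσ => e2 σ (hm.trans hσ.1)
  have h4 : W (u * v) s t = 0 := h
  rw [h2, h3, h4] at h1
  have h5 := congrArg Complex.re h1
  rw [Complex.add_re, Complex.zero_re] at h5
  have h6 := hB s m' (hs.trans hm)
  have h7 := hC m' t ht
  linarith

end Pool.Agent.MP_b8ade4_gt

end MrgPart3

-- ======== part 4: formerly Pool.Agent.MP_b8ade4_gt.Stab
section MrgPart4

/-!
Uniform stability of chords and insertion of a small kink.
-/

namespace Pool.Agent.MP_b8ade4_gt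
open Complex Real Set Filter Topology

section
variable {X : Type*} [TopologicalSpace X] [CompactSpace X] {x : X → ℝ → ℂ}

theorem fam_bounds (hx : Continuous fun q : X × ℝ => x q.1 q.2) (hx0 : ∀ a t, x a t ≠ 0) (R : ℝ) :
    ∃ μ > 0, ∃ M > 0, ∀ a t, -R ≤ t → t ≤ R → μ ≤ ‖x a t‖ ∧ ‖x a t‖ ≤ M := by
  have hK : IsCompact ((univ : Set X) ×ˢ Icc (-R) R) := isCompact_univ.prod isCompact_Icc
  obtain ⟨μ, hμ, h1⟩ := hK.exists_forall_le' (f := fun q : X × ℝ => ‖x q.1 q.2‖) (a := 0)
    hx.norm.continuousOn fun q _ => norm_pos_iff.2 (hx0 _ _)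
  obtain ⟨M, h2⟩ := hK.exists_bound_of_continuousOn hx.continuousOn
  refine ⟨μ, hμ, max M 1, lt_max_of_lt_right one_pos, fun a t h3 h4 =>
    ⟨h1 (a, t) ⟨mem_univ _, h3, h4⟩, (h2 (a, t) ⟨mem_univ _, h3, h4⟩).trans (le_max_left _ _)⟩⟩

theorem fam_unif (hx : Continuous fun q : X × ℝ => x q.1 q.2) (R : ℝ) {κ : ℝ} (hκ : 0 < κ) :
    ∃ δ > 0, ∀ a s τ, -R ≤ s → s ≤ R → |τ - s| < δ → ‖x a τ - x a s‖ ≤ κ := by
  have hK : IsCompact ((univ : Set X) ×ˢ Icc (-R) R) := isCompact_univ.prod isCompact_Icc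
  have hc : Continuous fun z : ℝ × X × ℝ => ‖x z.2.1 (z.2.2 + z.1) - x z.2.1 z.2.2‖ :=
    ((hx.comp (f := fun z : ℝ × X × ℝ => (z.2.1, z.2.2 + z.1)) (by fun_prop)).sub
      (hx.comp (f := fun z : ℝ × X × ℝ => (z.2.1, z.2.2)) (by fun_prop))).norm
  have h := hK.eventually_forall_of_forall_eventually (x₀ := (0 : ℝ))
    (P := fun d (y : X × ℝ) => ‖x y.1 (y.2 + d) - x y.1 y.2‖ < κ) fun y _ =>
      (isOpen_lt hc continuous_const).mem_nhds (by simpa using hκ)
  obtain ⟨δ, hδ, h⟩ := Metric.eventually_nhds_iff.1 h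
  refine ⟨δ, hδ, fun a s τ h1 h2 h3 => ?_⟩
  have := h (y := τ - s) (by simpa [Real.dist_eq] using h3) (a, s) ⟨mem_univ _, h1, h2⟩
  simp only [add_sub_cancel] at this
  exact this.le

theorem fam_long (hx : Continuous fun q : X × ℝ => x q.1 q.2) (R : ℝ)
    {Ω : Set (X × ℝ × ℝ × ℝ)} (hΩ : IsOpen Ω)
    (h : ∀ a s t, -R ≤ s → s < t → t ≤ R → W (x a) s t = 0 → (a, s, t, A (x a) s t) ∈ Ω)
    {δ : ℝ} (hδ : 0 < δ) :
    ∃ e > 0, ∀ a s t (α : ℝ), -R ≤ s → s + δ ≤ t → t ≤ R → ‖W (x a) s t‖ < e →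
      |α - A (x a) s t| < e → (a, s, t, α) ∈ Ω := by
  have hK : IsCompact (((univ : Set X) ×ˢ Icc (-R) R ×ˢ Icc (-R) R) ∩
      {y : X × ℝ × ℝ | y.2.1 + δ ≤ y.2.2}) :=
    (isCompact_univ.prod (isCompact_Icc.prod isCompact_Icc)).inter_right
      (isClosed_le (by fun_prop) (by fun_prop))
  have cW : Continuous fun z : (ℂ × ℝ) × X × ℝ × ℝ => W (x z.2.1) z.2.2.1 z.2.2.2 :=
    (continuous_W hx).comp continuous_snd
  have cA : Continuous fun z : (ℂ × ℝ) × X × ℝ × ℝ => A (x z.2.1) z.2.2.1 z.2.2.2 :=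
    (continuous_A hx).comp continuous_snd
  have c1 : Continuous fun z : (ℂ × ℝ) × X × ℝ × ℝ =>
      ((z.2.1, z.2.2.1, z.2.2.2, A (x z.2.1) z.2.2.1 z.2.2.2 + z.1.2) : X × ℝ × ℝ × ℝ) :=
    (continuous_fst.comp continuous_snd).prodMk
      ((continuous_fst.comp (continuous_snd.comp continuous_snd)).prodMk
        ((continuous_snd.comp (continuous_snd.comp continuous_snd)).prodMk
          (cA.add (continuous_snd.comp continuous_fst))))
  have h1 := hK.eventually_forall_of_forall_eventually (x₀ := ((0, 0) : ℂ × ℝ))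
    (P := fun w (y : X × ℝ × ℝ) => W (x y.1) y.2.1 y.2.2 ≠ w.1 ∨
      (y.1, y.2.1, y.2.2, A (x y.1) y.2.1 y.2.2 + w.2) ∈ Ω) fun y hy => by
      have ho : IsOpen ({z : (ℂ × ℝ) × X × ℝ × ℝ | W (x z.2.1) z.2.2.1 z.2.2.2 ≠ z.1.1} ∪
          (fun z : (ℂ × ℝ) × X × ℝ × ℝ =>
            ((z.2.1, z.2.2.1, z.2.2.2, A (x z.2.1) z.2.2.1 z.2.2.2 + z.1.2) : X × ℝ × ℝ × ℝ)) ⁻¹' Ω) :=
        (isOpen_ne_fun cW (continuous_fst.comp continuous_fst)).union (hΩ.preimage c1)
      refine ho.mem_nhds ?_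
      by_cases h0 : W (x y.1) y.2.1 y.2.2 = 0
      · right
        have h2 : y.2.1 + δ ≤ y.2.2 := hy.2
        simpa using h y.1 y.2.1 y.2.2 hy.1.2.1.1 (by linarith) hy.1.2.2.2 h0
      · left
        exact h0
  obtain ⟨e, he, h1⟩ := Metric.eventually_nhds_iff.1 h1
  refine ⟨e, he, fun a s t α h2 h3 h4 h5 h6 => ?_⟩
  have := h1 (y := (W (x a) s t, α - A (x a) s t))
    (by rw [Prod.dist_eq]; exact max_lt (by simpa using h5) (by simpa [Real.dist_eq] using h6))
    (a, s, t) ⟨⟨mem_univ _, ⟨h2, by linarith⟩, ⟨by linarith, h4⟩⟩, h3⟩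
  simpa using this

end

theorem W_sub_le {u v : ℝ → ℂ} (hu : Continuous u) (hv : Continuous v) {s τ t : ℝ} (hs : s ≤ τ)
    (ht : τ ≤ t) : ‖W v s τ - W u s τ‖ ≤ ∫ σ in s..t, ‖v σ - u σ‖ := by
  unfold W
  rw [← intervalIntegral.integral_sub (hv.intervalIntegrable _ _) (hu.intervalIntegrable _ _)]
  refine (intervalIntegral.norm_integral_le_integral_norm hs).trans ?_
  exact intervalIntegral.integral_mono_interval le_rfl hs ht
    (Filter.Eventually.of_forall fun _ => norm_nonneg _) ((hv.sub hu).norm.intervalIntegrable _ _)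

theorem W_norm_le {u : ℝ → ℂ} {s t M : ℝ} (hst : s ≤ t) (h : ∀ σ ∈ Icc s t, ‖u σ‖ ≤ M) :
    ‖W u s t‖ ≤ M * (t - s) := by
  have := intervalIntegral.norm_integral_le_of_norm_le_const (a := s) (b := t) (f := u) (C := M)
    fun σ hσ => by
      rw [uIoc_of_le hst] at hσ
      exact h σ ⟨hσ.1.le, hσ.2⟩
  rwa [abs_of_nonneg (sub_nonneg.2 hst)] at this

theorem A_sub_le {u v : ℝ → ℂ} (hu : Continuous u) (hv : Continuous v) {s t M : ℝ} (hst : s ≤ t)
    (hM : 0 ≤ M) (h1 : ∀ σ ∈ Icc s t, ‖u σ‖ ≤ M) (h2 : ∀ σ ∈ Icc s t, ‖v σ‖ ≤ M) :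
    |A v s t - A u s t| ≤ 2 * M * (t - s) * ∫ σ in s..t, ‖v σ - u σ‖ := by
  set D := ∫ σ in s..t, ‖v σ - u σ‖ with hD
  have cu : Continuous fun τ => (W u s τ * (starRingEnd ℂ) (u τ)).im :=
    Complex.continuous_im.comp ((continuous_W_right hu s).mul (Complex.continuous_conj.comp hu))
  have cv : Continuous fun τ => (W v s τ * (starRingEnd ℂ) (v τ)).im :=
    Complex.continuous_im.comp ((continuous_W_right hv s).mul (Complex.continuous_conj.comp hv))
  have cd : Continuous fun σ => ‖v σ - u σ‖ := (hv.sub hu).norm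
  have cb : Continuous fun σ => D * M + M * (t - s) * ‖v σ - u σ‖ :=
    continuous_const.add (continuous_const.mul cd)
  unfold A
  rw [← intervalIntegral.integral_sub (cv.intervalIntegrable _ _) (cu.intervalIntegrable _ _)]
  refine (intervalIntegral.abs_integral_le_integral_abs hst).trans ?_
  have h3 : ∫ τ in s..t, |(W v s τ * (starRingEnd ℂ) (v τ)).im - (W u s τ * (starRingEnd ℂ) (u τ)).im|
      ≤ ∫ σ in s..t, (D * M + M * (t - s) * ‖v σ - u σ‖) := by
    refine intervalIntegral.integral_mono_on hst ((cv.sub cu).abs.intervalIntegrable _ _)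
      (cb.intervalIntegrable _ _) fun τ hτ => ?_
    rw [← Complex.sub_im]
    refine (Complex.abs_im_le_norm _).trans ?_
    have e : W v s τ * (starRingEnd ℂ) (v τ) - W u s τ * (starRingEnd ℂ) (u τ) =
        (W v s τ - W u s τ) * (starRingEnd ℂ) (v τ) + W u s τ * (starRingEnd ℂ) (v τ - u τ) := by
      rw [map_sub]; ring
    rw [e]
    refine (norm_add_le _ _).trans ?_
    rw [norm_mul, norm_mul, Complex.norm_conj, Complex.norm_conj]
    have a1 := W_sub_le hu hv hτ.1 hτ.2
    have a2 : ‖W u s τ‖ ≤ M * (t - s) :=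
      (W_norm_le hτ.1 fun σ hσ => h1 σ ⟨hσ.1, hσ.2.trans hτ.2⟩).trans
        (mul_le_mul_of_nonneg_left (by linarith [hτ.2]) hM)
    exact add_le_add (mul_le_mul a1 (h2 τ hτ) (norm_nonneg _) ((norm_nonneg _).trans a1))
      (mul_le_mul_of_nonneg_right a2 (norm_nonneg _))
  refine h3.trans (le_of_eq ?_)
  have ce : Continuous fun σ => M * (t - s) * ‖v σ - u σ‖ := continuous_const.mul cd
  rw [intervalIntegral.integral_add (continuous_const.intervalIntegrable _ _)
    (ce.intervalIntegrable _ _), intervalIntegral.integral_const_mul (M * (t - s))]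
  simp only [intervalIntegral.integral_const, smul_eq_mul]
  ring

theorem int_norm_le {f : ℝ → ℝ} (hf : Continuous f) {s t η : ℝ} (hst : s ≤ t)
    (h : ∀ σ ∈ Icc s t, f σ ≤ η) : ∫ σ in s..t, f σ ≤ η * (t - s) := by
  have := intervalIntegral.integral_mono_on (μ := MeasureTheory.volume) hst
    (hf.intervalIntegrable _ _) (continuous_const.intervalIntegrable _ _) h
  simp only [intervalIntegral.integral_const, smul_eq_mul] at this
  linarith

theorem W_const (c : ℂ) (s t : ℝ) : W (fun _ => c) s t = ((t - s : ℝ) : ℂ) * c := by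
  unfold W
  simp

/-- A4: uniform stability of chords on a window -/
theorem stab {X : Type*} [TopologicalSpace X] [CompactSpace X] {x : X → ℝ → ℂ}
    (hx : Continuous fun q : X × ℝ => x q.1 q.2) (hx0 : ∀ a t, x a t ≠ 0) (R : ℝ)
    {Ω : Set (X × ℝ × ℝ × ℝ)} (hΩ : IsOpen Ω)
    (h : ∀ a s t, -R ≤ s → s < t → t ≤ R → W (x a) s t = 0 → (a, s, t, A (x a) s t) ∈ Ω) :
    ∃ η > 0, ∀ a (v : ℝ → ℂ), Continuous v → (∀ t, |t| ≤ R → ‖v t - x a t‖ ≤ η → v t ≠ 0) ∧
      ∀ s t, -R ≤ s → s < t → t ≤ R → (∀ τ ∈ Icc s t, ‖v τ - x a τ‖ ≤ η) → W v s t = 0 →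
        (a, s, t, A v s t) ∈ Ω := by
  obtain ⟨μ, hμ, M, hM, hb⟩ := fam_bounds hx hx0 R
  obtain ⟨δ, hδ, hu⟩ := fam_unif hx R (κ := μ / 4) (by positivity)
  obtain ⟨e, he, hl⟩ := fam_long hx R hΩ h hδ
  set L := 2 * |R| + 1 with hL
  have hL0 : 0 < L := by positivity
  set η := min (min (μ / 4) M) (min (e / (2 * L)) (e / (8 * M * L * L))) with hη
  have hη0 : 0 < η := by positivity
  have η1 : η ≤ μ / 4 := (min_le_left _ _).trans (min_le_left _ _)
  have η2 : η ≤ M := (min_le_left _ _).trans (min_le_right _ _)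
  have η3 : η * (2 * L) ≤ e :=
    (le_div_iff₀ (by positivity)).1 ((min_le_right _ _).trans (min_le_left _ _))
  have η4 : η * (8 * M * L * L) ≤ e :=
    (le_div_iff₀ (by positivity)).1 ((min_le_right _ _).trans (min_le_right _ _))
  refine ⟨η, hη0, fun a v hv => ⟨fun t ht h1 h0 => ?_, fun s t hs hst ht hc h0 => ?_⟩⟩
  · rw [h0, zero_sub, norm_neg] at h1
    have := (hb a t (abs_le.1 ht).1 (abs_le.1 ht).2).1
    linarith
  have ca : Continuous (x a) := hx.comp (Continuous.prodMk_right a)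
  have hts : t - s ≤ L := by have := le_abs_self R; linarith
  rcases lt_or_ge t (s + δ) with hd | hd
  · exfalso
    have a1 := W_sub_le (u := fun _ => x a s) continuous_const hv hst.le le_rfl
    have a2 : ∫ σ in s..t, ‖v σ - x a s‖ ≤ μ / 2 * (t - s) := by
      refine int_norm_le (hv.sub continuous_const).norm hst.le fun σ hσ => ?_
      have b1 := hu a s σ hs (by linarith)
        (by rw [abs_of_nonneg (by linarith [hσ.1])]; linarith [hσ.2])
      have b2 := hc σ hσ
      have b3 := norm_add_le (v σ - x a σ) (x a σ - x a s)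
      rw [sub_add_sub_cancel] at b3
      show ‖v σ - x a s‖ ≤ μ / 2
      linarith
    rw [h0, W_const, zero_sub, norm_neg, norm_mul, Complex.norm_real, Real.norm_eq_abs,
      abs_of_pos (sub_pos.2 hst)] at a1
    have a3 := (hb a s hs (by linarith)).1
    nlinarith [mul_pos hμ (sub_pos.2 hst), mul_le_mul_of_nonneg_left a3 (sub_pos.2 hst).le]
  have hD : ∫ σ in s..t, ‖v σ - x a σ‖ ≤ η * L :=
    (int_norm_le (hv.sub ca).norm hst.le hc).trans (mul_le_mul_of_nonneg_left hts hη0.le)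
  have hD0 : 0 ≤ ∫ σ in s..t, ‖v σ - x a σ‖ :=
    intervalIntegral.integral_nonneg hst.le fun _ _ => norm_nonneg _
  refine hl a s t _ hs hd ht ?_ ?_
  · have a1 := W_sub_le ca hv hst.le le_rfl
    rw [h0, zero_sub, norm_neg] at a1
    nlinarith [mul_pos hη0 hL0]
  · have b1 : ∀ σ ∈ Icc s t, ‖x a σ‖ ≤ M := fun σ hσ =>
      (hb a σ (by linarith [hσ.1]) (by linarith [hσ.2])).2
    have a1 := A_sub_le ca hv hst.le (M := 2 * M) (by positivity)
      (fun σ hσ => by linarith [b1 σ hσ]) fun σ hσ => by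
        have b3 := norm_add_le (v σ - x a σ) (x a σ)
        rw [sub_add_cancel] at b3
        linarith [b1 σ hσ, hc σ hσ]
    have a2 : 2 * (2 * M) * (t - s) * ∫ σ in s..t, ‖v σ - x a σ‖ ≤ 2 * (2 * M) * L * (η * L) :=
      mul_le_mul (mul_le_mul_of_nonneg_left hts (by positivity)) hD hD0 (by positivity)
    have a3 : 0 < η * (M * L * L) := by positivity
    nlinarith

/-- a chord of a kink times an almost constant function is short and has positive area -/
theorem short_red {p l s t : ℝ} {y : ℝ → ℂ} {c : ℂ} (hl : 0 < l) (hst : s < t) (hy : Continuous y)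
    (hc : c ≠ 0) (hyc : ∀ τ ∈ Icc s t, ‖y τ - c‖ ≤ ‖c‖ / 100)
    (h : W (fun τ => red p l τ * y τ) s t = 0) :
    0 < A (fun τ => red p l τ * y τ) s t ∧ s ≤ p + 2 * π * l ∧ p ≤ t := by
  set v : ℝ → ℂ := fun τ => red p l τ * y τ with hv
  have cr := continuous_red p l
  have cv : Continuous v := cr.mul hy
  have hn : 0 < ‖c‖ := norm_pos_iff.2 hc
  have hE : ∀ τ ∈ Icc s t, ‖W v s τ - W (red p l) s τ * c‖ ≤ ‖c‖ / 100 * (t - s) := by
    intro τ hτ
    have a1 := W_sub_le (u := fun σ => red p l σ * c) (cr.mul continuous_const) cv hτ.1 hτ.2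
    have a2 : W (fun σ => red p l σ * c) s τ = W (red p l) s τ * c :=
      intervalIntegral.integral_mul_const _ _
    rw [a2] at a1
    refine a1.trans (int_norm_le (cv.sub (cr.mul continuous_const)).norm hst.le fun σ hσ => ?_)
    show ‖red p l σ * y σ - red p l σ * c‖ ≤ _
    rw [← mul_sub, norm_mul, norm_red, one_mul]
    exact hyc σ hσ
  have hW : ‖W (red p l) s t‖ ≤ (t - s) / 100 := by
    have a1 := hE t ⟨hst.le, le_rfl⟩
    rw [h, zero_sub, norm_neg, norm_mul] at a1
    have : ‖W (red p l) s t‖ * ‖c‖ ≤ (t - s) / 100 * ‖c‖ := by linarith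
    exact le_of_mul_le_mul_right this hn
  have hre := (Complex.re_le_norm (W (red p l) s t)).trans hW
  have hone : ¬ ∀ σ ∈ Icc s t, red p l σ = 1 := fun h1 => by
    rw [W_congr (v := fun _ => 1) hst.le h1, W_const, mul_one, Complex.ofReal_re] at hre
    linarith
  have hs : s ≤ p + 2 * π * l := by
    by_contra h1
    push Not at h1
    exact hone fun σ hσ => red_right hl (by linarith [hσ.1])
  have ht : p ≤ t := by
    by_contra h1
    push Not at h1
    exact hone fun σ hσ => red_left hl (by linarith [hσ.2])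
  refine ⟨?_, hs, ht⟩
  have hd := (L1_red p hl).dev s t hst.le
  have hpi := Real.pi_lt_d2
  have hK : t - s ≤ 14 * l := by nlinarith
  refine pos_of_star cv (P := ((gl p l s : ℂ) + Complex.I * l * red p l s) * c) (a := s)
    (ρ := l * ‖c‖ ^ 2 / 2) (by positivity) hst h fun τ hτ => ?_
  set Z : ℂ := (gl p l τ : ℂ) + Complex.I * l * red p l τ with hZ
  set E : ℂ := W v s τ - W (red p l) s τ * c with hEd
  have e1 : ((gl p l s : ℂ) + Complex.I * l * red p l s) * c + W v s τ = Z * c + E := by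
    rw [hEd, W_red hl]; ring
  have e2 : (Z * c + E) * (starRingEnd ℂ) (v τ) =
      Z * (starRingEnd ℂ) (red p l τ) * (c * (starRingEnd ℂ) c) +
        (Z * c * (starRingEnd ℂ) (red p l τ * (y τ - c)) + E * (starRingEnd ℂ) (v τ)) := by
    simp only [hv, map_mul, map_sub]; ring
  have e3 : (Z * (starRingEnd ℂ) (red p l τ) * (c * (starRingEnd ℂ) c)).im = l * ‖c‖ ^ 2 := by
    rw [Complex.mul_conj, Complex.normSq_eq_norm_sq, Complex.im_mul_ofReal, hZ, im_centre_red hl]
  have g1 : |gl p l τ| ≤ t - s := by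
    rw [abs_le]
    constructor
    · rcases le_total τ p with h1 | h1
      · rw [gl_left hl h1]; linarith [hτ.1]
      · linarith [gl_nonneg hl h1]
    · rcases le_total τ (p + 2 * π * l) with h1 | h1
      · linarith [gl_nonpos hl h1]
      · rw [gl_right hl h1]; linarith [hτ.2]
  have nZ : ‖Z‖ ≤ 15 * l := by
    refine (norm_add_le _ _).trans ?_
    rw [norm_mul, norm_mul, norm_red, Complex.norm_I, Complex.norm_real, Complex.norm_real,
      Real.norm_eq_abs, Real.norm_eq_abs, abs_of_pos hl]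
    linarith
  have nE : ‖E‖ ≤ ‖c‖ / 100 * (14 * l) :=
    (hE τ hτ).trans (mul_le_mul_of_nonneg_left hK (by positivity))
  have nv : ‖v τ‖ ≤ 2 * ‖c‖ := by
    have b3 := norm_add_le (y τ - c) c
    rw [sub_add_cancel] at b3
    simp only [hv, norm_mul, norm_red, one_mul]
    linarith [hyc τ hτ]
  have n1 : ‖Z * c * (starRingEnd ℂ) (red p l τ * (y τ - c))‖ ≤ 15 * l * ‖c‖ * (‖c‖ / 100) := by
    rw [norm_mul, norm_mul, Complex.norm_conj, norm_mul, norm_red, one_mul]
    exact mul_le_mul (mul_le_mul_of_nonneg_right nZ hn.le) (hyc τ hτ) (norm_nonneg _)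
      (by positivity)
  have n2 : ‖E * (starRingEnd ℂ) (v τ)‖ ≤ ‖c‖ / 100 * (14 * l) * (2 * ‖c‖) := by
    rw [norm_mul, Complex.norm_conj]
    exact mul_le_mul nE nv (norm_nonneg _) (by positivity)
  have n3 := (abs_le.1 ((Complex.abs_im_le_norm
    (Z * c * (starRingEnd ℂ) (red p l τ * (y τ - c)) + E * (starRingEnd ℂ) (v τ))).trans
    (norm_add_le _ _))).1
  rw [e1, e2, Complex.add_im, e3]
  have n4 : 0 < l * ‖c‖ ^ 2 := by positivity
  nlinarith

/-- A5: insertion of a small red kink anywhere -/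
theorem insert_red {X : Type*} [TopologicalSpace X] [CompactSpace X] {x : X → ℝ → ℂ}
    (hx : Continuous fun q : X × ℝ => x q.1 q.2) (hx0 : ∀ a t, x a t ≠ 0) (R : ℝ)
    {Ω : Set (X × ℝ × ℝ × ℝ)} (hΩ : IsOpen Ω)
    (h : ∀ a s t, -R ≤ s → s < t → t ≤ R → W (x a) s t = 0 → (a, s, t, A (x a) s t) ∈ Ω)
    {ε : ℝ} (hε : 0 < ε) :
    ∃ l₀ > 0, ∀ l, 0 < l → l ≤ l₀ → ∀ a p s t, -R ≤ s → s < t → t ≤ R →
      W (fun τ => red p l τ * x a τ) s t = 0 →
      (a, s, t, A (fun τ => red p l τ * x a τ) s t) ∈ Ω ∨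
      (0 < A (fun τ => red p l τ * x a τ) s t ∧ |s - p| < ε ∧ |t - p| < ε) := by
  obtain ⟨μ, hμ, M, hM, hb⟩ := fam_bounds hx hx0 R
  obtain ⟨δ₀, hδ₀, hu⟩ := fam_unif hx R (κ := μ / 100) (by positivity)
  set δ := min δ₀ (ε / 2) with hδd
  have hδ : 0 < δ := by positivity
  have δ1 : δ ≤ δ₀ := min_le_left _ _
  have δ2 : δ ≤ ε / 2 := min_le_right _ _
  obtain ⟨e, he, hlong⟩ := fam_long hx R hΩ h hδ
  set L := 2 * |R| + 1 with hL
  have hL0 : 0 < L := by positivity
  have hpi := Real.pi_lt_d2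
  have hpi0 := Real.pi_pos
  refine ⟨min (ε / 16) (min (e / (16 * M)) (e / (32 * M * M * L))), by positivity,
    fun l hl hl0 a p s t hs hst ht h0 => ?_⟩
  have l1 : l ≤ ε / 16 := hl0.trans (min_le_left _ _)
  have l2 : l * (16 * M) ≤ e :=
    (le_div_iff₀ (by positivity)).1 (hl0.trans ((min_le_right _ _).trans (min_le_left _ _)))
  have l3 : l * (32 * M * M * L) ≤ e :=
    (le_div_iff₀ (by positivity)).1 (hl0.trans ((min_le_right _ _).trans (min_le_right _ _)))
  have ca : Continuous (x a) := hx.comp (Continuous.prodMk_right a)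
  have cr := continuous_red p l
  have hts : t - s ≤ L := by have := le_abs_self R; linarith
  rcases lt_or_ge t (s + δ) with hd | hd
  · right
    obtain ⟨a1, a2, a3⟩ := short_red hl hst ca (hx0 a s) (fun τ hτ => by
      have b1 := hu a s τ hs (by linarith)
        (by rw [abs_of_nonneg (by linarith [hτ.1])]; linarith [hτ.2])
      linarith [(hb a s hs (by linarith)).1]) h0
    have a4 : 2 * π * l < ε / 2 := by nlinarith
    have a5 : 0 < 2 * π * l := by positivity
    exact ⟨a1, abs_lt.2 ⟨by linarith, by linarith⟩, abs_lt.2 ⟨by linarith, by linarith⟩⟩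
  left
  have b1 : ∀ σ ∈ Icc s t, ‖x a σ‖ ≤ M := fun σ hσ =>
    (hb a σ (by linarith [hσ.1]) (by linarith [hσ.2])).2
  have cv : Continuous fun τ => red p l τ * x a τ := cr.mul ca
  have c1 : Continuous fun σ => ‖red p l σ - 1‖ := (cr.sub continuous_const).norm
  have hD : ∫ σ in s..t, ‖red p l σ * x a σ - x a σ‖ ≤ M * (14 * l) := by
    have a1 : ∫ σ in s..t, ‖red p l σ * x a σ - x a σ‖ ≤ ∫ σ in s..t, M * ‖red p l σ - 1‖ := by
      refine intervalIntegral.integral_mono_on hst.le ((cv.sub ca).norm.intervalIntegrable _ _)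
        ((continuous_const.mul c1).intervalIntegrable _ _) fun σ hσ => ?_
      rw [← sub_one_mul, norm_mul, mul_comm]
      exact mul_le_mul_of_nonneg_right (b1 σ hσ) (norm_nonneg _)
    rw [intervalIntegral.integral_const_mul] at a1
    have a2 := (L1_red p hl).2.2 s t hst.le
    refine a1.trans (mul_le_mul_of_nonneg_left (a2.trans ?_) hM.le)
    nlinarith
  have hD0 : 0 ≤ ∫ σ in s..t, ‖red p l σ * x a σ - x a σ‖ :=
    intervalIntegral.integral_nonneg hst.le fun _ _ => norm_nonneg _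
  refine hlong a s t _ hs hd ht ?_ ?_
  · have a1 := W_sub_le ca cv hst.le le_rfl
    rw [h0, zero_sub, norm_neg] at a1
    nlinarith [mul_pos hl hM]
  · have a1 := A_sub_le ca cv hst.le hM.le b1 fun σ hσ => by
      rw [norm_mul, norm_red, one_mul]; exact b1 σ hσ
    have a2 : 2 * M * (t - s) * ∫ σ in s..t, ‖red p l σ * x a σ - x a σ‖ ≤
        2 * M * L * (M * (14 * l)) :=
      mul_le_mul (mul_le_mul_of_nonneg_left hts (by positivity)) hD hD0 (by positivity)
    have a3 : 0 < l * (M * M * L) := by positivity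
    nlinarith

end Pool.Agent.MP_b8ade4_gt

end MrgPart4

-- ======== part 5: formerly Pool.Agent.MP_b8ade4_gt.BEmb
section MrgPart5

/-!
Embeddedness of the families of two and three kinks, and the position of the chords of the loop.
-/

namespace Pool.Agent.MP_b8ade4_gt.B
open Complex Real Set

theorem continuous_red' {Z : Type*} [TopologicalSpace Z] {p l t : Z → ℝ} (hp : Continuous p)
    (hl : Continuous l) (ht : Continuous t) (h0 : ∀ z, l z ≠ 0) :
    Continuous fun z => red (p z) (l z) (t z) := by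
  unfold red
  have h1 : Continuous fun z => (t z - p z) / l z := (ht.sub hp).div hl h0
  fun_prop

theorem continuous_blue' {Z : Type*} [TopologicalSpace Z] {p l t : Z → ℝ} (hp : Continuous p)
    (hl : Continuous l) (ht : Continuous t) (h0 : ∀ z, l z ≠ 0) :
    Continuous fun z => blue (p z) (l z) (t z) :=
  Complex.continuous_conj.comp (continuous_red' hp hl ht h0)

theorem blue_left {p l t : ℝ} (hl : 0 < l) (h : t ≤ p) : blue p l t = 1 := by
  rw [blue, red_left hl h, map_one]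

theorem blue_right {p l t : ℝ} (hl : 0 < l) (h : p + 2 * π * l ≤ t) : blue p l t = 1 := by
  rw [blue, red_right hl h, map_one]

theorem L1_blue (p : ℝ) {l : ℝ} (hl : 0 < l) : L1 (blue p l) (4 * π * l) := (L1_red p hl).conj

theorem conj_blue (p l t : ℝ) : (starRingEnd ℂ) (blue p l t) = red p l t := by
  rw [blue, Complex.conj_conj]

theorem conj_red (p l t : ℝ) : (starRingEnd ℂ) (red p l t) = blue p l t := rfl

theorem red_shift (p l t c : ℝ) : red p l (t + c) = red (p - c) l t := by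
  unfold red
  rw [show t + c - p = t - (p - c) by ring]

theorem blue_shift (p l t c : ℝ) : blue p l (t + c) = blue (p - c) l t := by
  rw [blue, red_shift, blue]

theorem _root_.Pool.Agent.MP_b8ade4_gt.L1.mono_b {u : ℝ → ℂ} {B C : ℝ} (h : L1 u B) (hBC : B ≤ C) : L1 u C :=
  ⟨h.1, h.2.1, fun s t hst => (h.2.2 s t hst).trans hBC⟩

theorem _root_.Pool.Agent.MP_b8ade4_gt.L1.ne_zero_b {u : ℝ → ℂ} {B : ℝ} (h : L1 u B) (t : ℝ) : u t ≠ 0 := by
  intro h0
  have := h.2.1 t
  rw [h0, norm_zero] at this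
  exact zero_ne_one this

theorem _root_.Pool.Agent.MP_b8ade4_gt.L1.shift_b {u : ℝ → ℂ} {B : ℝ} (h : L1 u B) (c : ℝ) : L1 (fun t => u (t + c)) B := by
  refine ⟨h.1.comp (continuous_add_const c), fun t => h.2.1 _, fun s t hst => ?_⟩
  rw [intervalIntegral.integral_comp_add_right (fun τ => ‖u τ - 1‖) c]
  exact h.2.2 _ _ (by linarith)

theorem L1_red' (p : ℝ) {l : ℝ} (hl : 0 < l) (h1 : l ≤ 1) : L1 (red p l) (4 * π) :=
  (L1_red p hl).mono_b (by nlinarith [Real.pi_pos])

theorem L1_blue' (p : ℝ) {l : ℝ} (hl : 0 < l) (h1 : l ≤ 1) : L1 (blue p l) (4 * π) :=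
  (L1_red' p hl h1).conj

theorem red_right' {p l t : ℝ} (hl : 0 < l) (h1 : l ≤ 1) (h : p + 7 ≤ t) : red p l t = 1 :=
  red_right hl (by nlinarith [Real.pi_lt_d2, Real.pi_pos])

theorem blue_right' {p l t : ℝ} (hl : 0 < l) (h1 : l ≤ 1) (h : p + 7 ≤ t) : blue p l t = 1 := by
  rw [blue, red_right' hl h1 h, map_one]

theorem _root_.Pool.Agent.MP_b8ade4_gt.Emb.conj_b {u : ℝ → ℂ} (h : Emb u) : Emb fun t => (starRingEnd ℂ) (u t) := by
  intro s t hst h0
  rw [W_conj, map_eq_zero] at h0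
  rw [A_conj, neg_ne_zero]
  exact h s t hst h0

theorem _root_.Pool.Agent.MP_b8ade4_gt.Emb.shift_b {u : ℝ → ℂ} (h : Emb u) (c : ℝ) : Emb fun t => u (t + c) := by
  intro s t hst h0
  rw [W_shift] at h0
  rw [A_shift]
  exact h _ _ (by linarith) h0

theorem _root_.Pool.Agent.MP_b8ade4_gt.Emb.concat_b {u v : ℝ → ℂ} {B C m m' : ℝ} (eu : Emb u) (ev : Emb v) (hu : L1 u B)
    (hv : L1 v C) (hu1 : ∀ τ, m ≤ τ → u τ = 1) (hv1 : ∀ τ, τ ≤ m' → v τ = 1)
    (hm : m ≤ m') (hgap : B + C < m' - m) : Emb fun τ => u τ * v τ := by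
  intro s t hst h0
  rcases MP_b8ade4_gt.concat hu.1 hv.1 hu.dev hv.dev hu1 hv1 hm hgap hst h0 with h | h
  · rw [h.2]; exact eu s t hst h.1
  · rw [h.2]; exact ev s t hst h.1

theorem blue_chord {p l s t : ℝ} (hl : 0 < l) (hst : s < t) (h : W (blue p l) s t = 0) :
    s = p ∧ t = p + 2 * π * l ∧ A (blue p l) s t < 0 := by
  have e : blue p l = fun τ => (starRingEnd ℂ) (red p l τ) := rfl
  rw [e, W_conj, map_eq_zero] at h
  obtain ⟨h1, h2, h3⟩ := red_chord hl hst h
  rw [e, A_conj]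
  exact ⟨h1, h2, by linarith⟩

theorem emb_red (p : ℝ) {l : ℝ} (hl : 0 < l) : Emb (red p l) :=
  fun _ _ hst h => (red_chord hl hst h).2.2.ne'

theorem emb_blue (p : ℝ) {l : ℝ} (hl : 0 < l) : Emb (blue p l) :=
  fun _ _ hst h => (blue_chord hl hst h).2.2.ne

theorem emb_red_red (p₁ p₂ : ℝ) {l₁ l₂ : ℝ} (h₁ : 0 < l₁) (h₂ : 0 < l₂) :
    Emb fun τ => red p₁ l₁ τ * red p₂ l₂ τ :=
  fun _ _ hst h => (red_red h₁ h₂ hst h).ne'

/-- chords stay in a bounded window -/
theorem chord_window {u : ℝ → ℂ} {B T s t : ℝ} (hu : L1 u B) (h1 : ∀ τ, T ≤ |τ| → u τ = 1)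
    (hst : s < t) (h : W u s t = 0) : -(T + B) ≤ s ∧ t ≤ T + B := by
  have hd := hu.dev s t hst.le
  rw [h, Complex.zero_re] at hd
  have hone : ¬ ∀ σ ∈ Icc s t, u σ = 1 := fun h2 => by
    rw [W_congr (v := fun _ => 1) hst.le h2, W_const, mul_one, Complex.ofReal_eq_zero] at h
    linarith
  constructor
  · by_contra h2
    push Not at h2
    exact hone fun σ hσ => h1 σ (le_abs.2 (Or.inr (by linarith [hσ.2])))
  · by_contra h2
    push Not at h2
    exact hone fun σ hσ => h1 σ (le_abs.2 (Or.inl (by linarith [hσ.1])))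

/-- insertion of a small red kink, without a window -/
theorem insert_red' {X : Type*} [TopologicalSpace X] [CompactSpace X] {x : X → ℝ → ℂ}
    (hx : Continuous fun q : X × ℝ => x q.1 q.2) {B : ℝ} (hL : ∀ a, L1 (x a) B)
    (h1 : ∀ a τ, 1010 ≤ |τ| → x a τ = 1)
    {Ω : Set (X × ℝ × ℝ × ℝ)} (hΩ : IsOpen Ω)
    (h : ∀ a s t, s < t → W (x a) s t = 0 → (a, s, t, A (x a) s t) ∈ Ω) :
    ∃ l₀ > 0, l₀ ≤ 1 / 10 ∧ ∀ l, 0 < l → l ≤ l₀ → ∀ a p s t, |p| ≤ 1000 → s < t →
      W (fun τ => red p l τ * x a τ) s t = 0 →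
      (a, s, t, A (fun τ => red p l τ * x a τ) s t) ∈ Ω ∨
      (0 < A (fun τ => red p l τ * x a τ) s t ∧ |s - p| < 1 / 2 ∧ |t - p| < 1 / 2) := by
  obtain ⟨l₀, h0, hl₀⟩ := insert_red hx (fun a => (hL a).ne_zero_b) (1010 + (4 * π + B)) hΩ
    (fun a s t _ hst _ hW => h a s t hst hW) (ε := 1 / 2) (by norm_num)
  refine ⟨min l₀ (1 / 10), by positivity, min_le_right _ _, fun l hl hl' a p s t hp hst hW => ?_⟩
  have l1 : l ≤ 1 := by linarith [min_le_right l₀ (1 / 10)]
  have hw := chord_window (T := 1010) ((L1_red' p hl l1).mul (hL a)) (fun τ hτ => by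
    rw [h1 a τ hτ, mul_one]
    rcases le_abs.1 hτ with h2 | h2
    · exact red_right' hl l1 (by linarith [(abs_le.1 hp).2])
    · exact red_left hl (by linarith [(abs_le.1 hp).1])) hst hW
  exact hl₀ l hl (hl'.trans (min_le_left _ _)) a p s t hw.1 hst hw.2 hW

theorem emb_insert {X : Type*} [TopologicalSpace X] [CompactSpace X] {x : X → ℝ → ℂ}
    (hx : Continuous fun q : X × ℝ => x q.1 q.2) {B : ℝ} (hL : ∀ a, L1 (x a) B)
    (h1 : ∀ a τ, 1010 ≤ |τ| → x a τ = 1) (h : ∀ a, Emb (x a)) :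
    ∃ l₀ > 0, l₀ ≤ 1 / 10 ∧ ∀ l, 0 < l → l ≤ l₀ → ∀ a p, |p| ≤ 1000 →
      Emb fun τ => red p l τ * x a τ := by
  obtain ⟨l₀, h0, h0', hl₀⟩ := insert_red' hx hL h1 (Ω := {z | z.2.2.2 ≠ 0})
    (isOpen_ne_fun (by fun_prop) continuous_const) fun a s t hst hW => h a s t hst hW
  refine ⟨l₀, h0, h0', fun l hl hl' a p hp s t hst hW => ?_⟩
  rcases hl₀ l hl hl' a p s t hp hst hW with h2 | h2
  · exact h2
  · exact h2.1.ne'

theorem red_far {p l t : ℝ} (hl : 0 < l) (h1 : l ≤ 1) (hp : |p| ≤ 1000) (ht : 1010 ≤ |t|) :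
    red p l t = 1 := by
  rcases le_abs.1 ht with h2 | h2
  · exact red_right' hl h1 (by linarith [(abs_le.1 hp).2])
  · exact red_left hl (by linarith [(abs_le.1 hp).1])

theorem blue_far {p l t : ℝ} (hl : 0 < l) (h1 : l ≤ 1) (hp : |p| ≤ 1000) (ht : 1010 ≤ |t|) :
    blue p l t = 1 := by
  rw [blue, red_far hl h1 hp ht, map_one]

/-- the chords of a red and a blue kink -/
def RB (p l q m : ℝ) : Prop := ∀ s t, s < t → W (fun τ => red p l τ * blue q m τ) s t = 0 →
  (0 < A (fun τ => red p l τ * blue q m τ) s t ∧ |s - p| < 1 ∧ |t - s - 2 * π * l| < 1) ∨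
  (A (fun τ => red p l τ * blue q m τ) s t < 0 ∧ |s - q| < 1 ∧ |t - s - 2 * π * m| < 1)

theorem RB.emb {p l q m : ℝ} (h : RB p l q m) : Emb fun τ => red p l τ * blue q m τ := by
  intro s t hst hW
  rcases h s t hst hW with h1 | h1
  · exact h1.1.ne'
  · exact h1.1.ne

theorem RB.symm {p l q m : ℝ} (h : RB p l q m) : RB q m p l := by
  intro s t hst hW
  have e : (fun τ => red q m τ * blue p l τ) =
      fun τ => (starRingEnd ℂ) (red p l τ * blue q m τ) := by
    funext τ
    rw [map_mul, conj_blue, conj_red, mul_comm]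
  rw [e, W_conj, map_eq_zero] at hW
  rw [e, A_conj]
  rcases h s t hst hW with h1 | h1
  · exact Or.inr ⟨by linarith [h1.1], h1.2⟩
  · exact Or.inl ⟨by linarith [h1.1], h1.2⟩

theorem RB_apart {p l q m : ℝ} (hl : 0 < l) (hl1 : l ≤ 1) (hm : 0 < m) (hm1 : m ≤ 1)
    (h : p + 1000 ≤ q) : RB p l q m := by
  intro s t hst hW
  rcases concat (m := p + 7) (m' := q) (L1_red' p hl hl1).1 (L1_blue' q hm hm1).1
    (L1_red' p hl hl1).dev (L1_blue' q hm hm1).dev (fun τ hτ => red_right' hl hl1 hτ)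
    (fun τ hτ => blue_left hm hτ) (by linarith) (by linarith [Real.pi_lt_d2]) hst hW with h1 | h1
  · obtain ⟨a1, a2, a3⟩ := red_chord hl hst h1.1
    left
    rw [h1.2]
    refine ⟨a3, by simp [a1], ?_⟩
    rw [a1, a2]; simp
  · obtain ⟨a1, a2, a3⟩ := blue_chord hm hst h1.1
    right
    rw [h1.2]
    refine ⟨a3, by simp [a1], ?_⟩
    rw [a1, a2]; simp

theorem RB_small : ∃ l₀ > 0, l₀ ≤ 1 / 10 ∧ ∀ l, 0 < l → l ≤ l₀ → ∀ p q, |p| ≤ 1000 → |q| ≤ 1000 →
    RB p l q 1 := by
  obtain ⟨l₀, h0, h0', hl₀⟩ := insert_red' (X := Icc (-1000 : ℝ) 1000)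
    (x := fun q t => blue q.1 1 t)
    (continuous_blue' (by fun_prop) continuous_const continuous_snd fun _ => one_ne_zero)
    (fun a => L1_blue' a.1 one_pos le_rfl)
    (fun a τ hτ => blue_far one_pos le_rfl (abs_le.2 a.2) hτ)
    (Ω := {z | z.2.2.2 < 0} ∩ ({z | |z.2.1 - z.1.1| < 1} ∩ {z | |z.2.2.1 - z.2.1 - 2 * π * 1| < 1}))
    ((isOpen_lt (by fun_prop) continuous_const).inter
      ((isOpen_lt (by fun_prop) continuous_const).inter (isOpen_lt (by fun_prop) continuous_const)))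
    fun a s t hst hW => by
      obtain ⟨a1, a2, a3⟩ := blue_chord one_pos hst hW
      refine ⟨a3, ?_, ?_⟩
      · show |s - a.1| < 1
        simp [a1]
      · show |t - s - 2 * π * 1| < 1
        rw [a1, a2]; simp
  refine ⟨l₀, h0, h0', fun l hl hl' p q hp hq s t hst hW => ?_⟩
  rcases hl₀ l hl hl' ⟨q, abs_le.1 hq⟩ p s t hp hst hW with h2 | h2
  · exact Or.inr h2
  · left
    obtain ⟨a1, a2, a3⟩ := h2
    have b1 := abs_lt.1 a2
    have b2 := abs_lt.1 a3
    have b3 : 0 < 2 * π * l := by have := Real.pi_pos; positivity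
    have b4 : 2 * π * l < 1 := by nlinarith [Real.pi_lt_d2, Real.pi_pos]
    exact ⟨a1, by linarith, abs_lt.2 ⟨by linarith, by linarith⟩⟩

/-! the profiles -/

theorem ff_nonneg (θ : ℝ) : 0 ≤ ff θ := le_max_left _ _

theorem ff_le_one (θ : ℝ) : ff θ ≤ 1 := max_le zero_le_one (min_le_right _ _)

theorem cl_of_nonpos {x : ℝ} (h : x ≤ 0) : cl x = 0 := max_eq_left ((min_le_left _ _).trans h)

theorem cl_of_one_le {x : ℝ} (h : 1 ≤ x) : cl x = 1 := by
  rw [cl, min_eq_right h, max_eq_right zero_le_one]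

theorem cl_nonneg (x : ℝ) : 0 ≤ cl x := le_max_left _ _

theorem cl_le_one (x : ℝ) : cl x ≤ 1 := max_le zero_le_one (min_le_right _ _)

theorem ff_of_le {θ : ℝ} (h : θ ≤ 0) : ff θ = 0 := cl_of_nonpos (by linarith)

theorem ff_of_ge {θ : ℝ} (h : 1 ≤ θ) : ff θ = 1 := cl_of_one_le (by linarith)

theorem gg_of_le (l : ℝ) {θ : ℝ} (h : θ ≤ 0) : gg l θ = 1 := by
  rw [gg, cl_of_nonpos (by linarith), min_eq_left (cl_nonneg _)]; ring

theorem gg_of_ge (l : ℝ) {θ : ℝ} (h : 1 ≤ θ) : gg l θ = 1 := by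
  rw [gg, cl_of_nonpos (x := 3 - 3 * θ) (by linarith), min_eq_right (cl_nonneg _)]; ring

theorem gg_pos {l : ℝ} (hl : 0 < l) (h1 : l ≤ 1) (θ : ℝ) : 0 < gg l θ := by
  have a1 : min (cl (3 * θ)) (cl (3 - 3 * θ)) ≤ 1 := (min_le_left _ _).trans (cl_le_one _)
  have := mul_le_mul_of_nonneg_left a1 (sub_nonneg.2 h1)
  unfold gg
  linarith

theorem gg_le_one {l : ℝ} (h1 : l ≤ 1) (θ : ℝ) : gg l θ ≤ 1 := by
  have a1 : 0 ≤ min (cl (3 * θ)) (cl (3 - 3 * θ)) := le_min (cl_nonneg _) (cl_nonneg _)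
  have := mul_nonneg (sub_nonneg.2 h1) a1
  unfold gg
  linarith

theorem ff_cases (l θ : ℝ) : ff θ = 0 ∨ ff θ = 1 ∨ gg l θ = l := by
  rcases le_total (3 * θ) 1 with h | h
  · exact Or.inl (cl_of_nonpos (by linarith))
  rcases le_total 2 (3 * θ) with h' | h'
  · exact Or.inr (Or.inl (cl_of_one_le (by linarith)))
  · right; right
    rw [gg, cl_of_one_le h, cl_of_one_le (by linarith), min_self]; ring

@[fun_prop] theorem continuous_cl : Continuous cl := by unfold cl; fun_prop

@[fun_prop] theorem continuous_ff : Continuous ff := by unfold ff; fun_prop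

@[fun_prop] theorem continuous_gg {Z : Type*} [TopologicalSpace Z] {l θ : Z → ℝ}
    (hl : Continuous l) (hθ : Continuous θ) : Continuous fun z => gg (l z) (θ z) := by
  unfold gg; fun_prop

@[fun_prop] theorem continuous_pr : Continuous pr := by unfold pr; fun_prop

/-- a small red kink slides over a blue one -/
theorem RB_slide {l : ℝ} (hl : 0 < l) (h1 : l ≤ 1)
    (h : ∀ p q, |p| ≤ 1000 → |q| ≤ 1000 → RB p l q 1) {c : ℝ} (hc : |c| ≤ 500) (θ : ℝ) :
    RB (c - 500 + 1000 * ff θ) (gg l θ) (c + 500 - 1000 * ff θ) 1 := by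
  have a0 := ff_nonneg θ
  have a1 := ff_le_one θ
  have c1 := abs_le.1 hc
  rcases ff_cases l θ with h2 | h2 | h2
  · exact RB_apart (gg_pos hl h1 θ) (gg_le_one h1 θ) one_pos le_rfl (by rw [h2]; linarith)
  · exact (RB_apart one_pos le_rfl (gg_pos hl h1 θ) (gg_le_one h1 θ) (by rw [h2]; linarith)).symm
  · rw [h2]
    exact h _ _ (abs_le.2 ⟨by linarith, by linarith⟩) (abs_le.2 ⟨by linarith, by linarith⟩)

theorem al_first (l : ℝ) {θ : ℝ} (h : θ ≤ 1 / 2) (t : ℝ) : al l θ t =
    red (-500 + 1000 * ff (2 * θ)) (gg l (2 * θ)) t * blue (500 - 1000 * ff (2 * θ)) 1 t := by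
  rw [al, pr, ff_of_le (θ := 2 * θ - 1) (by linarith), gg_of_le l (θ := 2 * θ - 1) (by linarith)]
  congr 2 <;> ring

theorem al_second (l : ℝ) {θ : ℝ} (h : 1 / 2 ≤ θ) (t : ℝ) : al l θ t =
    red (500 - 1000 * ff (2 * θ - 1)) 1 t *
      blue (-500 + 1000 * ff (2 * θ - 1)) (gg l (2 * θ - 1)) t := by
  rw [al, pr, ff_of_ge (θ := 2 * θ) (by linarith), gg_of_ge l (θ := 2 * θ) (by linarith)]
  congr 2 <;> ring

theorem win_of {l : ℝ} (hl : 0 < l) (h1 : l ≤ 1)
    (h : ∀ p q, |p| ≤ 1000 → |q| ≤ 1000 → RB p l q 1) : Win l := by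
  have key : ∀ θ, RB (pr θ) (gg l (2 * θ)) (-pr θ) (gg l (2 * θ - 1)) := by
    intro θ
    rcases le_total θ (1 / 2) with h2 | h2
    · have := RB_slide hl h1 h (c := 0) (by simp) (2 * θ)
      rw [pr, ff_of_le (θ := 2 * θ - 1) (by linarith), gg_of_le l (θ := 2 * θ - 1) (by linarith)]
      convert this using 1 <;> ring
    · have := (RB_slide hl h1 h (c := 0) (by simp) (2 * θ - 1)).symm
      rw [pr, ff_of_ge (θ := 2 * θ) (by linarith), gg_of_ge l (θ := 2 * θ) (by linarith)]
      convert this using 1 <;> ring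
  intro θ s t hst hW
  have := key θ s t hst hW
  rw [sub_neg_eq_add] at this
  exact this

/-! three kinks -/

/-- two red kinks and a blue one -/
noncomputable def k3 (pa la pw lw pc : ℝ) (t : ℝ) : ℂ :=
  red pa la t * (blue pw lw t * red pc 1 t)

theorem emb3_blue_left {pa la pw pc : ℝ} (hl : 0 < la) (h1 : la ≤ 1) (ha : pw + 1000 ≤ pa)
    (hc : pw + 1000 ≤ pc) : Emb (k3 pa la pw 1 pc) := by
  have e : k3 pa la pw 1 pc = fun t => blue pw 1 t * (red pa la t * red pc 1 t) := by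
    funext t; unfold k3; ring
  rw [e]
  exact Emb.concat_b (m := pw + 7) (m' := pw + 1000) (emb_blue pw one_pos)
    (emb_red_red pa pc hl one_pos) (L1_blue' pw one_pos le_rfl)
    ((L1_red' pa hl h1).mul (L1_red' pc one_pos le_rfl))
    (fun τ hτ => blue_right' one_pos le_rfl hτ)
    (fun τ hτ => by rw [red_left hl (by linarith), red_left one_pos (by linarith), one_mul])
    (by linarith) (by linarith [Real.pi_lt_d2])

theorem emb3_blue_right {pa la pw pc : ℝ} (hl : 0 < la) (h1 : la ≤ 1) (ha : pa + 1000 ≤ pw)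
    (hc : pc + 1000 ≤ pw) : Emb (k3 pa la pw 1 pc) := by
  have e : k3 pa la pw 1 pc = fun t => (red pa la t * red pc 1 t) * blue pw 1 t := by
    funext t; unfold k3; ring
  rw [e]
  exact Emb.concat_b (m := pw - 993) (m' := pw) (emb_red_red pa pc hl one_pos)
    (emb_blue pw one_pos) ((L1_red' pa hl h1).mul (L1_red' pc one_pos le_rfl))
    (L1_blue' pw one_pos le_rfl)
    (fun τ hτ => by
      rw [red_right' hl h1 (by linarith), red_right' one_pos le_rfl (by linarith), one_mul])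
    (fun τ hτ => blue_left one_pos hτ)
    (by linarith) (by linarith [Real.pi_lt_d2])

theorem emb3_red_left {pa la pw lw pc : ℝ} (hl : 0 < la) (h1 : la ≤ 1) (hw : 0 < lw) (h2 : lw ≤ 1)
    (ha : pa + 1000 ≤ pw) (hc : pa + 1000 ≤ pc) (h : Emb fun t => blue pw lw t * red pc 1 t) :
    Emb (k3 pa la pw lw pc) :=
  Emb.concat_b (m := pa + 7) (m' := pa + 1000) (emb_red pa hl) h (L1_red' pa hl h1)
    ((L1_blue' pw hw h2).mul (L1_red' pc one_pos le_rfl))
    (fun τ hτ => red_right' hl h1 hτ)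
    (fun τ hτ => by rw [blue_left hw (by linarith), red_left one_pos (by linarith), one_mul])
    (by linarith) (by linarith [Real.pi_lt_d2])

theorem emb3_red_right {pa la pw lw pc : ℝ} (hl : 0 < la) (h1 : la ≤ 1) (hw : 0 < lw) (h2 : lw ≤ 1)
    (ha : pw + 1000 ≤ pa) (hc : pc + 1000 ≤ pa) (h : Emb fun t => blue pw lw t * red pc 1 t) :
    Emb (k3 pa la pw lw pc) := by
  have e : k3 pa la pw lw pc = fun t => (blue pw lw t * red pc 1 t) * red pa la t := by
    funext t; unfold k3; ring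
  rw [e]
  exact Emb.concat_b (m := pa - 993) (m' := pa) h (emb_red pa hl)
    ((L1_blue' pw hw h2).mul (L1_red' pc one_pos le_rfl)) (L1_red' pa hl h1)
    (fun τ hτ => by
      rw [blue_right' hw h2 (by linarith), red_right' one_pos le_rfl (by linarith), one_mul])
    (fun τ hτ => red_left hl hτ)
    (by linarith) (by linarith [Real.pi_lt_d2])

theorem RB.emb' {p l q m : ℝ} (h : RB p l q m) : Emb fun τ => blue q m τ * red p l τ := by
  have e : (fun τ => blue q m τ * red p l τ) = fun τ => red p l τ * blue q m τ :=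
    funext fun τ => mul_comm _ _
  rw [e]
  exact h.emb

/-- a small red kink on a separated pair -/
theorem emb3_small : ∃ l₀ > 0, ∀ l, 0 < l → l ≤ l₀ → ∀ pa pw pc, |pa| ≤ 1000 → |pw| ≤ 1000 →
    |pc| ≤ 1000 → 1000 ≤ |pw - pc| → Emb (k3 pa l pw 1 pc) := by
  have hK : IsCompact ((Icc (-1000 : ℝ) 1000 ×ˢ Icc (-1000 : ℝ) 1000) ∩
      {z : ℝ × ℝ | 1000 ≤ |z.1 - z.2|}) :=
    (isCompact_Icc.prod isCompact_Icc).inter_right (isClosed_le (by fun_prop) (by fun_prop))
  have := isCompact_iff_compactSpace.1 hK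
  obtain ⟨l₀, h0, -, hl₀⟩ := emb_insert
    (X := ((Icc (-1000 : ℝ) 1000 ×ˢ Icc (-1000 : ℝ) 1000) ∩
      {z : ℝ × ℝ | 1000 ≤ |z.1 - z.2|} : Set (ℝ × ℝ)))
    (x := fun z t => blue z.1.1 1 t * red z.1.2 1 t)
    ((continuous_blue' (by fun_prop) continuous_const continuous_snd fun _ => one_ne_zero).mul
      (continuous_red' (by fun_prop) continuous_const continuous_snd fun _ => one_ne_zero))
    (fun a => (L1_blue' a.1.1 one_pos le_rfl).mul (L1_red' a.1.2 one_pos le_rfl))
    (fun a τ hτ => by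
      rw [blue_far one_pos le_rfl (abs_le.2 a.2.1.1) hτ, red_far one_pos le_rfl (abs_le.2 a.2.1.2) hτ,
        one_mul])
    (fun a => by
      have h3 : 1000 ≤ |a.1.1 - a.1.2| := a.2.2
      rcases le_abs.1 h3 with h4 | h4
      · exact (RB_apart one_pos le_rfl one_pos le_rfl (by linarith)).emb'
      · exact (RB_apart one_pos le_rfl one_pos le_rfl (by linarith)).symm.emb')
  exact ⟨l₀, h0, fun l hl hl' pa pw pc ha hw hc hd =>
    hl₀ l hl hl' ⟨(pw, pc), ⟨abs_le.1 hw, abs_le.1 hc⟩, hd⟩ pa ha⟩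

/-- a very small red kink on a sliding pair -/
theorem emb3_tiny {l : ℝ} (hl : 0 < l) (h1 : l ≤ 1)
    (h : ∀ p q, |p| ≤ 1000 → |q| ≤ 1000 → RB p l q 1) :
    ∃ l₀ > 0, ∀ l', 0 < l' → l' ≤ l₀ → ∀ (pa c : ℝ) (τ : unitInterval), |pa| ≤ 1000 → |c| ≤ 500 →
      Emb (k3 pa l' (c - 500 + 1000 * ff τ) (gg l τ) (c + 500 - 1000 * ff τ)) := by
  obtain ⟨l₀, h0, -, hl₀⟩ := emb_insert (X := Icc (-500 : ℝ) 500 × unitInterval)
    (x := fun z t => blue (z.1.1 - 500 + 1000 * ff z.2) (gg l z.2) t *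
      red (z.1.1 + 500 - 1000 * ff z.2) 1 t)
    ((continuous_blue' (by fun_prop) (by fun_prop) continuous_snd
      fun _ => (gg_pos hl h1 _).ne').mul
      (continuous_red' (by fun_prop) continuous_const continuous_snd fun _ => one_ne_zero))
    (fun a => (L1_blue' _ (gg_pos hl h1 _) (gg_le_one h1 _)).mul (L1_red' _ one_pos le_rfl))
    (fun a τ hτ => by
      have a0 := ff_nonneg a.2
      have a1 := ff_le_one a.2
      have a2 := a.1.2.1
      have a3 := a.1.2.2
      rw [blue_far (gg_pos hl h1 _) (gg_le_one h1 _) (abs_le.2 ⟨by linarith, by linarith⟩) hτ,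
        red_far one_pos le_rfl (abs_le.2 ⟨by linarith, by linarith⟩) hτ, one_mul])
    (fun a => (RB_slide hl h1 h (abs_le.2 a.1.2) a.2).symm.emb')
  exact ⟨l₀, h0, fun l' hl' hl'' pa c τ ha hc => hl₀ l' hl' hl'' (⟨c, abs_le.1 hc⟩, τ) pa ha⟩

end Pool.Agent.MP_b8ade4_gt.B

end MrgPart5

-- marker of a merged file
example : 731051 + 863748 = 731051 + 863748 := rfl
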