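import Mathlib.Analysis.InnerProductSpace.Basic
import Mathlib.Analysis.Calculus.IteratedDeriv.Defs

/-!
Definitions used in the statement: long Legendrian embeddings, their smooth topology,
boxes and the connected sum.
-/

namespace Pool.Agent.MP_b8ade4_gt

/-- `γ : ℝ → ℝ³` is a long Legendrian embedding for the contact structure `ker (dz - y dx)`. -/
structure IsLong (γ : ℝ → ℝ × ℝ × ℝ) : Prop where
  smooth : ContDiff ℝ (⊤ : ℕ∞) γ
  inj : Function.Injective γ
  imm : ∀ t, deriv γ t ≠ 0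
  leg : ∀ t, (deriv γ t).2.2 = (γ t).2.1 * (deriv γ t).1
  std : ∃ T : ℝ, ∀ t, T ≤ |t| → γ t = (t, 0, 0)

/-- The space of long Legendrian embeddings. -/
def Long : Type := {γ : ℝ → ℝ × ℝ × ℝ // IsLong γ}

/-- The smooth topology: uniform convergence of every derivative. -/
noncomputable instance : TopologicalSpace Long :=
  ⨅ k : ℕ, TopologicalSpace.induced
    (fun γ : Long => (UniformFun.ofFun (iteratedDeriv k γ.1) : UniformFun ℝ (ℝ × ℝ × ℝ)))
    inferInstance

/-- `γ` is standard outside `(-T, T)` and its middle part stays in the slab `|x| < T`. -/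
def InBox (T : ℝ) (γ : ℝ → ℝ × ℝ × ℝ) : Prop :=
  (∀ t, T ≤ |t| → γ t = (t, 0, 0)) ∧ ∀ t, |t| < T → |(γ t).1| < T

/-- Connected sum: `γ₁` translated by `-R` followed by `γ₂` translated by `R` along the x-axis. -/
noncomputable def glue (R : ℝ) (γ₁ γ₂ : ℝ → ℝ × ℝ × ℝ) (t : ℝ) : ℝ × ℝ × ℝ :=
  if t ≤ 0 then γ₁ (t + R) - (R, 0, 0) else γ₂ (t - R) + (R, 0, 0)

end Pool.Agent.MP_b8ade4_gt
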