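import Mathlib.Tactic.Monotonicity.Lemmas
import Mathlib.Topology.Homotopy.Path
import Mathlib.Combinatorics.SimpleGraph.Basic
import Pool.Agent.MP_b8ade4_gt.BEmb
import Pool.Agent.Lib.helper79.Brouwer

-- ======== part 0: formerly Pool.Agent.MP_b8ade4_gt.Prof
section MrgPart0

/-! Elementary facts on the profiles of the loop. -/

namespace Pool.Agent.MP_b8ade4_gt

open Complex Real Set

lemma cl_nonneg (x : ℝ) : 0 ≤ cl x := le_max_left _ _
lemma cl_le_one (x : ℝ) : cl x ≤ 1 := max_le zero_le_one (min_le_right _ _)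
lemma cl_zero {x : ℝ} (h : x ≤ 0) : cl x = 0 := max_eq_left (min_le_of_left_le h)
lemma cl_one {x : ℝ} (h : 1 ≤ x) : cl x = 1 := by rw [cl, min_eq_right h, max_eq_right zero_le_one]
@[fun_prop] lemma continuous_cl : Continuous cl := by unfold cl; fun_prop
@[fun_prop] lemma continuous_ff : Continuous ff := by unfold ff; fun_prop
@[fun_prop] lemma continuous_gg (l : ℝ) : Continuous (gg l) := by unfold gg; fun_prop
@[fun_prop] lemma continuous_pr : Continuous pr := by unfold pr; fun_prop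

lemma ff_nonneg (x : ℝ) : 0 ≤ ff x := cl_nonneg _
lemma ff_le_one (x : ℝ) : ff x ≤ 1 := cl_le_one _
lemma ff_zero {x : ℝ} (h : x ≤ 1 / 3) : ff x = 0 := cl_zero (by linarith)
lemma ff_one {x : ℝ} (h : 2 / 3 ≤ x) : ff x = 1 := cl_one (by linarith)
lemma gg_left (l : ℝ) {x : ℝ} (h : x ≤ 0) : gg l x = 1 := by
  rw [gg, cl_zero (x := 3 * x) (by linarith), min_eq_left (cl_nonneg _)]; ring
lemma gg_right (l : ℝ) {x : ℝ} (h : 1 ≤ x) : gg l x = 1 := by
  rw [gg, cl_zero (x := 3 - 3 * x) (by linarith), min_eq_right (cl_nonneg _)]; ring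
lemma gg_mid (l : ℝ) {x : ℝ} (h : 1 / 3 ≤ x) (h' : x ≤ 2 / 3) : gg l x = l := by
  rw [gg, cl_one (by linarith), cl_one (by linarith), min_self]; ring
lemma gg_le_one {l : ℝ} (hl : l ≤ 1) (x : ℝ) : gg l x ≤ 1 := by
  have : 0 ≤ min (cl (3 * x)) (cl (3 - 3 * x)) := le_min (cl_nonneg _) (cl_nonneg _)
  unfold gg; nlinarith
lemma le_gg {l : ℝ} (hl : l ≤ 1) (x : ℝ) : l ≤ gg l x := by
  have : min (cl (3 * x)) (cl (3 - 3 * x)) ≤ 1 := min_le_of_left_le (cl_le_one _)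
  unfold gg; nlinarith
lemma gg_pos {l : ℝ} (h0 : 0 < l) (hl : l ≤ 1) (x : ℝ) : 0 < gg l x := h0.trans_le (le_gg hl x)

/-- the three stages of a slide -/
lemma stages (l x : ℝ) : ff x = 0 ∨ ff x = 1 ∨ gg l x = l := by
  rcases le_total x (1 / 3) with h | h
  · exact Or.inl (ff_zero h)
  · rcases le_total x (2 / 3) with h' | h'
    · exact Or.inr (Or.inr (gg_mid l h h'))
    · exact Or.inr (Or.inl (ff_one h'))

lemma pr_first {θ : ℝ} (h : θ ≤ 1 / 2) : pr θ = 1000 * ff (2 * θ) - 500 := by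
  rw [pr, ff_zero (x := 2 * θ - 1) (by linarith)]; ring
lemma pr_second {θ : ℝ} (h : 1 / 2 ≤ θ) : pr θ = 500 - 1000 * ff (2 * θ - 1) := by
  rw [pr, ff_one (x := 2 * θ) (by linarith)]; ring
lemma pr_zero : pr 0 = -500 := by rw [pr_first (by norm_num), ff_zero (by norm_num)]; norm_num
lemma pr_one : pr 1 = -500 := by rw [pr_second (by norm_num), ff_one (by norm_num)]; norm_num
lemma pr_half : pr (1 / 2) = 500 := by
  rw [pr_first le_rfl, ff_one (by norm_num)]; norm_num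
lemma abs_pr (θ : ℝ) : |pr θ| ≤ 500 := by
  rcases le_total θ (1 / 2) with h | h
  · rw [pr_first h, abs_le]; constructor <;> linarith [ff_nonneg (2 * θ), ff_le_one (2 * θ)]
  · rw [pr_second h, abs_le]
    constructor <;> linarith [ff_nonneg (2 * θ - 1), ff_le_one (2 * θ - 1)]

lemma al_zero (l t : ℝ) : al l 0 t = red (-500) 1 t * blue 500 1 t := by
  rw [al, pr_zero, gg_left l (by norm_num), gg_left l (by norm_num), neg_neg]
lemma al_one (l t : ℝ) : al l 1 t = red (-500) 1 t * blue 500 1 t := by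
  rw [al, pr_one, gg_right l (by norm_num), gg_right l (by norm_num), neg_neg]

lemma cont_red {X : Type*} [TopologicalSpace X] {p l t : X → ℝ} (hp : Continuous p)
    (hl : Continuous l) (ht : Continuous t) (h0 : ∀ x, l x ≠ 0) :
    Continuous fun x => red (p x) (l x) (t x) := by
  have : Continuous fun x => (t x - p x) / l x := (ht.sub hp).div hl h0
  unfold red; fun_prop

lemma cont_blue {X : Type*} [TopologicalSpace X] {p l t : X → ℝ} (hp : Continuous p)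
    (hl : Continuous l) (ht : Continuous t) (h0 : ∀ x, l x ≠ 0) :
    Continuous fun x => blue (p x) (l x) (t x) :=
  Complex.continuous_conj.comp (cont_red hp hl ht h0)

lemma red_ne (p l t : ℝ) : red p l t ≠ 0 := Complex.exp_ne_zero _
lemma blue_ne (p l t : ℝ) : blue p l t ≠ 0 := by simpa [blue] using red_ne p l t
lemma blue_left {p l t : ℝ} (hl : 0 < l) (h : t ≤ p) : blue p l t = 1 := by
  rw [blue, red_left hl h, map_one]
lemma blue_right {p l t : ℝ} (hl : 0 < l) (h : p + 2 * π * l ≤ t) : blue p l t = 1 := by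
  rw [blue, red_right hl h, map_one]
lemma L1_blue (p : ℝ) {l : ℝ} (hl : 0 < l) : L1 (blue p l) (4 * π * l) := (L1_red p hl).conj
lemma conj_blue (p l t : ℝ) : (starRingEnd ℂ) (blue p l t) = red p l t := by simp [blue]
lemma conj_red (p l t : ℝ) : (starRingEnd ℂ) (red p l t) = blue p l t := rfl
lemma red_shift (p l t c : ℝ) : red p l (t + c) = red (p - c) l t := by
  unfold red; rw [show t + c - p = t - (p - c) by ring]
lemma blue_shift (p l t c : ℝ) : blue p l (t + c) = blue (p - c) l t := by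
  unfold blue; rw [red_shift]

lemma L1.mono {u : ℝ → ℂ} {B C : ℝ} (h : L1 u B) (hBC : B ≤ C) : L1 u C :=
  ⟨h.1, h.2.1, fun s t hst => (h.2.2 s t hst).trans hBC⟩

lemma L1_red' (p : ℝ) {l : ℝ} (hl : 0 < l) (h1 : l ≤ 1) : L1 (red p l) (4 * π) :=
  (L1_red p hl).mono (by nlinarith [pi_pos])
lemma L1_blue' (p : ℝ) {l : ℝ} (hl : 0 < l) (h1 : l ≤ 1) : L1 (blue p l) (4 * π) :=
  (L1_red' p hl h1).conj

lemma blue_eq (p l t : ℝ) : blue p l t =
    Complex.exp (((max 0 (min ((t - p) / l) (2 * π)) : ℝ) : ℂ) * Complex.I) := by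
  rw [blue, red, ← Complex.exp_conj]
  simp [mul_comm]

lemma blue_im_nonneg {p t : ℝ} (h : t ≤ p + π) : 0 ≤ (blue p 1 t).im := by
  rw [blue_eq, exp_ofReal_mul_I_im]
  exact Real.sin_nonneg_of_nonneg_of_le_pi (le_max_left _ _)
    (max_le pi_pos.le (min_le_of_left_le (by linarith)))

lemma blue_im_nonpos {p t : ℝ} (h : p + π ≤ t) : (blue p 1 t).im ≤ 0 := by
  rw [blue_eq, exp_ofReal_mul_I_im, ← Real.sin_sub_two_pi]
  refine Real.sin_nonpos_of_nonpos_of_neg_pi_le ?_ ?_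
  · have : max 0 (min ((t - p) / 1) (2 * π)) ≤ 2 * π :=
      max_le (by positivity) (min_le_right _ _)
    linarith
  · have : π ≤ max 0 (min ((t - p) / 1) (2 * π)) :=
      le_max_of_le_right (le_min (by linarith) (by linarith [pi_pos]))
    linarith

lemma blue_mid (p : ℝ) : (blue p 1 (p + π)).re = -1 := by
  rw [blue_eq, exp_ofReal_mul_I_re, show (p + π - p) / 1 = π by ring,
    min_eq_left (by linarith [pi_pos]), max_eq_right pi_pos.le, Real.cos_pi]

end Pool.Agent.MP_b8ade4_gt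

end MrgPart0

-- ======== part 1: formerly Pool.Agent.MP_b8ade4_gt.Ess
section MrgPart1

/-! Essential maps on the boundary of the four-dimensional cube. -/

namespace Pool.Agent.MP_b8ade4_gt

open Set Complex

abbrev E4 := (ℝ × ℝ) × (ℝ × ℝ)

/-- every continuous extension of the boundary values of `F` has a zero -/
def Ess (F : E4 → ℂ × ℂ) : Prop :=
  ∀ G : E4 → ℂ × ℂ, Continuous G → (∀ x, ‖x‖ = 1 → G x = F x) → ∃ x, ‖x‖ ≤ 1 ∧ G x = 0

noncomputable def lin (v : ℝ × ℝ) : ℂ := (v.2 : ℂ) - I * (v.1 : ℂ)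

@[fun_prop] lemma continuous_lin : Continuous lin := by unfold lin; fun_prop

@[simp] lemma lin_re (v : ℝ × ℝ) : (lin v).re = v.2 := by simp [lin]
@[simp] lemma lin_im (v : ℝ × ℝ) : (lin v).im = -v.1 := by simp [lin]

lemma ess_base : Ess fun x => (lin x.1, -I * lin x.2) := by
  intro G hG hb
  let o : (Fin 4 → ℝ) → E4 := fun z => ((z 0, z 1), (z 2, z 3))
  let r : ℂ × ℂ → Fin 4 → ℝ := fun w => ![-w.1.im, w.1.re, -w.2.re, -w.2.im]
  have ho : Continuous o := by fun_prop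
  have hr : Continuous r := by
    refine continuous_pi fun i => ?_
    fin_cases i <;> simp [r] <;> fun_prop
  have hno : ∀ z, ‖o z‖ = ‖z‖ := by
    intro z
    apply le_antisymm
    · simp only [o, Prod.norm_def, max_le_iff]
      exact ⟨⟨norm_le_pi_norm z 0, norm_le_pi_norm z 1⟩, norm_le_pi_norm z 2, norm_le_pi_norm z 3⟩
    · refine (pi_norm_le_iff_of_nonneg (norm_nonneg _)).2 fun i => ?_
      fin_cases i <;> simp [o, Prod.norm_def]
  open Pool.Agent.Lib.helper79 in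
  obtain ⟨z, hz, hf⟩ := brouwer_cube (n := 4) (f := fun z => clamp (z - r (G (o z))))
    (clamp_cont.comp (continuous_id.sub (hr.comp (hG.comp ho)))).continuousOn
    (fun z _ => mem_closedBall_zero_iff.2 (norm_clamp_le _))
  have hz1 := mem_closedBall_zero_iff.1 hz
  rcases hz1.eq_or_lt with h1 | h1
  · exfalso
    have h2 : r (G (o z)) = z := by
      rw [hb _ (by rw [hno, h1])]
      ext i
      fin_cases i <;> simp [r, o]
    rw [h2, sub_self, Pool.Agent.Lib.helper79.clamp_eq (by simp)] at hf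
    rw [← hf] at h1; simp at h1
  · refine ⟨o z, by rw [hno]; exact hz1, ?_⟩
    have h3 : ∀ i, r (G (o z)) i = 0 := by
      intro i
      have h4 := congrFun hf i
      have h5 := abs_lt.1 ((norm_le_pi_norm z i).trans_lt h1)
      simp only [Pool.Agent.Lib.helper79.clamp, Pi.sub_apply] at h4
      rcases le_total 1 (z i - r (G (o z)) i) with h6 | h6
      · rw [min_eq_left h6, max_eq_right (by norm_num)] at h4; linarith
      · rw [min_eq_right h6] at h4
        rcases le_total (-1) (z i - r (G (o z)) i) with h7 | h7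
        · rw [max_eq_right h7] at h4; linarith
        · rw [max_eq_left h7] at h4; linarith
    have a0 := h3 0; have a1 := h3 1; have a2 := h3 2; have a3 := h3 3
    simp [r] at a0 a1 a2 a3
    ext <;> simp [Complex.ext_iff, *]

lemma Ess.of_homotopy {F F' : E4 → ℂ × ℂ} (H : ℝ × E4 → ℂ × ℂ) (hH : Continuous H)
    (h0 : ∀ x, ‖x‖ = 1 → H (0, x) = F x) (h1 : ∀ x, ‖x‖ = 1 → H (1, x) = F' x)
    (hne : ∀ τ ∈ Icc (0 : ℝ) 1, ∀ x, ‖x‖ = 1 → H (τ, x) ≠ 0) (hF : Ess F') : Ess F := by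
  intro G hG hb
  let n : E4 → E4 := fun x => (max ‖x‖ (1 / 2))⁻¹ • x
  have hn : Continuous n := by
    have h : Continuous fun x : E4 => max ‖x‖ (1 / 2) := by fun_prop
    refine Continuous.smul (h.inv₀ fun x => ?_) continuous_id
    exact (lt_max_of_lt_right (by norm_num)).ne'
  have hn1 : ∀ x, 1 / 2 ≤ ‖x‖ → ‖n x‖ = 1 := by
    intro x hx
    have : 0 < ‖x‖ := by linarith
    simp only [n, max_eq_left hx, norm_smul, norm_inv, norm_norm]
    field_simp
  let G' : E4 → ℂ × ℂ := fun x =>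
    if ‖x‖ ≤ 1 / 2 then G ((2 : ℝ) • x) else H (2 * ‖x‖ - 1, n x)
  have hG' : Continuous G' := by
    refine Continuous.if_le (by fun_prop) (by fun_prop) (by fun_prop) (by fun_prop) ?_
    intro x hx
    have h2 : n x = (2 : ℝ) • x := by simp only [n, hx, max_self]; norm_num
    have h3 : ‖(2 : ℝ) • x‖ = 1 := by rw [← h2]; exact hn1 x hx.ge
    rw [hb _ h3, hx, h2, show (2 : ℝ) * (1 / 2) - 1 = 0 by norm_num, h0 _ h3]
  obtain ⟨x, hx, hx0⟩ := hF G' hG' (by
    intro x hx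
    have h2 : n x = x := by simp only [n, hx]; norm_num
    simp only [G', hx, h2]
    rw [if_neg (by norm_num), show (2 : ℝ) * 1 - 1 = 1 by norm_num, h1 _ hx])
  by_cases h : ‖x‖ ≤ 1 / 2
  · refine ⟨(2 : ℝ) • x, by rw [norm_smul]; simp; linarith, ?_⟩
    simpa only [G', if_pos h] using hx0
  · exfalso
    simp only [G', if_neg h] at hx0
    push Not at h
    exact hne _ ⟨by linarith, by linarith⟩ _ (hn1 x h.le) hx0

/-- homotopic through functions without zeros on `U` -/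
def Hm {X : Type*} [TopologicalSpace X] (U : Set X) (f g : X → ℂ) : Prop :=
  ∃ h : ℝ × X → ℂ, Continuous h ∧ (∀ x ∈ U, h (0, x) = f x) ∧ (∀ x ∈ U, h (1, x) = g x) ∧
    ∀ τ ∈ Icc (0 : ℝ) 1, ∀ x ∈ U, h (τ, x) ≠ 0

section
variable {X Y : Type*} [TopologicalSpace X] [TopologicalSpace Y] {U : Set X} {f g k : X → ℂ}

lemma Hm.refl (hf : Continuous f) (h : ∀ x ∈ U, f x ≠ 0) : Hm U f f :=
  ⟨fun q => f q.2, by fun_prop, fun _ _ => rfl, fun _ _ => rfl, fun _ _ x hx => h x hx⟩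

lemma Hm.trans (h₁ : Hm U f g) (h₂ : Hm U g k) : Hm U f k := by
  obtain ⟨a, ha, a0, a1, an⟩ := h₁
  obtain ⟨b, hb, b0, b1, bn⟩ := h₂
  refine ⟨fun q => a (min (2 * q.1) 1, q.2) + b (max (2 * q.1 - 1) 0, q.2) - a (1, q.2),
    by fun_prop, fun x hx => ?_, fun x hx => ?_, fun τ hτ x hx => ?_⟩
  · norm_num [a0 x hx, b0 x hx, a1 x hx]
  · norm_num [b1 x hx]
  · rcases le_total (2 * τ) 1 with h | h
    · have := an (2 * τ) ⟨by linarith [hτ.1], h⟩ x hx
      simpa [min_eq_left h, max_eq_right (sub_nonpos.2 h), b0 x hx, a1 x hx] using this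
    · have := bn (2 * τ - 1) ⟨by linarith, by linarith [hτ.2]⟩ x hx
      simpa [min_eq_right h, max_eq_left (sub_nonneg.2 h)] using this

lemma Hm.comp {V : Set Y} {κ : Y → X} (h : Hm U f g) (hκ : Continuous κ) (hV : MapsTo κ V U) :
    Hm V (fun y => f (κ y)) (fun y => g (κ y)) := by
  obtain ⟨a, ha, a0, a1, an⟩ := h
  exact ⟨fun q => a (q.1, κ q.2), by fun_prop, fun y hy => a0 _ (hV hy), fun y hy => a1 _ (hV hy),
    fun τ hτ y hy => an τ hτ _ (hV hy)⟩

lemma Hm.mul {f' g' : X → ℂ} (h₁ : Hm U f g) (h₂ : Hm U f' g') :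
    Hm U (fun x => f x * f' x) (fun x => g x * g' x) := by
  obtain ⟨a, ha, a0, a1, an⟩ := h₁
  obtain ⟨b, hb, b0, b1, bn⟩ := h₂
  exact ⟨fun q => a q * b q, by fun_prop, fun x hx => by simp [a0 x hx, b0 x hx],
    fun x hx => by simp [a1 x hx, b1 x hx], fun τ hτ x hx => mul_ne_zero (an τ hτ x hx) (bn τ hτ x hx)⟩

lemma Hm.congr {f' g' : X → ℂ} (h : Hm U f g) (hf : ∀ x ∈ U, f' x = f x)
    (hg : ∀ x ∈ U, g' x = g x) : Hm U f' g' := by
  obtain ⟨a, ha, a0, a1, an⟩ := h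
  exact ⟨a, ha, fun x hx => by rw [a0 x hx, hf x hx], fun x hx => by rw [a1 x hx, hg x hx], an⟩

/-- the straight homotopy -/
lemma Hm.segment (hf : Continuous f) (hg : Continuous g)
    (h : ∀ x ∈ U, ∀ μ ∈ Icc (0 : ℝ) 1, ((1 - μ : ℝ) : ℂ) * f x + (μ : ℂ) * g x ≠ 0) : Hm U f g :=
  ⟨fun q => ((1 - q.1 : ℝ) : ℂ) * f q.2 + (q.1 : ℂ) * g q.2, by fun_prop,
    fun x _ => by simp, fun x _ => by simp, fun τ hτ x hx => h x hx τ hτ⟩

/-- a function without zeros on the unit ball is homotopic to `1` -/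
lemma Hm.unit {V : Type*} [NormedAddCommGroup V] [NormedSpace ℝ V] {f : V → ℂ} (hf : Continuous f)
    (h : ∀ x, ‖x‖ ≤ 1 → f x ≠ 0) {U : Set V} (hU : ∀ x ∈ U, ‖x‖ ≤ 1) :
    Hm U f (fun _ => 1) := by
  have h0 : f 0 ≠ 0 := h 0 (by simp)
  refine ⟨fun q => f ((1 - q.1) • q.2) * Complex.exp (-(q.1 : ℂ) * Complex.log (f 0)), by fun_prop,
    fun x _ => by simp, fun x _ => ?_, fun τ hτ x hx => mul_ne_zero (h _ ?_) (Complex.exp_ne_zero _)⟩
  · simp [Complex.exp_neg, Complex.exp_log h0, h0]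
  · rw [norm_smul, Real.norm_of_nonneg (by linarith [hτ.2])]
    have := hU x hx
    nlinarith [hτ.1, hτ.2, norm_nonneg x]

end

lemma Ess.of_hm {a b a' b' : E4 → ℂ} {Ua Ub : Set E4} (ha : Hm Ua a a') (hb : Hm Ub b b')
    (hU : ∀ x, ‖x‖ = 1 → x ∈ Ua ∨ x ∈ Ub) (hca : Continuous a) (hcb : Continuous b)
    (hca' : Continuous a') (hcb' : Continuous b')
    (h : Ess fun x => (a' x, b' x)) : Ess fun x => (a x, b x) := by
  obtain ⟨p, hp, p0, p1, pn⟩ := ha
  obtain ⟨q, hq, q0, q1, qn⟩ := hb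
  refine Ess.of_homotopy (fun y =>
    (p y + ((1 - y.1 : ℝ) : ℂ) * (a y.2 - p (0, y.2)) + (y.1 : ℂ) * (a' y.2 - p (1, y.2)),
     q y + ((1 - y.1 : ℝ) : ℂ) * (b y.2 - q (0, y.2)) + (y.1 : ℂ) * (b' y.2 - q (1, y.2))))
    (by fun_prop) (fun x _ => by simp) (fun x _ => by simp) (fun τ hτ x hx h0 => ?_) h
  rcases hU x hx with h1 | h1
  · have := congrArg Prod.fst h0
    simp only [p0 x h1, p1 x h1, sub_self, mul_zero, add_zero, Prod.fst_zero] at this
    exact pn τ hτ x h1 this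
  · have := congrArg Prod.snd h0
    simp only [q0 x h1, q1 x h1, sub_self, mul_zero, add_zero, Prod.snd_zero] at this
    exact qn τ hτ x h1 this

end Pool.Agent.MP_b8ade4_gt

end MrgPart1

-- ======== part 2: formerly Pool.Agent.MP_b8ade4_gt.Link
section MrgPart2

/-! The abstract linking obstruction. -/

namespace Pool.Agent.MP_b8ade4_gt

open Set Complex

/-- sign conditions on the boundary of the square -/
def PM (m : ℝ × ℝ → ℂ) : Prop := Continuous m ∧ ∀ ζ : ℝ × ℝ,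
  (ζ.1 = 1 → (m ζ).im < 0) ∧ (ζ.1 = -1 → 0 < (m ζ).im) ∧
  (ζ.2 = 1 → 0 < (m ζ).re) ∧ (ζ.2 = -1 → (m ζ).re < 0)

noncomputable def ps (k c z : ℝ) : ℝ := max (-1) (min 1 (c + k * (z - c)))

lemma ps_abs (k c z : ℝ) : |ps k c z| ≤ 1 :=
  abs_le.2 ⟨le_max_left _ _, max_le (by norm_num) (min_le_left _ _)⟩

lemma ps_ge {k c z : ℝ} (hk : 1 ≤ k) (hz : |z| ≤ 1) (h : c ≤ z) : z ≤ ps k c z :=
  le_max_of_le_right (le_min (abs_le.1 hz).2 (by nlinarith))

lemma ps_le {k c z : ℝ} (hk : 1 ≤ k) (hz : |z| ≤ 1) (h : z ≤ c) : ps k c z ≤ z :=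
  max_le (abs_le.1 hz).1 (min_le_of_right_le (by nlinarith))

lemma ps_far {k c z : ℝ} (hk : 1 ≤ k) (hz : |z| ≤ 1) : |z - c| ≤ |ps k c z - c| := by
  rcases le_total c z with h | h
  · have := ps_ge hk hz h
    rw [abs_of_nonneg (by linarith), abs_of_nonneg (by linarith)]; linarith
  · have := ps_le hk hz h
    rw [abs_of_nonpos (by linarith), abs_of_nonpos (by linarith)]; linarith

lemma ps_bd {k c z : ℝ} (hk : 1 ≤ k) (hc : |c| < 1) (hz : |z| = 1) : |ps k c z| = 1 := by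
  have h1 := abs_le.1 (ps_abs k c z)
  have h2 := abs_lt.1 hc
  rcases abs_eq (zero_le_one' ℝ) |>.1 hz with h | h
  · have := ps_ge (c := c) hk hz.le (by linarith)
    rw [show ps k c z = 1 by linarith, abs_one]
  · have := ps_le (c := c) hk hz.le (by linarith)
    rw [show ps k c z = -1 by linarith]; simp

lemma ps_big {k c z δ : ℝ} (hk : 2 ≤ k * δ) (hk0 : 0 ≤ k) (hc : |c| < 1) (hz : δ ≤ |z - c|) :
    |ps k c z| = 1 := by
  have h2 := abs_lt.1 hc
  rcases le_abs.1 hz with h | h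
  · have : 1 ≤ c + k * (z - c) := by nlinarith
    simp [ps, min_eq_left this]
  · have : c + k * (z - c) ≤ -1 := by nlinarith
    rw [ps, max_eq_left (min_le_of_right_le this)]; simp

lemma ps_one {k c z : ℝ} (hk : 1 ≤ k) (hc : |c| < 1) (h : ps k c z = 1) : c < z := by
  by_contra hz
  push Not at hz
  have h2 := abs_lt.1 hc
  have : ps k c z ≤ c := max_le h2.1.le (min_le_of_right_le (by nlinarith))
  linarith

lemma ps_neg {k c z : ℝ} (hk : 1 ≤ k) (hc : |c| < 1) (h : ps k c z = -1) : z < c := by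
  by_contra hz
  push Not at hz
  have h2 := abs_lt.1 hc
  have : c ≤ ps k c z := le_max_of_le_right (le_min h2.2.le (by nlinarith))
  linarith

lemma ps_id {c z : ℝ} (hz : |z| ≤ 1) : ps 1 c z = z := by
  have := abs_le.1 hz
  rw [ps, show c + 1 * (z - c) = z by ring, min_eq_right this.2, max_eq_right this.1]

lemma norm2 (ζ : ℝ × ℝ) : ‖ζ‖ = max |ζ.1| |ζ.2| := rfl

lemma norm2_le {ζ : ℝ × ℝ} : ‖ζ‖ ≤ 1 ↔ |ζ.1| ≤ 1 ∧ |ζ.2| ≤ 1 := by rw [norm2, max_le_iff]

lemma norm2_lt {ζ : ℝ × ℝ} : ‖ζ‖ < 1 ↔ |ζ.1| < 1 ∧ |ζ.2| < 1 := by rw [norm2, max_lt_iff]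

lemma norm2_eq {ζ : ℝ × ℝ} : ‖ζ‖ = 1 ↔ (|ζ.1| ≤ 1 ∧ |ζ.2| ≤ 1) ∧ (|ζ.1| = 1 ∨ |ζ.2| = 1) := by
  rw [norm2]
  constructor
  · intro h
    refine ⟨max_le_iff.1 h.le, ?_⟩
    rcases max_choice |ζ.1| |ζ.2| with q | q
    · left; rw [← q, h]
    · right; rw [← q, h]
  · rintro ⟨⟨a, b⟩, c | c⟩
    · rw [c, max_eq_left b]
    · rw [c, max_eq_right a]

/-- the part of the boundary outside the moving window -/
def Out (β : ℝ × ℝ → ℝ × ℝ) (δ₁ δ₂ : ℝ) : Set E4 :=
  {x | ‖x.1‖ ≤ 1 ∧ ‖x.2‖ ≤ 1 ∧ (‖x.1‖ = 1 ∨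
    (‖x.2‖ = 1 ∧ (δ₁ ≤ |x.1.1 - (β x.2).1| ∨ δ₂ ≤ |x.1.2 - (β x.2).2|)))}

lemma hm_push {a : E4 → ℂ} (ha : Continuous a) {β : ℝ × ℝ → ℝ × ℝ} (hβ : Continuous β)
    (hβ1 : ∀ η, ‖η‖ ≤ 1 → ‖β η‖ < 1) {δ₁ δ₂ : ℝ} (d1 : 0 < δ₁) (d2 : 0 < δ₂)
    (h1 : ∀ ζ η, ‖ζ‖ = 1 → ‖η‖ ≤ 1 → a (ζ, η) ≠ 0)
    (h2 : ∀ ζ η, ‖ζ‖ ≤ 1 → ‖η‖ = 1 → a (ζ, η) = 0 →
      |ζ.1 - (β η).1| < δ₁ ∧ |ζ.2 - (β η).2| < δ₂)
    {η₀ : ℝ × ℝ} (h0 : ‖η₀‖ ≤ 1) {m : ℝ × ℝ → ℂ} (hm : PM m)
    (hA : Hm {ζ : ℝ × ℝ | ‖ζ‖ = 1} (fun ζ => a (ζ, η₀)) m) :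
    Hm (Out β δ₁ δ₂) a (fun x => lin (x.1 - β x.2)) := by
  obtain ⟨R, hR1, hR2, hR3⟩ : ∃ R : ℝ, 1 ≤ R ∧ 2 ≤ R * δ₁ ∧ 2 ≤ R * δ₂ := by
    refine ⟨1 + 2 / δ₁ + 2 / δ₂, ?_, ?_, ?_⟩
    · have : 0 < 2 / δ₁ := by positivity
      have : 0 < 2 / δ₂ := by positivity
      linarith
    · have : 0 < 2 / δ₂ * δ₁ := by positivity
      have : 2 / δ₁ * δ₁ = 2 := by field_simp
      nlinarith
    · have : 0 < 2 / δ₁ * δ₂ := by positivity
      have : 2 / δ₂ * δ₂ = 2 := by field_simp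
      nlinarith
  let P : ℝ → E4 → ℝ × ℝ := fun k x => (ps k (β x.2).1 x.1.1, ps k (β x.2).2 x.1.2)
  have hP : Continuous fun q : ℝ × E4 => P q.1 q.2 := by unfold P ps; fun_prop
  have hPle : ∀ k x, ‖P k x‖ ≤ 1 := fun k x => norm2_le.2 ⟨ps_abs _ _ _, ps_abs _ _ _⟩
  have hPb : ∀ k, 1 ≤ k → ∀ x : E4, ‖x.2‖ ≤ 1 → ‖x.1‖ = 1 → ‖P k x‖ = 1 := by
    intro k hk x hx2 hx1
    have q := norm2_lt.1 (hβ1 _ hx2)
    refine norm2_eq.2 ⟨norm2_le.1 (hPle k x), ?_⟩
    rcases (norm2_eq.1 hx1).2 with h | h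
    · exact Or.inl (ps_bd hk q.1 h)
    · exact Or.inr (ps_bd hk q.2 h)
  have hPR : ∀ x ∈ Out β δ₁ δ₂, ‖P R x‖ = 1 := by
    rintro x ⟨x1, x2, h | ⟨-, h⟩⟩
    · exact hPb R hR1 x x2 h
    · have q := norm2_lt.1 (hβ1 _ x2)
      refine norm2_eq.2 ⟨norm2_le.1 (hPle R x), ?_⟩
      rcases h with h | h
      · exact Or.inl (ps_big hR2 (by linarith) q.1 h)
      · exact Or.inr (ps_big hR3 (by linarith) q.2 h)
  have hPRc : Continuous (P R) := hP.comp (Continuous.prodMk_right R)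
  have s1 : Hm (Out β δ₁ δ₂) a (fun x => a (P R x, x.2)) := by
    refine ⟨fun q => a (P (1 + q.1 * (R - 1)) q.2, q.2.2),
      ha.comp ((hP.comp (f := fun q : ℝ × E4 => (1 + q.1 * (R - 1), q.2)) (by fun_prop)).prodMk
        (by fun_prop)), fun x hx => ?_, fun x _ => by simp, fun τ hτ x hx h => ?_⟩
    · have q := norm2_le.1 hx.1
      simp only [zero_mul, add_zero, P, ps_id q.1, ps_id q.2]
    · have hk : 1 ≤ 1 + τ * (R - 1) := by nlinarith [hτ.1]
      obtain ⟨x1, x2, h3 | ⟨h3, h4⟩⟩ := hx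
      · exact h1 _ _ (hPb _ hk x x2 h3) x2 h
      · have q := norm2_le.1 x1
        have := h2 _ _ (hPle _ x) h3 h
        rcases h4 with h4 | h4
        · linarith [ps_far (c := (β x.2).1) hk q.1, this.1]
        · linarith [ps_far (c := (β x.2).2) hk q.2, this.2]
  have s2 : Hm (Out β δ₁ δ₂) (fun x => a (P R x, x.2)) (fun x => a (P R x, η₀)) := by
    refine ⟨fun q => a (P R q.2, (1 - q.1) • q.2.2 + q.1 • η₀), by fun_prop, fun x _ => by simp,
      fun x _ => by simp, fun τ hτ x hx => h1 _ _ (hPR x hx) ?_⟩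
    refine (norm_add_le _ _).trans ?_
    rw [norm_smul, norm_smul, Real.norm_of_nonneg hτ.1, Real.norm_of_nonneg (by linarith [hτ.2])]
    nlinarith [hτ.1, hτ.2, hx.2.1]
  have s3 := hA.comp (V := Out β δ₁ δ₂) hPRc hPR
  have s4 : Hm (Out β δ₁ δ₂) (fun x => m (P R x)) (fun x => lin (x.1 - β x.2)) := by
    refine Hm.segment (hm.1.comp hPRc) (by fun_prop) fun x hx μ hμ h => ?_
    have q := norm2_lt.1 (hβ1 _ hx.2.1)
    have hre := congrArg Complex.re h
    have him := congrArg Complex.im h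
    simp only [add_re, re_ofReal_mul, lin_re, zero_re, add_im, im_ofReal_mul, lin_im, zero_im,
      Prod.fst_sub, Prod.snd_sub] at hre him
    obtain ⟨m1, m2, m3, m4⟩ := hm.2 (P R x)
    have key : ∀ p q : ℝ, 0 < p → 0 < q → 0 < (1 - μ) * p + μ * q := by
      intro p q hp hq
      rcases hμ.1.eq_or_lt with h0 | h0
      · rw [← h0]; simpa
      · nlinarith [hμ.2, mul_pos h0 hq]
    rcases (norm2_eq.1 (hPR x hx)).2 with h3 | h3 <;>
      rcases (abs_eq (zero_le_one' ℝ)).1 h3 with h4 | h4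
    · have := key _ _ (neg_pos.2 (m1 h4)) (sub_pos.2 (ps_one hR1 q.1 h4)); linarith
    · have := key _ _ (m2 h4) (sub_pos.2 (ps_neg hR1 q.1 h4)); linarith
    · have := key _ _ (m3 h4) (sub_pos.2 (ps_one hR1 q.2 h4)); linarith
    · have := key _ _ (neg_pos.2 (m4 h4)) (sub_pos.2 (ps_neg hR1 q.2 h4)); linarith
  exact ((s1.trans s2).trans s3).trans s4

lemma lin_eq_zero {v : ℝ × ℝ} (h : lin v = 0) : v = 0 := by
  have a := congrArg Complex.re h
  have b := congrArg Complex.im h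
  simp only [lin_re, lin_im, zero_re, zero_im, neg_eq_zero] at a b
  exact Prod.ext b a

theorem link {a b : E4 → ℂ} (ha : Continuous a) (hb : Continuous b)
    (hab : ∀ x, ‖x‖ ≤ 1 → a x ≠ 0 ∨ b x ≠ 0)
    {β ρ : ℝ × ℝ → ℝ × ℝ} (hβ : Continuous β) (hρ : Continuous ρ)
    (hβ1 : ∀ η, ‖η‖ ≤ 1 → ‖β η‖ < 1) {δ₁ δ₂ : ℝ}
    (hsep : ∀ η, ‖η‖ = 1 → 2 * δ₁ ≤ |(β η).1 - (ρ η).1| ∨ 2 * δ₂ ≤ |(β η).2 - (ρ η).2|)
    (d1 : 0 < δ₁) (d2 : 0 < δ₂)
    (hA : Hm (Out β δ₁ δ₂) a (fun x => lin (x.1 - β x.2)))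
    (hB : Hm (Out ρ δ₁ δ₂) b (fun x => lin (x.1 - ρ x.2)))
    (hw : Hm {η : ℝ × ℝ | ‖η‖ = 1} (fun η => lin (β η - ρ η)) (fun η => -I * lin η)) : False := by
  have nE : ∀ x : E4, ‖x‖ = 1 → ‖x.1‖ ≤ 1 ∧ ‖x.2‖ ≤ 1 ∧ (‖x.1‖ = 1 ∨ ‖x.2‖ = 1) := by
    intro x hx
    refine ⟨(norm_fst_le x).trans hx.le, (norm_snd_le x).trans hx.le, ?_⟩
    rw [Prod.norm_def] at hx
    rcases max_choice ‖x.1‖ ‖x.2‖ with q | q
    · left; rw [← q, hx]
    · right; rw [← q, hx]
  have e1 : Ess fun x => (lin (x.1 - β x.2), lin (β x.2 - ρ x.2)) := by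
    refine Ess.of_hm (Ua := {x : E4 | ‖x.1‖ = 1 ∧ ‖x.2‖ ≤ 1}) (Ub := {x : E4 | ‖x.2‖ = 1}) ?_
      (hw.comp continuous_snd fun x hx => hx) (fun x hx => ?_) (by fun_prop) (by fun_prop)
      (by fun_prop) (by fun_prop) ess_base
    · refine ⟨fun q => lin (q.2.1 - (1 - q.1) • β q.2.2), by fun_prop, fun x _ => by simp,
        fun x _ => by simp, fun τ hτ x hx h => ?_⟩
      have h3 := sub_eq_zero.1 (lin_eq_zero h)
      have h4 := hx.1
      simp only at h3
      rw [h3, norm_smul, Real.norm_of_nonneg (by linarith [hτ.2])] at h4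
      nlinarith [hβ1 _ hx.2, hτ.1, norm_nonneg (β x.2)]
    · obtain ⟨x1, x2, h | h⟩ := nE x hx
      · exact Or.inl ⟨h, x2⟩
      · exact Or.inr h
  have e2 : Ess fun x => (lin (x.1 - β x.2), lin (x.1 - ρ x.2)) := by
    refine Ess.of_homotopy (fun q => (lin (q.2.1 - β q.2.2),
      lin (q.2.1 - ρ q.2.2 - q.1 • (q.2.1 - β q.2.2)))) (by fun_prop) (fun x _ => by simp)
      (fun x _ => by simp) (fun τ _ x hx h => ?_) e1
    have h3 := lin_eq_zero (congrArg Prod.fst h)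
    have h4 := lin_eq_zero (congrArg Prod.snd h)
    simp only at h3 h4
    rw [h3, smul_zero, sub_zero] at h4
    obtain ⟨x1, x2, h5 | h5⟩ := nE x hx
    · rw [sub_eq_zero.1 h3] at h5; exact (hβ1 _ x2).ne h5
    · have := hsep _ h5
      rw [← sub_eq_zero.1 h3, ← sub_eq_zero.1 h4] at this
      simp only [sub_self, abs_zero] at this
      rcases this with q | q <;> linarith
  have e3 : Ess fun x => (a x, b x) := by
    refine Ess.of_hm hA hB (fun x hx => ?_) ha hb (by fun_prop) (by fun_prop) e2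
    obtain ⟨x1, x2, h | h⟩ := nE x hx
    · exact Or.inl ⟨x1, x2, Or.inl h⟩
    · by_contra hc
      rw [not_or] at hc
      have c1 : ¬ (δ₁ ≤ |x.1.1 - (β x.2).1| ∨ δ₂ ≤ |x.1.2 - (β x.2).2|) :=
        fun q => hc.1 ⟨x1, x2, Or.inr ⟨h, q⟩⟩
      have c2 : ¬ (δ₁ ≤ |x.1.1 - (ρ x.2).1| ∨ δ₂ ≤ |x.1.2 - (ρ x.2).2|) :=
        fun q => hc.2 ⟨x1, x2, Or.inr ⟨h, q⟩⟩
      push Not at c1 c2
      have q1 := abs_lt.1 c1.1; have q2 := abs_lt.1 c1.2
      have q3 := abs_lt.1 c2.1; have q4 := abs_lt.1 c2.2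
      rcases hsep _ h with q | q <;> rcases le_abs.1 q with q | q <;> linarith
  obtain ⟨x, hx, h0⟩ := e3 (fun x => (a x, b x)) (by fun_prop) (fun _ _ => rfl)
  rcases hab x hx with h | h
  · exact h (congrArg Prod.fst h0)
  · exact h (congrArg Prod.snd h0)

end Pool.Agent.MP_b8ade4_gt

end MrgPart2

-- ======== part 3: formerly Pool.Agent.MP_b8ade4_gt.Secant
section MrgPart3

/-! The secant map and the winding of the Hopf coordinates along the boundary of the rectangle. -/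

namespace Pool.Agent.MP_b8ade4_gt

open Complex Real Set

noncomputable def sec (u : ℝ → ℂ) (s l : ℝ) : ℂ := ∫ y in (0 : ℝ)..1, u (s + l * y)

lemma sec_mul (u : ℝ → ℂ) (s l : ℝ) : (l : ℂ) * sec u s l = W u s (s + l) := by
  have := intervalIntegral.smul_integral_comp_add_mul (a := 0) (b := 1) u l s
  rw [mul_zero, add_zero, mul_one, Complex.real_smul] at this
  exact this

lemma sec_zero (u : ℝ → ℂ) (s : ℝ) : sec u s 0 = u s := by simp [sec]

lemma continuous_sec {X : Type*} [TopologicalSpace X] {u : X → ℝ → ℂ} {s l : X → ℝ}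
    (hu : Continuous fun q : X × ℝ => u q.1 q.2) (hs : Continuous s) (hl : Continuous l) :
    Continuous fun x => sec (u x) (s x) (l x) := by
  unfold sec
  refine intervalIntegral.continuous_parametric_intervalIntegral_of_continuous'
    (f := fun x y => u x (s x + l x * y)) ?_ 0 1
  exact hu.comp (f := fun q : X × ℝ => (q.1, s q.1 + l q.1 * q.2)) (by fun_prop)

lemma sec_pos {u : ℝ → ℂ} (hu : Continuous u) {s l : ℝ} (hl : 0 ≤ l)
    (h : ∀ τ, s ≤ τ → τ ≤ s + l → 0 < (u τ).re) : 0 < (sec u s l).re := by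
  have hc : Continuous fun y : ℝ => u (s + l * y) := by fun_prop
  have := (Complex.reCLM.intervalIntegral_comp_comm (hc.intervalIntegrable (μ := MeasureTheory.volume) 0 1)).symm
  simp only [reCLM_apply] at this
  rw [sec, this]
  refine intervalIntegral.intervalIntegral_pos_of_pos_on
    ((Complex.continuous_re.comp hc).intervalIntegrable 0 1) (fun y hy => h _ ?_ ?_) one_pos
  · nlinarith [hy.1]
  · nlinarith [hy.2]

lemma sec_pos' {u : ℝ → ℂ} {M s l : ℝ} (hD : Dev u M) (hl : 0 < l) (hM : M < l) :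
    0 < (sec u s l).re := by
  have h := hD s (s + l) (by linarith)
  rw [← sec_mul, re_ofReal_mul] at h
  by_contra hc
  push Not at hc
  nlinarith

lemma sec_one {u : ℝ → ℂ} {s l : ℝ} (hl : 0 ≤ l) (h : ∀ τ, s ≤ τ → τ ≤ s + l → u τ = 1) :
    sec u s l = 1 := by
  rw [sec, intervalIntegral.integral_congr (g := fun _ => (1 : ℂ))]
  · simp
  · intro y hy
    rw [uIcc_of_le zero_le_one] at hy
    exact h _ (by nlinarith [hy.1]) (by nlinarith [hy.2])

/-- the affine model -/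
noncomputable def mdl (S L c : ℝ) (ζ : ℝ × ℝ) : ℂ :=
  ((L * (ζ.2 + 1) - 1 : ℝ) : ℂ) + ((c - S * ζ.1 : ℝ) : ℂ) * Complex.I

lemma mdl_re (S L c : ℝ) (ζ : ℝ × ℝ) : (mdl S L c ζ).re = L * (ζ.2 + 1) - 1 := by simp [mdl]
lemma mdl_im (S L c : ℝ) (ζ : ℝ × ℝ) : (mdl S L c ζ).im = c - S * ζ.1 := by simp [mdl]

lemma mdl_PM {S L c : ℝ} (hc : |c| < S) (hL : 1 ≤ L) : PM (mdl S L c) := by
  have := abs_lt.1 hc
  refine ⟨by unfold mdl; fun_prop, fun ζ => ⟨fun h => ?_, fun h => ?_, fun h => ?_, fun h => ?_⟩⟩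
  · rw [mdl_im, h]; linarith
  · rw [mdl_im, h]; linarith
  · rw [mdl_re, h]; linarith
  · rw [mdl_re, h]; linarith

lemma seg_model {f : ℝ × ℝ → ℂ} (hf : Continuous f) {S L c : ℝ} (hc : |c| < S) (hL : 1 ≤ L)
    (hbot : ∀ ζ : ℝ × ℝ, ‖ζ‖ = 1 → ζ.2 = -1 → f ζ ≠ 0 ∧ (S * ζ.1 ≤ c → 0 ≤ (f ζ).im) ∧
      (c ≤ S * ζ.1 → (f ζ).im ≤ 0) ∧ (S * ζ.1 = c → (f ζ).re < 0))
    (hoth : ∀ ζ : ℝ × ℝ, ‖ζ‖ = 1 → (|ζ.1| = 1 ∨ ζ.2 = 1) →
      0 < (f ζ).re ∧ (L * (ζ.2 + 1) ≤ 1 → (f ζ).im = 0)) :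
    Hm {ζ : ℝ × ℝ | ‖ζ‖ = 1} f (mdl S L c) := by
  have hc' := abs_lt.1 hc
  refine Hm.segment hf (mdl_PM hc hL).1 fun ζ hζ μ hμ h => ?_
  have hre := congrArg Complex.re h
  have him := congrArg Complex.im h
  simp only [add_re, re_ofReal_mul, mdl_re, zero_re, add_im, im_ofReal_mul, mdl_im, zero_im]
    at hre him
  have hμ1 : 0 ≤ 1 - μ := by linarith [hμ.2]
  by_cases hb : ζ.2 = -1
  · obtain ⟨b0, b1, b2, b3⟩ := hbot ζ hζ hb
    have hμ0 : μ ≠ 0 := by
      rintro rfl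
      exact b0 (by simpa using h)
    have hμp : 0 < μ := lt_of_le_of_ne hμ.1 hμ0.symm
    rcases lt_trichotomy (S * ζ.1) c with q | q | q
    · nlinarith [mul_nonneg hμ1 (b1 q.le), mul_pos hμp (sub_pos.2 q)]
    · rw [hb] at hre; nlinarith [mul_nonneg hμ1 (neg_nonneg.2 (b3 q).le)]
    · nlinarith [mul_nonneg hμ1 (neg_nonneg.2 (b2 q.le)), mul_pos hμp (sub_pos.2 q)]
  · have h2 : |ζ.1| = 1 ∨ ζ.2 = 1 := by
      rcases (norm2_eq.1 hζ).2 with q | q
      · exact Or.inl q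
      · rcases (abs_eq (zero_le_one' ℝ)).1 q with q | q
        · exact Or.inr q
        · exact absurd q hb
    obtain ⟨o1, o2⟩ := hoth ζ hζ h2
    have hμ0 : μ ≠ 0 := by
      rintro rfl
      simp at hre; linarith
    have hμp : 0 < μ := lt_of_le_of_ne hμ.1 hμ0.symm
    by_cases q : L * (ζ.2 + 1) ≤ 1
    · rw [o2 q, mul_zero, zero_add] at him
      have h3 := (mul_eq_zero.1 him).resolve_left hμ0
      rcases h2 with h2 | h2
      · rcases (abs_eq (zero_le_one' ℝ)).1 h2 with h2 | h2 <;> (rw [h2] at h3; linarith)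
      · rw [h2] at q; linarith
    · push Not at q
      nlinarith [mul_nonneg hμ1 o1.le, mul_pos hμp (sub_pos.2 q)]

lemma Hm.ne_zero {X : Type*} [TopologicalSpace X] {U : Set X} {f g : X → ℂ} (h : Hm U f g) :
    ∀ x ∈ U, f x ≠ 0 := by
  obtain ⟨a, -, a0, -, an⟩ := h
  intro x hx
  rw [← a0 x hx]; exact an 0 ⟨le_rfl, zero_le_one⟩ x hx

/-- the base curve -/
noncomputable def u0 (t : ℝ) : ℂ := red (-500) 1 t * blue 500 1 t

lemma L1_u0 : L1 u0 (4 * π + 4 * π) := (L1_red' _ one_pos le_rfl).mul (L1_blue' _ one_pos le_rfl)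

lemma u0_side {s l : ℝ} (hl : 0 ≤ l) (hs : s = 0 ∨ 1000 ≤ |s|) :
    0 < (sec u0 s l).re ∧ (l ≤ 1 → (sec u0 s l).im = 0) := by
  have hpi := Real.pi_lt_four
  have h1 : l ≤ 400 → sec u0 s l = 1 := by
    intro h
    refine sec_one hl fun τ h1 h2 => ?_
    rcases hs with hs | hs
    · rw [u0, red_right one_pos (by linarith), blue_left one_pos (by linarith), mul_one]
    · rcases le_abs.1 hs with hs | hs
      · rw [u0, red_right one_pos (by linarith), blue_right one_pos (by linarith), mul_one]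
      · rw [u0, red_left one_pos (by linarith), blue_left one_pos (by linarith), mul_one]
  refine ⟨?_, fun h => by rw [h1 (by linarith)]; simp⟩
  rcases le_total l 400 with h | h
  · rw [h1 h]; simp
  · exact sec_pos' L1_u0.dev (by linarith) (by linarith)

end Pool.Agent.MP_b8ade4_gt

end MrgPart3

-- ======== part 4: formerly Pool.Agent.MP_b8ade4_gt.Hopf
section MrgPart4

/-! Lifting a map to the two-sphere through the Hopf fibration over a ball. -/

namespace Pool.Agent.MP_b8ade4_gt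

open Set Complex

/-- the projector onto the Hopf fibre -/
noncomputable def prj (v : ℂ × ℝ) (e : ℂ × ℂ) : ℂ × ℂ :=
  (((1 + v.2) * e.1 + v.1 * e.2) / 2, ((starRingEnd ℂ) v.1 * e.1 + (1 - v.2) * e.2) / 2)

lemma prj_idem {v : ℂ × ℝ} (hv : v.1 * (starRingEnd ℂ) v.1 + (v.2 : ℂ) ^ 2 = 1) (e : ℂ × ℂ) :
    prj v (prj v e) = prj v e := by
  ext
  · simp only [prj]; linear_combination (e.1 / 4) * hv
  · simp only [prj]; linear_combination (e.2 / 4) * hv

lemma prj_sub (v v' : ℂ × ℝ) (e : ℂ × ℂ) : ‖prj v e - prj v' e‖ ≤ ‖v - v'‖ * ‖e‖ := by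
  have h1 : ‖v.1 - v'.1‖ ≤ ‖v - v'‖ := norm_fst_le (v - v')
  have h2 : ‖((v.2 - v'.2 : ℝ) : ℂ)‖ ≤ ‖v - v'‖ := by
    rw [Complex.norm_real]; exact norm_snd_le (v - v')
  have e1 : ‖e.1‖ ≤ ‖e‖ := norm_fst_le e
  have e2 : ‖e.2‖ ≤ ‖e‖ := norm_snd_le e
  have n0 := norm_nonneg (v - v')
  rw [Prod.norm_def, max_le_iff]
  constructor
  · have : (prj v e - prj v' e).1 = (((v.2 - v'.2 : ℝ) : ℂ) * e.1 + (v.1 - v'.1) * e.2) / 2 := by
      simp only [prj, Prod.fst_sub]; push_cast; ring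
    rw [this, norm_div, Complex.norm_two, div_le_iff₀ two_pos]
    refine (norm_add_le _ _).trans ?_
    rw [norm_mul, norm_mul]
    have := mul_le_mul h2 e1 (norm_nonneg _) n0
    have := mul_le_mul h1 e2 (norm_nonneg _) n0
    linarith
  · have : (prj v e - prj v' e).2 =
        ((starRingEnd ℂ) (v.1 - v'.1) * e.1 - ((v.2 - v'.2 : ℝ) : ℂ) * e.2) / 2 := by
      simp only [prj, Prod.snd_sub, map_sub]; push_cast; ring
    rw [this, norm_div, Complex.norm_two, div_le_iff₀ two_pos]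
    refine (norm_sub_le _ _).trans ?_
    rw [norm_mul, norm_mul, Complex.norm_conj]
    have := mul_le_mul h2 e2 (norm_nonneg _) n0
    have := mul_le_mul h1 e1 (norm_nonneg _) n0
    linarith

lemma exists_section {V : Type*} [NormedAddCommGroup V] [NormedSpace ℝ V] [ProperSpace V]
    {v : V → ℂ × ℝ} (hv : Continuous v)
    (h1 : ∀ x, (v x).1 * (starRingEnd ℂ) (v x).1 + ((v x).2 : ℂ) ^ 2 = 1) :
    ∃ e : V → ℂ × ℂ, Continuous e ∧ ∀ x, ‖x‖ ≤ 1 → e x ≠ 0 ∧ prj (v x) (e x) = e x := by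
  have huc := (isCompact_closedBall (0 : V) 1).uniformContinuousOn_of_continuous hv.continuousOn
  obtain ⟨δ, hδ, hd⟩ := Metric.uniformContinuousOn_iff.1 huc 1 one_pos
  obtain ⟨N, hN⟩ := exists_nat_one_div_lt hδ
  have key : ∀ j : ℕ, j ≤ N + 1 → ∃ e : V → ℂ × ℂ, Continuous e ∧ ∀ x, ‖x‖ ≤ 1 →
      e x ≠ 0 ∧ prj (v (((j : ℝ) / (N + 1)) • x)) (e x) = e x := by
    intro j
    induction j with
    | zero =>
      intro _
      have : ∃ e0, prj (v 0) e0 ≠ 0 := by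
        by_contra hc
        push Not at hc
        have a := congrArg Prod.fst (hc (1, 0))
        have b := congrArg Prod.snd (hc (0, 1))
        simp only [prj, Prod.fst_zero, Prod.snd_zero] at a b
        have : (1 : ℂ) = 0 := by linear_combination a + b
        exact one_ne_zero this
      obtain ⟨e0, he0⟩ := this
      refine ⟨fun _ => prj (v 0) e0, continuous_const, fun x _ => ⟨he0, ?_⟩⟩
      simpa using prj_idem (h1 0) e0
    | succ j ih =>
      intro hj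
      obtain ⟨e, he, hx⟩ := ih (by omega)
      refine ⟨fun x => prj (v ((((j + 1 : ℕ) : ℝ) / (N + 1)) • x)) (e x), ?_, fun x hx1 =>
        ⟨fun h0 => ?_, prj_idem (h1 _) _⟩⟩
      · unfold prj; fun_prop
      · obtain ⟨a, b⟩ := hx x hx1
        have hN0 : (0 : ℝ) < N + 1 := by positivity
        have hj' : ((j + 1 : ℕ) : ℝ) ≤ N + 1 := by exact_mod_cast hj
        have hm : ∀ c : ℝ, 0 ≤ c → c ≤ N + 1 → (c / (N + 1)) • x ∈ Metric.closedBall (0 : V) 1 := by
          intro c c0 c1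
          rw [mem_closedBall_zero_iff, norm_smul, Real.norm_of_nonneg (by positivity)]
          exact mul_le_one₀ ((div_le_one hN0).2 c1) (norm_nonneg _) hx1
        have h2 := hd _ (hm _ (by positivity) hj') _
          (hm j (by positivity) (by push_cast at hj'; linarith)) (by
            rw [dist_eq_norm, ← sub_smul, norm_smul]
            have : ((j + 1 : ℕ) : ℝ) / (N + 1) - (j : ℝ) / (N + 1) = 1 / (N + 1) := by
              push_cast; ring
            rw [this, Real.norm_of_nonneg (by positivity)]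
            exact (mul_le_of_le_one_right (by positivity) hx1).trans_lt hN)
        have h3 := prj_sub (v ((((j + 1 : ℕ) : ℝ) / (N + 1)) • x)) (v (((j : ℝ) / (N + 1)) • x)) (e x)
        beta_reduce at h0
        rw [h0, b, zero_sub, norm_neg, ← dist_eq_norm] at h3
        have := norm_pos_iff.2 a
        nlinarith
  obtain ⟨e, he, hx⟩ := key (N + 1) le_rfl
  refine ⟨e, he, fun x h => ?_⟩
  have := hx x h
  rwa [show (((N + 1 : ℕ) : ℝ) / (N + 1)) = 1 by push_cast; field_simp, one_smul] at this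

/-- Hopf lift of a nowhere vanishing `(w, h)`; `n` is its length -/
theorem exists_hopf {V : Type*} [NormedAddCommGroup V] [NormedSpace ℝ V] [ProperSpace V]
    {w : V → ℂ} {h : V → ℝ} (hw : Continuous w) (hh : Continuous h)
    (h0 : ∀ x, w x = 0 → h x ≠ 0) :
    ∃ (a b : V → ℂ) (n : V → ℝ), Continuous a ∧ Continuous b ∧ Continuous n ∧ ∀ x, ‖x‖ ≤ 1 →
      (a x ≠ 0 ∨ b x ≠ 0) ∧ (a x = 0 → w x = 0 ∧ h x < 0) ∧ (b x = 0 → w x = 0 ∧ 0 < h x) ∧
      (b x ≠ 0 → 0 < n x - h x) ∧ (a x ≠ 0 → 0 < n x + h x) ∧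
      ((n x - h x : ℝ) : ℂ) * a x = w x * b x ∧
      ((n x + h x : ℝ) : ℂ) * b x = (starRingEnd ℂ) (w x) * a x := by
  let n : V → ℝ := fun x => Real.sqrt (normSq (w x) + h x ^ 2)
  have hn : Continuous n := by fun_prop
  have hp : ∀ x, 0 < normSq (w x) + h x ^ 2 := by
    intro x
    by_cases hx : w x = 0
    · have := h0 x hx; have := normSq_nonneg (w x); positivity
    · have := normSq_pos.2 hx; positivity
  have hn0 : ∀ x, 0 < n x := fun x => Real.sqrt_pos.2 (hp x)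
  have hn2 : ∀ x, n x ^ 2 = normSq (w x) + h x ^ 2 := fun x => Real.sq_sqrt (hp x).le
  obtain ⟨e, he, hx⟩ := exists_section (v := fun x => (w x / n x, h x / n x))
    ((hw.div (by fun_prop) fun x => by exact_mod_cast (hn0 x).ne').prodMk
      (hh.div hn fun x => (hn0 x).ne')) (by
      intro x
      have h1 : (n x : ℂ) ≠ 0 := by exact_mod_cast (hn0 x).ne'
      have h2 : (n x : ℂ) ^ 2 = w x * (starRingEnd ℂ) (w x) + (h x : ℂ) ^ 2 := by
        rw [mul_conj]; exact_mod_cast hn2 x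
      simp only [map_div₀, conj_ofReal]
      push_cast
      field_simp
      exact h2.symm)
  refine ⟨fun x => (e x).1, fun x => (e x).2, n, by fun_prop, by fun_prop, hn, fun x hx1 => ?_⟩
  obtain ⟨e0, ep⟩ := hx x hx1
  beta_reduce
  have h1 : (n x : ℂ) ≠ 0 := by exact_mod_cast (hn0 x).ne'
  have r1 : ((n x - h x : ℝ) : ℂ) * (e x).1 = w x * (e x).2 := by
    have := congrArg Prod.fst ep
    simp only [prj] at this
    push_cast at this ⊢
    field_simp at this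
    linear_combination -this
  have r2 : ((n x + h x : ℝ) : ℂ) * (e x).2 = (starRingEnd ℂ) (w x) * (e x).1 := by
    have := congrArg Prod.snd ep
    simp only [prj, map_div₀, conj_ofReal] at this
    push_cast at this ⊢
    field_simp at this
    linear_combination -this
  have hor : (e x).1 ≠ 0 ∨ (e x).2 ≠ 0 := by
    by_contra hc; push Not at hc; exact e0 (Prod.ext hc.1 hc.2)
  have hab : |h x| ≤ n x := by
    apply Real.abs_le_sqrt; linarith [normSq_nonneg (w x)]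
  have hab' := abs_le.1 hab
  have hw0 : n x ^ 2 = h x ^ 2 → w x = 0 := fun q => normSq_eq_zero.1 (by linarith [hn2 x])
  refine ⟨hor, fun ha => ?_, fun hb => ?_, fun hb => ?_, fun ha => ?_, r1, r2⟩
  · have hb : (e x).2 ≠ 0 := by tauto
    rw [ha, mul_zero] at r1 r2
    have q1 : n x + h x = 0 := by exact_mod_cast (mul_eq_zero.1 r2).resolve_right hb
    exact ⟨(mul_eq_zero.1 r1.symm).resolve_right hb, by linarith [hn0 x]⟩
  · have ha : (e x).1 ≠ 0 := by tauto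
    rw [hb, mul_zero] at r1 r2
    have q1 : n x - h x = 0 := by exact_mod_cast (mul_eq_zero.1 r1).resolve_right ha
    exact ⟨hw0 (by rw [sub_eq_zero.1 q1]), by linarith [hn0 x]⟩
  · refine lt_of_le_of_ne (by linarith) fun q => hb ?_
    have q1 : n x = h x := by linarith
    rw [hw0 (by rw [q1]), map_zero, zero_mul] at r2
    refine (mul_eq_zero.1 r2).resolve_left ?_
    exact_mod_cast (by linarith [hn0 x] : n x + h x ≠ 0)
  · refine lt_of_le_of_ne (by linarith) fun q => ha ?_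
    have q1 : n x = -h x := by linarith
    rw [hw0 (by rw [q1]; ring), zero_mul] at r1
    refine (mul_eq_zero.1 r1).resolve_left ?_
    exact_mod_cast (by linarith [hn0 x] : n x - h x ≠ 0)

end Pool.Agent.MP_b8ade4_gt

end MrgPart4

-- ======== part 5: formerly Pool.Agent.MP_b8ade4_gt.Nontriv
section MrgPart5

/-! The loop is not null-homotopic. -/

namespace Pool.Agent.MP_b8ade4_gt

open Complex Real Set

noncomputable def c1 (z : ℝ) : ℝ := max (-1) (min 1 z)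
@[fun_prop] lemma continuous_c1 : Continuous c1 := by unfold c1; fun_prop
lemma abs_c1 (z : ℝ) : |c1 z| ≤ 1 :=
  abs_le.2 ⟨le_max_left _ _, max_le (by norm_num) (min_le_left _ _)⟩
lemma c1_id {z : ℝ} (hz : |z| ≤ 1) : c1 z = z := by
  have := abs_le.1 hz
  rw [c1, min_eq_right this.2, max_eq_right this.1]

/-- winding of a Hopf coordinate around the rectangle: push half of the rectangle onto the middle
line, then divide by a unit -/
lemma hm_half {a w g : ℝ × ℝ → ℂ} {m : ℝ × ℝ → ℂ} (ha : Continuous a) (hg : Continuous g)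
    {κ : ℝ × (ℝ × ℝ) → ℝ × ℝ} (hκ : Continuous κ) (h0 : ∀ ζ, ‖ζ‖ = 1 → κ (0, ζ) = ζ)
    (hne : ∀ τ ∈ Icc (0 : ℝ) 1, ∀ ζ, ‖ζ‖ = 1 → a (κ (τ, ζ)) ≠ 0)
    (hg0 : ∀ ζ, ‖ζ‖ ≤ 1 → g ζ ≠ 0) (h1 : ∀ ζ, ‖ζ‖ = 1 → a (κ (1, ζ)) = w ζ * g ζ)
    (hw : Hm {ζ : ℝ × ℝ | ‖ζ‖ = 1} w m) : Hm {ζ : ℝ × ℝ | ‖ζ‖ = 1} a m := by
  have s1 : Hm {ζ : ℝ × ℝ | ‖ζ‖ = 1} a (fun ζ => w ζ * g ζ) :=
    ⟨fun q => a (κ q), ha.comp hκ, fun ζ h => by simp only [h0 ζ h], h1, hne⟩
  have s2 := hw.mul (Hm.unit hg hg0 (U := {ζ : ℝ × ℝ | ‖ζ‖ = 1}) fun x hx => le_of_eq hx)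
  exact (s1.trans s2).congr (fun _ _ => rfl) (fun _ _ => (mul_one _).symm)

lemma sep_al {l : ℝ} (hl' : l ≤ 1 / 2) (θ : ℝ) :
    |pr θ| = 500 ∨ 2 ≤ |2 * π * gg l (2 * θ - 1) - 2 * π * gg l (2 * θ)| := by
  have hpi := Real.pi_gt_three
  rcases le_total θ (1 / 2) with h | h
  · rcases stages l (2 * θ) with q | q | q
    · left; rw [pr_first h, q]; norm_num
    · left; rw [pr_first h, q]; norm_num
    · right; rw [q, gg_left l (by linarith)]; exact le_abs.2 (Or.inl (by nlinarith))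
  · rcases stages l (2 * θ - 1) with q | q | q
    · left; rw [pr_second h, q]; norm_num
    · left; rw [pr_second h, q]; norm_num
    · right; rw [q, gg_right l (by linarith)]; exact le_abs.2 (Or.inr (by nlinarith))

theorem fam_false {l : ℝ} (hl : 0 < l) (hl' : l ≤ 1 / 2) (hW : Win l) {T M : ℝ}
    (u : ℝ × ℝ → ℝ → ℂ) (hu : Continuous fun q : (ℝ × ℝ) × ℝ => u q.1 q.2)
    (h0 : ∀ η t, u η t ≠ 0) (hE : ∀ η, Emb (u η)) (hT : ∀ η t, T ≤ |t| → 0 < (u η t).re)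
    (hD : ∀ η, Dev (u η) M)
    (hb : ∀ η : ℝ × ℝ, ‖η‖ ≤ 1 → η.2 = -1 → u η = al l ((η.1 + 1) / 2))
    (ho : ∀ η : ℝ × ℝ, ‖η‖ ≤ 1 → (η.2 = 1 ∨ |η.1| = 1) → u η = al l 0) : False := by
  have hpi := Real.pi_gt_three
  have hpi' := Real.pi_lt_four
  obtain ⟨S, hS1, hS2⟩ : ∃ S : ℝ, |T| + |M| < S ∧ 2000 ≤ S :=
    ⟨|T| + |M| + 2000, by linarith, by linarith [abs_nonneg T, abs_nonneg M]⟩
  obtain ⟨L, hL1, hL2⟩ : ∃ L : ℝ, |M| < L ∧ 1000 ≤ L :=
    ⟨|M| + 1000, by linarith, by linarith [abs_nonneg M]⟩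
  have hS0 : 0 < S := by linarith
  have hL0 : 0 < L := by linarith
  have huc : ∀ η, Continuous (u η) := fun η => hu.comp (Continuous.prodMk_right η)
  let sx : E4 → ℝ := fun x => S * c1 x.1.1
  let lx : E4 → ℝ := fun x => L * (c1 x.1.2 + 1)
  have hsx : Continuous sx := by fun_prop
  have hlx : Continuous lx := by fun_prop
  have hlx0 : ∀ x, 0 ≤ lx x := fun x => mul_nonneg hL0.le (by linarith [(abs_le.1 (abs_c1 x.1.2)).1])
  let w : E4 → ℂ := fun x => sec (u x.2) (sx x) (lx x)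
  let h : E4 → ℝ := fun x => A (u x.2) (sx x) (sx x + lx x)
  have hw : Continuous w := continuous_sec (u := fun x : E4 => u x.2)
    (hu.comp (f := fun q : E4 × ℝ => (q.1.2, q.2)) (by fun_prop)) hsx hlx
  have hh : Continuous h := (continuous_A hu).comp
    (f := fun x : E4 => (x.2, sx x, sx x + lx x)) (by fun_prop)
  have hch : ∀ x, w x = 0 → sx x < sx x + lx x ∧ W (u x.2) (sx x) (sx x + lx x) = 0 := by
    intro x hx
    refine ⟨?_, by rw [← sec_mul]; simp only [w] at hx; rw [hx, mul_zero]⟩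
    rcases (hlx0 x).eq_or_lt with q | q
    · simp only [w, ← q, sec_zero] at hx; exact absurd hx (h0 _ _)
    · linarith
  obtain ⟨a, b, n, ha, hb', hn, hab⟩ := exists_hopf hw hh fun x hx =>
    hE _ _ _ (hch x hx).1 (hch x hx).2
  have nE : ∀ ζ η : ℝ × ℝ, ‖ζ‖ ≤ 1 → ‖η‖ ≤ 1 → ‖((ζ, η) : E4)‖ ≤ 1 := fun ζ η p q =>
    max_le p q
  -- no chords on the boundary of the rectangle
  have hwb : ∀ ζ η : ℝ × ℝ, ‖ζ‖ = 1 → w (ζ, η) ≠ 0 := by
    intro ζ η hζ hx
    obtain ⟨⟨z1, z2⟩, q⟩ := norm2_eq.1 hζ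
    have e1 : sx (ζ, η) = S * ζ.1 := by simp only [sx, c1_id z1]
    have e2 : lx (ζ, η) = L * (ζ.2 + 1) := by simp only [lx, c1_id z2]
    have hp := (hch _ hx).1
    have key : 0 < (w (ζ, η)).re := by
      rcases q with q | q <;> rcases (abs_eq (zero_le_one' ℝ)).1 q with q | q
      · refine sec_pos (huc η) (hlx0 _) fun τ t1 _ => hT _ _ ?_
        rw [e1, q] at t1
        exact le_abs.2 (Or.inl (by linarith [le_abs_self T, abs_nonneg M]))
      · by_cases c : M < lx (ζ, η)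
        · exact sec_pos' (hD η) (by linarith) c
        · refine sec_pos (huc η) (hlx0 _) fun τ _ t2 => hT _ _ ?_
          rw [e1, q] at t2
          exact le_abs.2 (Or.inr (by linarith [le_abs_self T, le_abs_self M]))
      · refine sec_pos' (hD η) (by linarith) ?_
        rw [e2, q]; linarith [le_abs_self M]
      · rw [e2, q] at hp; linarith
    rw [hx] at key; simp at key
  -- the centres of the windows
  let β0 : ℝ → ℝ × ℝ := fun θ => (-pr θ / S, 2 * π * gg l (2 * θ - 1) / L - 1)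
  let ρ0 : ℝ → ℝ × ℝ := fun θ => (pr θ / S, 2 * π * gg l (2 * θ) / L - 1)
  have hin : ∀ p g : ℝ, |p| ≤ 500 → 0 < g → g ≤ 1 → ‖((p / S, 2 * π * g / L - 1) : ℝ × ℝ)‖ < 1 := by
    intro p g hp g0 g1
    refine norm2_lt.2 ⟨?_, ?_⟩
    · rw [abs_div, abs_of_pos hS0, div_lt_one hS0]; linarith
    · have : 0 < 2 * π * g / L := by positivity
      have : 2 * π * g / L < 1 := by rw [div_lt_one hL0]; nlinarith
      rw [abs_lt]; constructor <;> linarith
  have hβ0 : ∀ θ, ‖β0 θ‖ < 1 := fun θ => hin _ _ (by rw [abs_neg]; exact abs_pr θ)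
    (gg_pos hl (by linarith) _) (gg_le_one (by linarith) _)
  have hρ0 : ∀ θ, ‖ρ0 θ‖ < 1 := fun θ => hin _ _ (abs_pr θ)
    (gg_pos hl (by linarith) _) (gg_le_one (by linarith) _)
  let ext : (ℝ → ℝ × ℝ) → ℝ × ℝ → ℝ × ℝ := fun f η =>
    ((1 - η.2) / 2) • f ((η.1 + 1) / 2) + ((1 + η.2) / 2) • f 0
  have hext : ∀ f : ℝ → ℝ × ℝ, (∀ θ, ‖f θ‖ < 1) → ∀ η, ‖η‖ ≤ 1 → ‖ext f η‖ < 1 := by
    intro f hf η hη
    have q := abs_le.1 (norm2_le.1 hη).2
    refine (norm_add_le _ _).trans_lt ?_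
    rw [norm_smul, norm_smul, Real.norm_of_nonneg (by linarith), Real.norm_of_nonneg (by linarith)]
    have a1 := hf ((η.1 + 1) / 2); have a2 := hf 0
    rcases le_total η.2 0 with c | c <;> nlinarith
  have hβ1 : β0 1 = β0 0 := by
    simp only [β0, pr_one, pr_zero]
    rw [gg_right l (by norm_num), gg_left l (by norm_num)]
  have hρ1 : ρ0 1 = ρ0 0 := by
    simp only [ρ0, pr_one, pr_zero]
    rw [gg_right l (by norm_num), gg_left l (by norm_num)]
  have hcase : ∀ η : ℝ × ℝ, ‖η‖ = 1 → ∃ θ, u η = al l θ ∧ ext β0 η = β0 θ ∧ ext ρ0 η = ρ0 θ ∧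
      ((η.2 = -1 ∧ θ = (η.1 + 1) / 2) ∨ (θ = 0 ∧ (η.2 = 1 ∨ |η.1| = 1))) := by
    intro η hη
    by_cases c : η.2 = -1
    · exact ⟨_, hb η hη.le c, by simp only [ext, c]; norm_num, by simp only [ext, c]; norm_num,
        Or.inl ⟨c, rfl⟩⟩
    · have c2 : η.2 = 1 ∨ |η.1| = 1 := by
        rcases (norm2_eq.1 hη).2 with q | q
        · exact Or.inr q
        · rcases (abs_eq (zero_le_one' ℝ)).1 q with q | q
          · exact Or.inl q
          · exact absurd q c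
      have key : ∀ f : ℝ → ℝ × ℝ, f 1 = f 0 → ext f η = f 0 := by
        intro f hf
        rcases c2 with q | q
        · simp only [ext, q]; norm_num
        · have : f ((η.1 + 1) / 2) = f 0 := by
            rcases (abs_eq (zero_le_one' ℝ)).1 q with q | q
            · rw [q, ← hf]; norm_num
            · rw [q]; norm_num
          simp only [ext, this, ← add_smul]
          rw [show (1 - η.2) / 2 + (1 + η.2) / 2 = 1 by ring, one_smul]
      exact ⟨0, ho η hη.le c2, key _ hβ1, key _ hρ1, Or.inr ⟨rfl, c2⟩⟩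
  -- chords over the boundary of the homotopy square
  have hwin : ∀ (ζ η : ℝ × ℝ) (θ : ℝ), ‖ζ‖ ≤ 1 → u η = al l θ → w (ζ, η) = 0 →
      (0 < h (ζ, η) ∧ |ζ.1 - (ρ0 θ).1| < 1 / S ∧ |ζ.2 - (ρ0 θ).2| < 1 / L) ∨
      (h (ζ, η) < 0 ∧ |ζ.1 - (β0 θ).1| < 1 / S ∧ |ζ.2 - (β0 θ).2| < 1 / L) := by
    intro ζ η θ hζ hη hx
    obtain ⟨z1, z2⟩ := norm2_le.1 hζ
    have e1 : sx (ζ, η) = S * ζ.1 := by simp only [sx, c1_id z1]
    have e2 : lx (ζ, η) = L * (ζ.2 + 1) := by simp only [lx, c1_id z2]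
    obtain ⟨p, q⟩ := hch _ hx
    have k1 : ∀ p : ℝ, |S * ζ.1 - p| < 1 → |ζ.1 - p / S| < 1 / S := by
      intro p hp
      rw [show ζ.1 - p / S = (S * ζ.1 - p) / S by field_simp, abs_div, abs_of_pos hS0]
      exact div_lt_div_of_pos_right hp hS0
    have k2 : ∀ g : ℝ, |S * ζ.1 + L * (ζ.2 + 1) - S * ζ.1 - g| < 1 →
        |ζ.2 - (g / L - 1)| < 1 / L := by
      intro g hg
      rw [show ζ.2 - (g / L - 1) = (S * ζ.1 + L * (ζ.2 + 1) - S * ζ.1 - g) / L by field_simp; ring,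
        abs_div, abs_of_pos hL0]
      exact div_lt_div_of_pos_right hg hL0
    simp only [h, hη] at q ⊢
    rcases hW θ _ _ p q with ⟨r1, r2, r3⟩ | ⟨r1, r2, r3⟩
    · rw [e1] at r2; rw [e1, e2] at r3
      exact Or.inl ⟨r1, k1 _ r2, k2 _ r3⟩
    · rw [e1, ← sub_neg_eq_add] at r2; rw [e1, e2] at r3
      exact Or.inr ⟨r1, k1 _ r2, k2 _ r3⟩
  have hη0 : ‖((-1, -1) : ℝ × ℝ)‖ ≤ 1 := by simp [norm2]
  have hu0 : u (-1, -1) = al l 0 := ho _ hη0 (Or.inr (by simp))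
  have hu0' : u (-1, -1) = u0 := by rw [hu0]; funext t; exact al_zero l t
  have hS' : 1 / S < 500 / S := div_lt_div_of_pos_right (by norm_num) hS0
  have a0 : ∀ ζ : ℝ × ℝ, ‖ζ‖ ≤ 1 → ζ.1 ≤ 0 → a (ζ, (-1, -1)) ≠ 0 := by
    intro ζ hζ hs hx
    obtain ⟨p, q⟩ := (hab _ (nE _ _ hζ hη0)).2.1 hx
    rcases hwin ζ _ 0 hζ hu0 p with r | r
    · linarith [r.1]
    · have := (abs_lt.1 r.2.1).1
      simp only [β0, pr_zero, neg_neg] at this; linarith
  have b0 : ∀ ζ : ℝ × ℝ, ‖ζ‖ ≤ 1 → 0 ≤ ζ.1 → b (ζ, (-1, -1)) ≠ 0 := by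
    intro ζ hζ hs hx
    obtain ⟨p, q⟩ := (hab _ (nE _ _ hζ hη0)).2.2.1 hx
    rcases hwin ζ _ 0 hζ hu0 p with r | r
    · have := (abs_lt.1 r.2.1).2
      simp only [ρ0, pr_zero, neg_div] at this; linarith
    · linarith [r.1]
  have a1 : ∀ ζ η : ℝ × ℝ, ‖ζ‖ = 1 → ‖η‖ ≤ 1 → a (ζ, η) ≠ 0 := fun ζ η p q hx =>
    hwb ζ η p ((hab _ (nE _ _ p.le q)).2.1 hx).1
  have b1 : ∀ ζ η : ℝ × ℝ, ‖ζ‖ = 1 → ‖η‖ ≤ 1 → b (ζ, η) ≠ 0 := fun ζ η p q hx =>
    hwb ζ η p ((hab _ (nE _ _ p.le q)).2.2.1 hx).1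
  have hA : Hm {ζ : ℝ × ℝ | ‖ζ‖ = 1} (fun ζ => a (ζ, (-1, -1))) (mdl S L (500 + π)) := by
    let k : ℝ × ℝ → E4 := fun ζ => ((max (c1 ζ.1) 0, c1 ζ.2), (-1, -1))
    have hk : Continuous k := by fun_prop
    have k1 : ∀ ζ, ‖(k ζ).1‖ ≤ 1 := fun ζ => norm2_le.2 ⟨abs_le.2 ⟨le_max_of_le_right (by norm_num),
      max_le (abs_le.1 (abs_c1 _)).2 zero_le_one⟩, abs_c1 _⟩
    have k2 : ∀ ζ, b (k ζ) ≠ 0 := fun ζ => b0 _ (k1 ζ) (le_max_right _ _)
    have k3 : ∀ ζ, ((n (k ζ) - h (k ζ) : ℝ) : ℂ) ≠ 0 := fun ζ =>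
      Complex.ofReal_ne_zero.2 ((hab _ (nE _ _ (k1 ζ) hη0)).2.2.2.1 (k2 ζ)).ne'
    have k4 : ∀ ζ : ℝ × ℝ, ‖ζ‖ = 1 → w (k ζ) = sec u0 (S * max ζ.1 0) (L * (ζ.2 + 1)) := by
      intro ζ hζ
      obtain ⟨z1, z2⟩ := norm2_le.1 hζ.le
      have := (norm2_le.1 (k1 ζ)).1
      simp only [k, c1_id z1] at this
      simp only [w, sx, lx, k, hu0', c1_id z1, c1_id z2, c1_id this]
    refine hm_half (w := fun ζ => w (k ζ)) (g := fun ζ => b (k ζ) / ((n (k ζ) - h (k ζ) : ℝ) : ℂ))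
      (κ := fun q => (max q.2.1 (q.1 - 1), q.2.2)) (by fun_prop)
      ((hb'.comp hk).div (by fun_prop) k3) (by fun_prop) (fun ζ hζ => ?_) (fun τ hτ ζ hζ => ?_)
      (fun ζ _ => div_ne_zero (k2 ζ) (k3 ζ)) (fun ζ hζ => ?_) ?_
    · have := abs_le.1 (norm2_le.1 hζ.le).1
      simp only [zero_sub, max_eq_left this.1]
    · rcases le_total (τ - 1) ζ.1 with c | c
      · simp only [max_eq_left c]; exact a1 _ _ hζ hη0
      · simp only [max_eq_right c]
        refine a0 _ (norm2_le.2 ⟨?_, (norm2_le.1 hζ.le).2⟩) (by linarith [hτ.2])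
        rw [abs_le]; constructor <;> linarith [hτ.1, hτ.2]
    · obtain ⟨z1, z2⟩ := norm2_le.1 hζ.le
      have := (hab _ (nE _ _ (k1 ζ) hη0)).2.2.2.2.2.1
      rw [← mul_div_assoc, eq_div_iff (k3 ζ), ← this, mul_comm]
      simp only [k, c1_id z1, c1_id z2, sub_self]
    · refine seg_model (f := fun ζ => w (k ζ)) (hw.comp hk) (by rw [abs_lt]; constructor <;> linarith) (by linarith)
        (fun ζ hζ c => ?_) (fun ζ hζ c => ?_)
      · have e : w (k ζ) = blue 500 1 (S * max ζ.1 0) := by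
          rw [k4 ζ hζ, c, neg_add_cancel, mul_zero, sec_zero, u0, red_right one_pos, one_mul]
          have : 0 ≤ S * max ζ.1 0 := mul_nonneg hS0.le (le_max_right _ _)
          linarith
        rw [e]
        refine ⟨blue_ne _ _ _, fun q => blue_im_nonneg ?_, fun q => blue_im_nonpos ?_, fun q => ?_⟩
        · rcases le_total ζ.1 0 with r | r
          · rw [max_eq_right r]; linarith
          · rwa [max_eq_left r]
        · exact q.trans (mul_le_mul_of_nonneg_left (le_max_left _ _) hS0.le)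
        · rw [max_eq_left (by nlinarith), q, blue_mid]; norm_num
      · rw [k4 ζ hζ]
        have z2 := abs_le.1 (norm2_le.1 hζ.le).2
        rcases c with c | c
        · refine u0_side (by nlinarith) ?_
          rcases (abs_eq (zero_le_one' ℝ)).1 c with c | c
          · right; rw [c, max_eq_left zero_le_one, mul_one, abs_of_pos hS0]; linarith
          · left; rw [c, max_eq_right (by norm_num), mul_zero]
        · rw [c]
          exact ⟨sec_pos' L1_u0.dev (by linarith) (by linarith), fun q => by linarith⟩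
  have hB : Hm {ζ : ℝ × ℝ | ‖ζ‖ = 1} (fun ζ => b (ζ, (-1, -1))) (mdl S L (-500 + π)) := by
    let k : ℝ × ℝ → E4 := fun ζ => ((min (c1 ζ.1) 0, c1 ζ.2), (-1, -1))
    have hk : Continuous k := by fun_prop
    have k1 : ∀ ζ, ‖(k ζ).1‖ ≤ 1 := fun ζ => norm2_le.2 ⟨abs_le.2
      ⟨le_min (abs_le.1 (abs_c1 _)).1 (by norm_num), min_le_of_right_le zero_le_one⟩, abs_c1 _⟩
    have k2 : ∀ ζ, a (k ζ) ≠ 0 := fun ζ => a0 _ (k1 ζ) (min_le_right _ _)
    have k3 : ∀ ζ, ((n (k ζ) + h (k ζ) : ℝ) : ℂ) ≠ 0 := fun ζ =>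
      Complex.ofReal_ne_zero.2 ((hab _ (nE _ _ (k1 ζ) hη0)).2.2.2.2.1 (k2 ζ)).ne'
    have k4 : ∀ ζ : ℝ × ℝ, ‖ζ‖ = 1 → w (k ζ) = sec u0 (S * min ζ.1 0) (L * (ζ.2 + 1)) := by
      intro ζ hζ
      obtain ⟨z1, z2⟩ := norm2_le.1 hζ.le
      have := (norm2_le.1 (k1 ζ)).1
      simp only [k, c1_id z1] at this
      simp only [w, sx, lx, k, hu0', c1_id z1, c1_id z2, c1_id this]
    refine hm_half (w := fun ζ => (starRingEnd ℂ) (w (k ζ)))
      (g := fun ζ => a (k ζ) / ((n (k ζ) + h (k ζ) : ℝ) : ℂ))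
      (κ := fun q => (min q.2.1 (1 - q.1), q.2.2)) (by fun_prop)
      ((ha.comp hk).div (by fun_prop) k3) (by fun_prop) (fun ζ hζ => ?_) (fun τ hτ ζ hζ => ?_)
      (fun ζ _ => div_ne_zero (k2 ζ) (k3 ζ)) (fun ζ hζ => ?_) ?_
    · have := abs_le.1 (norm2_le.1 hζ.le).1
      simp only [sub_zero, min_eq_left this.2]
    · rcases le_total ζ.1 (1 - τ) with c | c
      · simp only [min_eq_left c]; exact b1 _ _ hζ hη0
      · simp only [min_eq_right c]
        refine b0 _ (norm2_le.2 ⟨?_, (norm2_le.1 hζ.le).2⟩) (by linarith [hτ.2])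
        rw [abs_le]; constructor <;> linarith [hτ.1, hτ.2]
    · obtain ⟨z1, z2⟩ := norm2_le.1 hζ.le
      have := (hab _ (nE _ _ (k1 ζ) hη0)).2.2.2.2.2.2
      rw [← mul_div_assoc, eq_div_iff (k3 ζ), ← this, mul_comm]
      simp only [k, c1_id z1, c1_id z2, sub_self]
    · refine seg_model (f := fun ζ => (starRingEnd ℂ) (w (k ζ)))
        (Complex.continuous_conj.comp (hw.comp hk))
        (by rw [abs_lt]; constructor <;> linarith) (by linarith)
        (fun ζ hζ c => ?_) (fun ζ hζ c => ?_)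
      · have e : (starRingEnd ℂ) (w (k ζ)) = blue (-500) 1 (S * min ζ.1 0) := by
          rw [k4 ζ hζ, c, neg_add_cancel, mul_zero, sec_zero, u0, blue_left one_pos, mul_one,
            conj_red]
          have : S * min ζ.1 0 ≤ 0 := mul_nonpos_of_nonneg_of_nonpos hS0.le (min_le_right _ _)
          linarith
        rw [e]
        refine ⟨blue_ne _ _ _, fun q => blue_im_nonneg ?_, fun q => blue_im_nonpos ?_, fun q => ?_⟩
        · exact (mul_le_mul_of_nonneg_left (min_le_left _ _) hS0.le).trans q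
        · rcases le_total ζ.1 0 with r | r
          · rwa [min_eq_left r]
          · rw [min_eq_right r]; linarith
        · rw [min_eq_left (by nlinarith), q, blue_mid]; norm_num
      · rw [k4 ζ hζ, conj_re, conj_im, neg_eq_zero]
        have z2 := abs_le.1 (norm2_le.1 hζ.le).2
        rcases c with c | c
        · refine u0_side (by nlinarith) ?_
          rcases (abs_eq (zero_le_one' ℝ)).1 c with c | c
          · left; rw [c, min_eq_right zero_le_one, mul_zero]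
          · right; rw [c, min_eq_left (by norm_num), mul_neg_one, abs_neg, abs_of_pos hS0]; linarith
        · rw [c]
          exact ⟨sec_pos' L1_u0.dev (by linarith) (by linarith), fun q => by linarith⟩
  have cβ : Continuous (ext β0) := by simp only [ext, β0]; fun_prop
  have cρ : Continuous (ext ρ0) := by simp only [ext, ρ0]; fun_prop
  have dS : 0 < 1 / S := by positivity
  have dL : 0 < 1 / L := by positivity
  have hsep0 : ∀ θ, 2 * (1 / S) ≤ |(β0 θ).1 - (ρ0 θ).1| ∨ 2 * (1 / L) ≤ |(β0 θ).2 - (ρ0 θ).2| := by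
    intro θ
    rcases sep_al hl' θ with q | q
    · left
      rw [show (β0 θ).1 - (ρ0 θ).1 = -2 * pr θ / S by simp only [β0, ρ0]; ring, abs_div,
        abs_of_pos hS0, abs_mul, q, mul_one_div]
      exact div_le_div_of_nonneg_right (by norm_num) hS0.le
    · right
      rw [show (β0 θ).2 - (ρ0 θ).2 = (2 * π * gg l (2 * θ - 1) - 2 * π * gg l (2 * θ)) / L by
        simp only [β0, ρ0]; ring, abs_div, abs_of_pos hL0, mul_one_div]
      exact div_le_div_of_nonneg_right q hL0.le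
  refine link ha hb' (fun x hx => (hab x hx).1) cβ cρ (hext _ hβ0) (δ₁ := 1 / S) (δ₂ := 1 / L)
    (fun η hη => ?_) dS dL
    (hm_push ha cβ (hext _ hβ0) dS dL a1 (fun ζ η p q hx => ?_) hη0
      (mdl_PM (by rw [abs_lt]; constructor <;> linarith) (by linarith)) hA)
    (hm_push hb' cρ (hext _ hρ0) dS dL b1 (fun ζ η p q hx => ?_) hη0
      (mdl_PM (by rw [abs_lt]; constructor <;> linarith) (by linarith)) hB) ?_
  · obtain ⟨θ, -, e1, e2, -⟩ := hcase η hη
    rw [e1, e2]; exact hsep0 θ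
  · obtain ⟨θ, e0, e1, -, -⟩ := hcase η q
    obtain ⟨r1, r2⟩ := (hab _ (nE _ _ p q.le)).2.1 hx
    rw [e1]
    rcases hwin ζ η θ p e0 r1 with r | r
    · linarith [r.1]
    · exact r.2
  · obtain ⟨θ, e0, -, e1, -⟩ := hcase η q
    obtain ⟨r1, r2⟩ := (hab _ (nE _ _ p q.le)).2.2.1 hx
    rw [e1]
    rcases hwin ζ η θ p e0 r1 with r | r
    · exact r.2
    · linarith [r.1]
  · refine Hm.segment (by fun_prop) (by fun_prop) fun η hη μ hμ hx => ?_
    obtain ⟨θ, -, e1, e2, c⟩ := hcase η hη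
    have hre := congrArg Complex.re hx
    have him := congrArg Complex.im hx
    rw [e1, e2] at hre him
    simp only [add_re, re_ofReal_mul, zero_re, add_im, im_ofReal_mul, zero_im, lin_re, lin_im,
      neg_mul, neg_re, neg_im, I_mul_re, I_mul_im, Prod.fst_sub, Prod.snd_sub, neg_neg] at hre him
    have hμ1 : 0 ≤ 1 - μ := by linarith [hμ.2]
    have d1 : (β0 θ).1 - (ρ0 θ).1 = -2 * pr θ / S := by simp only [β0, ρ0]; ring
    have d2 : (β0 θ).2 - (ρ0 θ).2 = 2 * π * (gg l (2 * θ - 1) - gg l (2 * θ)) / L := by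
      simp only [β0, ρ0]; ring
    have hμ0 : μ ≠ 0 := by
      rintro rfl
      simp only [sub_zero, one_mul, zero_mul, add_zero, neg_eq_zero] at hre him
      rcases hsep0 θ with q | q
      · rw [him, abs_zero] at q; linarith
      · rw [hre, abs_zero] at q; linarith
    have hμp : 0 < μ := lt_of_le_of_ne hμ.1 hμ0.symm
    rcases c with ⟨c1, c2⟩ | ⟨c1, c2⟩
    · rcases lt_trichotomy η.1 0 with q | q | q
      · have : 0 ≤ (β0 θ).2 - (ρ0 θ).2 := by
          rw [d2, gg_left l (by linarith)]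
          have := gg_le_one (l := l) (by linarith) (2 * θ)
          exact div_nonneg (mul_nonneg (by positivity) (by linarith)) hL0.le
        nlinarith [mul_nonneg hμ1 this, mul_pos hμp (neg_pos.2 q)]
      · have : (β0 θ).1 - (ρ0 θ).1 ≤ 0 := by
          rw [d1, c2, q, zero_add, pr_half]
          exact div_nonpos_of_nonpos_of_nonneg (by norm_num) hS0.le
        rw [c1] at him
        nlinarith [mul_nonneg hμ1 (neg_nonneg.2 this)]
      · have : (β0 θ).2 - (ρ0 θ).2 ≤ 0 := by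
          rw [d2, gg_right l (x := 2 * θ) (by linarith)]
          have := gg_le_one (l := l) (by linarith) (2 * θ - 1)
          exact div_nonpos_of_nonpos_of_nonneg
            (mul_nonpos_of_nonneg_of_nonpos (by positivity) (by linarith)) hL0.le
        nlinarith [mul_nonneg hμ1 (neg_nonneg.2 this), mul_pos hμp q]
    · have p1 : 0 ≤ (β0 θ).1 - (ρ0 θ).1 := by
        rw [d1, c1, pr_zero]; exact div_nonneg (by norm_num) hS0.le
      have p2 : (β0 θ).2 - (ρ0 θ).2 = 0 := by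
        rw [d2, c1, gg_left l (by norm_num), gg_left l (by norm_num)]; simp
      rcases c2 with c2 | c2
      · rw [c2] at him; nlinarith [mul_nonneg hμ1 p1]
      · rw [p2, mul_zero, zero_add, mul_eq_zero, neg_eq_zero] at hre
        rw [hre.resolve_left hμ0] at c2; simp at c2

open unitInterval in
theorem raw_nontriv {l : ℝ} (hl : 0 < l) (hl' : l ≤ 1 / 2) (hW : Win l) {T M : ℝ} {a : XX T M}
    (α : Path a a) (hα : ∀ θ t, (α θ).1 t = al l θ t) : ¬ α.Homotopic (Path.refl a) := by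
  rintro ⟨H⟩
  let j : ℝ → I := fun x => projIcc 0 1 zero_le_one ((x + 1) / 2)
  have hj : Continuous j := continuous_projIcc.comp (by fun_prop)
  have j0 : j (-1) = 0 := by simp [j]
  have j1 : j 1 = 1 := by simp [j]
  have ha : ∀ t, a.1 t = al l 0 t := fun t => by simpa using hα 0 t
  refine fam_false hl hl' hW (T := T) (M := M) (fun η t => (H (j η.2, j η.1)).1 t) ?_
    (fun η => (H _).2.1) (fun η => (H _).2.2.1) (fun η => (H _).2.2.2.1) (fun η => (H _).2.2.2.2)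
    (fun η hη c => ?_) (fun η hη c => ?_)
  · have : Continuous fun η : ℝ × ℝ => (H (j η.2, j η.1)).1 :=
      continuous_subtype_val.comp (H.continuous.comp (by fun_prop))
    fun_prop
  · funext t
    have q := abs_le.1 (norm2_le.1 hη).1
    have e : H (0, j η.1) = α (j η.1) := H.toHomotopy.apply_zero _
    rw [c, j0, e, hα]
    congr 1
    simp only [j]
    rw [projIcc_of_mem _ ⟨by linarith, by linarith⟩]
  · funext t
    have e : H (j η.2, j η.1) = a := by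
      rcases c with c | c
      · rw [c, j1]; exact H.toHomotopy.apply_one _
      · rcases (abs_eq (zero_le_one' ℝ)).1 c with c | c
        · rw [c, j1, H.target]
        · rw [c, j0, H.source]
    rw [e, ha]

end Pool.Agent.MP_b8ade4_gt

end MrgPart5

-- marker of a merged file
example : 731051 + 72189 = 731051 + 72189 := rfl
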