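import Mathlib.Topology.Instances.ENat
import Mathlib.AlgebraicTopology.FundamentalGroupoid.SimplyConnected
import Mathlib.Analysis.Convex.Contractible
import Mathlib.Analysis.Calculus.Deriv.Prod
import Mathlib.Order.CompletePartialOrder
import Pool.Agent.MP_b8ade4_gt.BEmb
import Pool.Agent.MP_b8ade4_gt.Defs
import Pool.Agent.MP_b8ade4_gt.Nontriv

-- ======== part 0: formerly Pool.Agent.MP_b8ade4_gt.CMol
section MrgPart0

/-!
Mollification of compact families of continuous derivative functions.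
-/

namespace Pool.Agent.MP_b8ade4_gt

open Set Filter Topology MeasureTheory Metric

variable {P : Type*} [TopologicalSpace P]

/-- convolution with a real kernel -/
noncomputable def cv (g : ℝ → ℝ) (u : ℝ → ℂ) : ℝ → ℂ :=
  convolution g u (ContinuousLinearMap.lsmul ℝ ℝ) volume

theorem cv_eq (g : ℝ → ℝ) (u : ℝ → ℂ) (t : ℝ) : cv g u t = ∫ σ, g σ • u (t - σ) := rfl

theorem cv_shift (g : ℝ → ℝ) (u : ℝ → ℂ) (c t : ℝ) :
    cv g (fun τ => u (τ + c)) t = cv g u (t + c) := by
  simp only [cv_eq]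
  congr 1; funext σ; congr 2; ring

theorem cv_congr {g : ℝ → ℝ} (hg : ∀ σ, 1 < |σ| → g σ = 0) {u v : ℝ → ℂ} {t : ℝ}
    (h : ∀ τ, |τ - t| ≤ 1 → u τ = v τ) : cv g u t = cv g v t := by
  simp only [cv_eq]
  congr 1; funext σ
  by_cases hσ : 1 < |σ|
  · simp [hg σ hσ]
  · rw [h (t - σ) (by rw [sub_sub_cancel_left, abs_neg]; exact not_lt.1 hσ)]

theorem SC_cv {g : ℝ → ℝ} (hg : ContDiff ℝ (⊤ : ℕ∞) g) (hg0 : ∀ σ, 1 < |σ| → g σ = 0)
    {u : P → ℝ → ℂ} (hu : Continuous fun q : P × ℝ => u q.1 q.2) : SC fun p => cv g (u p) := by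
  have hc : ∀ {g : ℝ → ℝ}, Continuous g → (∀ σ, 1 < |σ| → g σ = 0) →
      Continuous fun q : P × ℝ => cv g (u q.1) q.2 := by
    intro g hg hg0
    have : (fun q : P × ℝ => cv g (u q.1) q.2) =
        fun q => ∫ σ in (-2 : ℝ)..2, g σ • u q.1 (q.2 - σ) := by
      funext q
      rw [cv_eq, intervalIntegral.integral_eq_integral_of_support_subset]
      intro σ hσ
      by_contra h
      refine hσ ?_
      have : 1 < |σ| := by
        rcases not_and_or.1 h with h | h
        · exact lt_abs.2 (Or.inr (by linarith [not_lt.1 h]))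
        · exact lt_abs.2 (Or.inl (by linarith [not_le.1 h]))
      simp [hg0 σ this]
    rw [this]
    refine continuous_param (f := fun (q : P × ℝ) σ => g σ • u q.1 (q.2 - σ)) ?_
      continuous_const continuous_const
    exact (hg.comp continuous_snd).smul
      (hu.comp (by fun_prop : Continuous fun q : (P × ℝ) × ℝ => (q.1.1, q.1.2 - q.2)))
  intro n
  induction n generalizing g with
  | zero => exact hc hg.continuous hg0
  | succ n ih =>
    have hs : HasCompactSupport g := by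
      refine HasCompactSupport.intro (isCompact_Icc (a := -1) (b := 1)) fun σ hσ => hg0 σ ?_
      rcases not_and_or.1 hσ with h | h
      · exact lt_abs.2 (Or.inr (by linarith [not_le.1 h]))
      · exact lt_abs.2 (Or.inl (by linarith [not_le.1 h]))
    have hd : ContDiff ℝ (⊤ : ℕ∞) (deriv g) := by
      rw [show ((⊤ : ℕ∞) : WithTop ℕ∞) = (⊤ : ℕ∞) + 1 from rfl, contDiff_succ_iff_deriv] at hg
      exact hg.2.2
    have hd0 : ∀ σ, 1 < |σ| → deriv g σ = 0 := by
      intro σ hσ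
      have : g =ᶠ[𝓝 σ] fun _ => 0 := by
        filter_upwards [(isOpen_lt continuous_const continuous_abs).mem_nhds hσ] with x hx
        exact hg0 x hx
      rw [this.deriv_eq, deriv_const]
    refine SCn.mk' (f' := fun p => cv (deriv g) (u p)) (hc hg.continuous hg0) (fun p t => ?_)
      (ih hd hd0)
    exact hs.hasDerivAt_convolution_left _ (hg.of_le (by exact_mod_cast le_top))
      (hu.comp (Continuous.prodMk_right p)).locallyIntegrable t

/-- a smooth probability kernel supported in a ball of radius `δ` -/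
def Ker (δ : ℝ) (g : ℝ → ℝ) : Prop :=
  ContDiff ℝ (⊤ : ℕ∞) g ∧ Function.support g ⊆ ball 0 δ ∧ (∀ σ, 0 ≤ g σ) ∧ ∫ σ, g σ = 1

theorem exists_ker {δ : ℝ} (hδ : 0 < δ) : ∃ g, Ker δ g := by
  let φ : ContDiffBump (0 : ℝ) := ⟨δ / 2, δ, by linarith, by linarith⟩
  exact ⟨φ.normed volume, φ.contDiff_normed, φ.support_normed_eq.subset, φ.nonneg_normed,
    φ.integral_normed⟩

theorem Ker.zero {δ : ℝ} {g : ℝ → ℝ} (h : Ker δ g) (hδ : δ ≤ 1) (σ : ℝ) (hσ : 1 < |σ|) :
    g σ = 0 := by
  by_contra h0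
  have := h.2.1 h0
  rw [mem_ball_zero_iff, Real.norm_eq_abs] at this
  linarith

theorem Ker.dist_le {δ : ℝ} {g : ℝ → ℝ} (h : Ker δ g) {u : ℝ → ℂ} (hu : Continuous u) {t ε : ℝ}
    {z : ℂ} (hε : 0 ≤ ε) (hz : ∀ τ, |τ - t| < δ → ‖u τ - z‖ ≤ ε) : ‖cv g u t - z‖ ≤ ε := by
  rw [← dist_eq_norm]
  refine dist_convolution_le hε h.2.1 h.2.2.1 h.2.2.2 hu.aestronglyMeasurable fun x hx => ?_
  rw [dist_eq_norm]
  exact hz x (by simpa [Real.dist_eq] using hx)

/-- the working class of derivative functions -/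
structure Gd (u : ℝ → ℂ) (m B : ℝ) : Prop where
  cont : Continuous u
  ne : ∀ t, u t ≠ 0
  emb : Emb u
  one : ∀ t, m ≤ |t| → u t = 1
  dev : Dev u B
  slow : (W u (-m) m).re ≤ 2 * m

theorem W_re {u : ℝ → ℂ} (hu : Continuous u) (s t : ℝ) :
    (W u s t).re = ∫ τ in s..t, (u τ).re :=
  (Complex.reCLM.intervalIntegral_comp_comm (hu.intervalIntegrable s t)).symm

theorem W_im {u : ℝ → ℂ} (hu : Continuous u) (s t : ℝ) :
    (W u s t).im = ∫ τ in s..t, (u τ).im :=
  (Complex.imCLM.intervalIntegral_comp_comm (hu.intervalIntegrable s t)).symm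

theorem W_re_pos {u : ℝ → ℂ} (hu : Continuous u) {s t : ℝ} (hst : s < t)
    (h : ∀ τ ∈ Icc s t, 0 < (u τ).re) : 0 < (W u s t).re := by
  rw [W_re hu]
  exact intervalIntegral.intervalIntegral_pos_of_pos_on
    ((Complex.continuous_re.comp hu).intervalIntegrable s t)
    (fun τ hτ => h τ (Ioo_subset_Icc_self hτ)) hst

theorem W_re_le {u : ℝ → ℂ} (hu : Continuous u) {s t : ℝ} (hst : s ≤ t)
    (h : ∀ τ ∈ Icc s t, (u τ).re ≤ 1) : (W u s t).re ≤ t - s := by
  rw [W_re hu]
  simpa using int_norm_le (Complex.continuous_re.comp hu) hst h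

/-- functions uniformly close to a compact good family are good -/
theorem near_good {X : Type*} [TopologicalSpace X] [CompactSpace X] {x : X → ℝ → ℂ} {m B : ℝ}
    (hm : 0 ≤ m) (hx : Continuous fun q : X × ℝ => x q.1 q.2) (he : ∀ a, Emb (x a))
    (hL : ∀ a, L1 (x a) B) (h1 : ∀ a t, m ≤ |t| → x a t = 1) :
    ∃ η > 0, ∀ a (v : ℝ → ℂ), Continuous v → (∀ t, ‖v t - x a t‖ ≤ η) → (∀ t, ‖v t‖ ≤ 1) →
      (∀ t, m + 1 ≤ |t| → v t = 1) → Gd v (m + 1) (B + 1) := by
  have hx0 : ∀ a t, x a t ≠ 0 := fun a t h => by simpa [h] using (hL a).2.1 t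
  obtain ⟨η, hη, hs⟩ := stab hx hx0 (m + |B| + 2) (Ω := {z | z.2.2.2 ≠ 0})
    (isOpen_ne_fun (by fun_prop) continuous_const) fun a s t _ hst _ h => he a s t hst h
  have hm2 : 0 < 2 * (m + 1) := by linarith
  refine ⟨min η (1 / (2 * (m + 1))), lt_min hη (by positivity), fun a v hv hva hv1 hv' => ?_⟩
  have hxa : Continuous (x a) := (hL a).1
  have hdev : Dev v (B + 1) := by
    intro s t hst
    have h2 := (hL a).dev s t hst
    have h3 := W_sub_le hxa hv hst le_rfl
    have h4 : ∫ σ in s..t, ‖v σ - x a σ‖ ≤ ∫ σ in (-(m + 1))..(m + 1), ‖v σ - x a σ‖ := by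
      have hc : Continuous fun σ => ‖v σ - x a σ‖ := (hv.sub hxa).norm
      have hsup : Function.support (fun σ => ‖v σ - x a σ‖) ⊆ Ioc (-(m + 1)) (m + 1) := by
        intro σ hσ
        by_contra h
        refine hσ ?_
        have : m + 1 ≤ |σ| := by
          rcases not_and_or.1 h with h | h
          · exact le_abs.2 (Or.inr (by linarith [not_lt.1 h]))
          · exact le_abs.2 (Or.inl (by linarith [not_le.1 h]))
        simp [hv' σ this, h1 a σ (by linarith)]
      rw [intervalIntegral.integral_eq_integral_of_support_subset hsup,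
        intervalIntegral.integral_of_le hst]
      refine setIntegral_le_integral ?_ (Eventually.of_forall fun σ => norm_nonneg _)
      exact hc.integrable_of_hasCompactSupport (HasCompactSupport.intro isCompact_Icc
        fun σ hσ => by
          by_contra h
          exact hσ (Ioc_subset_Icc_self (hsup h)))
    have h5 := int_norm_le (hv.sub hxa).norm (by linarith : -(m + 1) ≤ m + 1)
      fun σ _ => (hva σ).trans (min_le_right _ _)
    have h6 : 1 / (2 * (m + 1)) * (m + 1 - -(m + 1)) = 1 := by field_simp; ring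
    have h7 := (abs_le.1 ((Complex.abs_re_le_norm _).trans (h3.trans (h4.trans h5)))).1
    rw [Complex.sub_re, h6] at h7
    linarith
  have hB := le_abs_self B
  have hB0 := abs_nonneg B
  refine ⟨hv, fun t => ?_, fun s t hst h => ?_, hv', hdev, ?_⟩
  · by_cases ht : m + 1 ≤ |t|
    · rw [hv' t ht]; exact one_ne_zero
    · exact (hs a v hv).1 t (by linarith [not_le.1 ht]) ((hva t).trans (min_le_left _ _))
  · have hre : (W v s t).re = 0 := by rw [h]; rfl
    have hs1 : s < m + 1 := by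
      by_contra hs1
      have := W_re_pos hv hst fun τ hτ => by
        rw [hv' τ (le_abs.2 (Or.inl (by linarith [hτ.1, not_lt.1 hs1])))]; exact one_pos
      linarith
    have ht1 : -(m + 1) < t := by
      by_contra ht1
      have := W_re_pos hv hst fun τ hτ => by
        rw [hv' τ (le_abs.2 (Or.inr (by linarith [hτ.2, not_lt.1 ht1])))]; exact one_pos
      linarith
    have := hdev s t hst.le
    exact (hs a v hv).2 s t (by linarith) hst (by linarith)
      (fun τ _ => (hva τ).trans (min_le_left _ _)) h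
  · have := W_re_le hv (by linarith : -(m + 1) ≤ m + 1)
      fun τ _ => (Complex.re_le_norm _).trans (hv1 τ)
    linarith

/-- mollification (and the segment joining a function to its mollification) keeps a compact
family good -/
theorem moll_gd {X : Type*} [TopologicalSpace X] [CompactSpace X] {x : X → ℝ → ℂ} {m B : ℝ}
    (hm : 0 ≤ m) (hx : Continuous fun q : X × ℝ => x q.1 q.2) (he : ∀ a, Emb (x a))
    (hL : ∀ a, L1 (x a) B) (h1 : ∀ a t, m ≤ |t| → x a t = 1) :
    ∃ δ > 0, ∀ δ' g, δ' ≤ δ → δ' ≤ 1 → Ker δ' g → ∀ a (τ : ℝ), 0 ≤ τ → τ ≤ 1 →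
      Gd (fun t => (1 - τ : ℝ) * x a t + τ * cv g (x a) t) (m + 1) (B + 1) := by
  obtain ⟨η, hη, h⟩ := near_good hm hx he hL h1
  obtain ⟨δ, hδ, hu⟩ := fam_unif hx (m + 1) hη
  refine ⟨δ, hδ, fun δ' g hδ' hδ1 hg a τ h0 hτ => ?_⟩
  have hxa : Continuous (x a) := (hL a).1
  have hout : ∀ t, m + 1 ≤ |t| → cv g (x a) t = 1 := by
    intro t ht
    have := hg.dist_le hxa (t := t) (z := 1) le_rfl fun σ hσ => by
      rw [h1 a σ (by linarith [abs_sub_abs_le_abs_sub t σ, abs_sub_comm t σ])]; simp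
    exact sub_eq_zero.1 (norm_le_zero_iff.1 this)
  have hcv : Continuous (cv g (x a)) :=
    (SC_cv (P := Unit) hg.1 (hg.zero hδ1) (u := fun _ => x a) (hxa.comp continuous_snd)).cont1 ()
  have hnear : ∀ t, ‖cv g (x a) t - x a t‖ ≤ η := by
    intro t
    by_cases ht : m + 1 ≤ |t|
    · rw [hout t ht, h1 a t (by linarith)]; simpa using hη.le
    · have := abs_lt.1 (not_le.1 ht)
      exact hg.dist_le hxa hη.le fun σ hσ => hu a t σ this.1.le this.2.le (by linarith)
  have hn1 : ∀ t, ‖cv g (x a) t‖ ≤ 1 := fun t => by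
    simpa using hg.dist_le hxa (t := t) (z := 0) zero_le_one fun σ _ => by
      simp [(hL a).2.1 σ]
  refine h a _ (by fun_prop) (fun t => ?_) (fun t => ?_) fun t ht => ?_
  · have : ((1 - τ : ℝ) : ℂ) * x a t + τ * cv g (x a) t - x a t = τ * (cv g (x a) t - x a t) := by
      push_cast; ring
    rw [this, norm_mul, Complex.norm_real, Real.norm_of_nonneg h0]
    nlinarith [hnear t, norm_nonneg (cv g (x a) t - x a t)]
  · refine (norm_add_le _ _).trans ?_
    rw [norm_mul, norm_mul, Complex.norm_real, Complex.norm_real, Real.norm_of_nonneg h0,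
      Real.norm_of_nonneg (by linarith), (hL a).2.1 t]
    nlinarith [hn1 t]
  · rw [hout t ht, h1 a t (by linarith)]; push_cast; ring

end Pool.Agent.MP_b8ade4_gt

end MrgPart0

-- ======== part 1: formerly Pool.Agent.MP_b8ade4_gt.CTail
section MrgPart1

/-!
Straightening the right end of a curve by a tail which is a graph over the x-axis.
-/

namespace Pool.Agent.MP_b8ade4_gt

open Set Filter Topology MeasureTheory

variable {P : Type*} [TopologicalSpace P]

noncomputable def s1 : ℝ → ℝ := deriv Real.smoothTransition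
noncomputable def s2 : ℝ → ℝ := deriv s1

theorem smooth_deriv {g : ℝ → ℝ} (hg : ContDiff ℝ (⊤ : ℕ∞) g) : ContDiff ℝ (⊤ : ℕ∞) (deriv g) := by
  rw [show ((⊤ : ℕ∞) : WithTop ℕ∞) = (⊤ : ℕ∞) + 1 from rfl, contDiff_succ_iff_deriv] at hg
  exact hg.2.2

theorem smooth_s1 : ContDiff ℝ (⊤ : ℕ∞) s1 := smooth_deriv Real.smoothTransition.contDiff
theorem smooth_s2 : ContDiff ℝ (⊤ : ℕ∞) s2 := smooth_deriv smooth_s1

theorem s1_nonneg (t : ℝ) : 0 ≤ s1 t := Real.smoothTransition.monotone.deriv_nonneg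

theorem out_open : IsOpen {t : ℝ | t < 0 ∨ 1 < t} :=
  (isOpen_lt continuous_id continuous_const).union (isOpen_lt continuous_const continuous_id)

theorem s1_zero {t : ℝ} (h : t < 0 ∨ 1 < t) : s1 t = 0 := by
  rcases h with h | h
  · have : Real.smoothTransition =ᶠ[𝓝 t] fun _ => 0 := by
      filter_upwards [Iio_mem_nhds h] with x hx using Real.smoothTransition.zero_of_nonpos hx.le
    rw [s1, this.deriv_eq, deriv_const]
  · have : Real.smoothTransition =ᶠ[𝓝 t] fun _ => 1 := by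
      filter_upwards [Ioi_mem_nhds h] with x hx using Real.smoothTransition.one_of_one_le hx.le
    rw [s1, this.deriv_eq, deriv_const]

theorem s2_zero {t : ℝ} (h : t < 0 ∨ 1 < t) : s2 t = 0 := by
  have : s1 =ᶠ[𝓝 t] fun _ => 0 := by
    filter_upwards [out_open.mem_nhds h] with x hx using s1_zero hx
  rw [s2, this.deriv_eq, deriv_const]

theorem int_deriv {g : ℝ → ℝ} (hg : ContDiff ℝ (⊤ : ℕ∞) g) (a b c : ℝ) :
    ∫ τ in a..b, deriv g (τ - c) = g (b - c) - g (a - c) := by
  rw [intervalIntegral.integral_comp_sub_right (fun τ => deriv g τ) c]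
  exact intervalIntegral.integral_deriv_eq_sub
    (fun x _ => (hg.differentiable (by simp)) x)
    ((smooth_deriv hg).continuous.intervalIntegrable _ _)

theorem W_mul_deriv {g : ℝ → ℝ} (hg : ContDiff ℝ (⊤ : ℕ∞) g) (z : ℂ) (a b c : ℝ) :
    W (fun τ => z * (deriv g (τ - c) : ℝ)) a b = z * (g (b - c) - g (a - c) : ℝ) := by
  rw [W, intervalIntegral.integral_const_mul, intervalIntegral.integral_ofReal, int_deriv hg]

theorem W_fadd {u v : ℝ → ℂ} (hu : Continuous u) (hv : Continuous v) (s t : ℝ) :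
    W (fun τ => u τ + v τ) s t = W u s t + W v s t :=
  intervalIntegral.integral_add (hu.intervalIntegrable _ _) (hv.intervalIntegrable _ _)

theorem W_cmul (z : ℂ) (u : ℝ → ℂ) (s t : ℝ) : W (fun τ => z * u τ) s t = z * W u s t :=
  intervalIntegral.integral_const_mul _ _

theorem W_one {u : ℝ → ℂ} {s t : ℝ} (hst : s ≤ t) (h : ∀ τ ∈ Icc s t, u τ = 1) :
    W u s t = (t - s : ℝ) := by
  rw [W_congr hst h, W_const, mul_one]

theorem Dev.nonneg {u : ℝ → ℂ} {B : ℝ} (h : Dev u B) : 0 ≤ B := by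
  have := h 0 0 le_rfl
  rw [W_self] at this
  simpa using this

theorem W_ext {u : ℝ → ℂ} {m : ℝ} (hu : Continuous u) (h : ∀ t, m ≤ |t| → u t = 1) {s t : ℝ}
    (hs : s ≤ -m) (ht : m ≤ t) : W u s t = W u (-m) m + (t - s - 2 * m : ℝ) := by
  rw [← W_add hu s (-m) t, ← W_add hu (-m) m t,
    W_one hs fun τ hτ => h τ (le_abs.2 (Or.inr (by linarith [hτ.2]))),
    W_one ht fun τ hτ => h τ (le_abs.2 (Or.inl hτ.1))]
  push_cast; ring

theorem Gd.mono {u : ℝ → ℂ} {m B K C : ℝ} (h : Gd u m B) (hK : m ≤ K) (hC : B ≤ C) : Gd u K C := by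
  refine ⟨h.cont, h.ne, h.emb, fun t ht => h.one t (hK.trans ht),
    fun s t hst => le_trans (by linarith) (h.dev s t hst), ?_⟩
  rw [W_ext h.cont h.one (by linarith) hK, Complex.add_re, Complex.ofReal_re]
  linarith [h.slow]

noncomputable def zz (K : ℝ) (u : ℝ → ℂ) (t : ℝ) : ℝ :=
  ∫ τ in (-K)..t, (W u (-K) τ).im * (u τ).re

noncomputable def EE (K : ℝ) (u : ℝ → ℂ) : ℂ := W u (-K) K - (2 * K : ℝ)

noncomputable def u1 (K : ℝ) (u : ℝ → ℂ) (t : ℝ) : ℂ := u t + -EE K u * (s1 (t - (K - 10)) : ℝ)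

noncomputable def tail (K : ℝ) (u : ℝ → ℂ) (t : ℝ) : ℂ :=
  -EE K u * (s1 (t - (K - 10)) : ℝ) + -(Complex.I * zz K (u1 K u) K) * (s2 (t - (K - 7)) : ℝ)

noncomputable def NN (τ K : ℝ) (u : ℝ → ℂ) (t : ℝ) : ℂ := u t + τ * tail K u t

theorem NN_zero (K : ℝ) (u : ℝ → ℂ) : NN 0 K u = u := by
  funext t; simp [NN]

theorem continuous_tail (K : ℝ) (u : ℝ → ℂ) : Continuous (tail K u) := by
  have := smooth_s1.continuous
  have := smooth_s2.continuous
  unfold tail; fun_prop

theorem tail_zero {K t : ℝ} (u : ℝ → ℂ) (h : t < K - 10 ∨ K - 6 < t) : tail K u t = 0 := by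
  rw [tail, s1_zero, s2_zero]
  · simp
  · rcases h with h | h
    · left; linarith
    · right; linarith
  · rcases h with h | h
    · left; linarith
    · right; linarith

theorem tail_re (K : ℝ) (u : ℝ → ℂ) (t : ℝ) :
    (tail K u t).re = -(EE K u).re * s1 (t - (K - 10)) := by
  simp [tail]

theorem W_tail {K : ℝ} (hK : 5 < K) (u : ℝ → ℂ) (t : ℝ) :
    W (tail K u) (-K) t = -EE K u * (Real.smoothTransition (t - (K - 10)) : ℝ) +
      -(Complex.I * zz K (u1 K u) K) * (s1 (t - (K - 7)) : ℝ) := by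
  have h1 := smooth_s1.continuous
  have h2 := smooth_s2.continuous
  unfold tail
  rw [W_fadd (by fun_prop) (by fun_prop), s1, W_mul_deriv Real.smoothTransition.contDiff, s2,
    W_mul_deriv smooth_s1, Real.smoothTransition.zero_of_nonpos (x := -K - (K - 10)) (by linarith),
    s1_zero (t := -K - (K - 7)) (Or.inl (by linarith)), sub_zero, sub_zero]
  rfl

theorem W_tail_end {K : ℝ} (hK : 5 < K) (u : ℝ → ℂ) : W (tail K u) (-K) K = -EE K u := by
  rw [W_tail hK, Real.smoothTransition.one_of_one_le (by linarith), s1_zero (Or.inr (by linarith))]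
  simp

theorem NN_re {u : ℝ → ℂ} {m B K τ : ℝ} (h : Gd u m B) (hK : m ≤ K) (h0 : 0 ≤ τ) (t : ℝ) :
    (u t).re ≤ (NN τ K u t).re := by
  have h1 : (EE K u).re ≤ 0 := by
    have := (h.mono hK le_rfl).slow
    rw [EE, Complex.sub_re, Complex.ofReal_re]; linarith
  rw [NN, Complex.add_re, Complex.re_ofReal_mul, tail_re]
  have := mul_nonneg h0 (mul_nonneg (neg_nonneg.2 h1) (s1_nonneg (t - (K - 10))))
  linarith

theorem NN_pos {u : ℝ → ℂ} {m B K τ : ℝ} (h : Gd u m B) (hK : m ≤ K) (h0 : 0 ≤ τ) (t : ℝ)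
    (ht : m ≤ |t|) : 0 < (NN τ K u t).re := by
  have := NN_re h hK h0 t
  rw [h.one t ht, Complex.one_re] at this
  linarith

theorem gd_NN {u : ℝ → ℂ} {m B K τ : ℝ} (h : Gd u m B) (hm : 0 ≤ m) (hK : m + B + 11 ≤ K)
    (h0 : 0 ≤ τ) (h1 : τ ≤ 1) : Gd (NN τ K u) K B := by
  have hB := h.dev.nonneg
  have hc : Continuous (NN τ K u) := by
    have := h.cont
    have := continuous_tail K u
    unfold NN; fun_prop
  have heq : ∀ t, t ≤ K - 11 → NN τ K u t = u t := fun t ht => by
    rw [NN, tail_zero u (Or.inl (by linarith))]; simp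
  have hdev : Dev (NN τ K u) B := by
    intro s t hst
    refine (h.dev s t hst).trans ?_
    rw [W_re h.cont, W_re hc]
    exact intervalIntegral.integral_mono_on hst
      ((Complex.continuous_re.comp h.cont).intervalIntegrable _ _)
      ((Complex.continuous_re.comp hc).intervalIntegrable _ _)
      fun σ _ => NN_re h (by linarith) h0 σ
  refine ⟨hc, fun t => ?_, fun s t hst hW => ?_, fun t ht => ?_, hdev, ?_⟩
  · by_cases ht : t ≤ K - 11
    · rw [heq t ht]; exact h.ne t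
    · intro h0'
      have := NN_pos h (by linarith : m ≤ K) h0 t (le_abs.2 (Or.inl (by linarith [not_le.1 ht])))
      rw [h0'] at this
      exact lt_irrefl _ this
  · have hre : (W (NN τ K u) s t).re = 0 := by rw [hW]; rfl
    by_cases ht : t ≤ K - 11
    · have he : ∀ σ ∈ Icc s t, NN τ K u σ = u σ := fun σ hσ => heq σ (hσ.2.trans ht)
      rw [A_congr hst.le he]
      exact h.emb s t hst (W_congr hst.le he ▸ hW)
    · exfalso
      by_cases hs : m ≤ s
      · have := W_re_pos hc hst fun σ hσ =>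
          NN_pos h (by linarith) h0 σ (le_abs.2 (Or.inl (hs.trans hσ.1)))
        linarith
      · have := hdev s t hst.le
        linarith [not_le.1 ht, not_le.1 hs]
  · rw [NN, tail_zero u, h.one t (by linarith)]
    · simp
    · rcases le_abs.1 ht with h2 | h2
      · right; linarith
      · left; linarith
  · have h2 := (h.mono (by linarith : m ≤ K) le_rfl).slow
    unfold NN
    rw [W_fadd h.cont (continuous_const.fun_mul (continuous_tail K u)), W_cmul,
      W_tail_end (by linarith), EE]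
    simp only [Complex.add_re, Complex.re_ofReal_mul, Complex.neg_re, Complex.sub_re,
      Complex.ofReal_re]
    nlinarith

theorem NN_closed {u : ℝ → ℂ} {m B K : ℝ} (h : Gd u m B) (hm : 0 ≤ m) (hK : m + 11 ≤ K) :
    W (NN 1 K u) (-K) K = (2 * K : ℝ) ∧ zz K (NN 1 K u) K = 0 := by
  have hs1 := smooth_s1.continuous
  have hu := h.cont
  have hc1 : Continuous (u1 K u) := by unfold u1; fun_prop
  have hW : ∀ t, W (NN 1 K u) (-K) t = W u (-K) t + W (tail K u) (-K) t := fun t => by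
    unfold NN
    rw [W_fadd h.cont (continuous_const.fun_mul (continuous_tail K u)), W_cmul]; simp
  refine ⟨by rw [hW, W_tail_end (by linarith), EE]; ring, ?_⟩
  have hW1 : ∀ t, W (u1 K u) (-K) t =
      W u (-K) t + -EE K u * (Real.smoothTransition (t - (K - 10)) : ℝ) := fun t => by
    unfold u1
    rw [W_fadd hu (by fun_prop), s1, W_mul_deriv Real.smoothTransition.contDiff,
      Real.smoothTransition.zero_of_nonpos (x := -K - (K - 10)) (by linarith), sub_zero]
  have key : ∀ t, (W (NN 1 K u) (-K) t).im * (NN 1 K u t).re =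
      (W (u1 K u) (-K) t).im * (u1 K u t).re - zz K (u1 K u) K * s1 (t - (K - 7)) := by
    intro t
    have e1 : (NN 1 K u t).re = (u1 K u t).re := by simp [NN, u1, tail]
    have e2 : (W (NN 1 K u) (-K) t).im =
        (W (u1 K u) (-K) t).im - zz K (u1 K u) K * s1 (t - (K - 7)) := by
      rw [hW, W_tail (by linarith), hW1]; simp; ring
    rw [e1, e2]
    by_cases ht : t < K - 7
    · rw [s1_zero (t := t - (K - 7)) (Or.inl (by linarith))]; ring
    · have : u1 K u t = 1 := by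
        rw [u1, h.one t (le_abs.2 (Or.inl (by linarith [not_lt.1 ht]))),
          s1_zero (Or.inr (by linarith [not_lt.1 ht]))]
        simp
      rw [this, Complex.one_re]; ring
  have hcW := continuous_W_right hc1 (-K)
  rw [zz]
  simp_rw [key]
  rw [intervalIntegral.integral_sub (Continuous.intervalIntegrable (by fun_prop) _ _)
    (Continuous.intervalIntegrable (by fun_prop) _ _), intervalIntegral.integral_const_mul, s1,
    int_deriv Real.smoothTransition.contDiff, Real.smoothTransition.one_of_one_le (by linarith),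
    Real.smoothTransition.zero_of_nonpos (x := -K - (K - 7)) (by linarith), zz]
  ring

theorem NN_of_closed {u : ℝ → ℂ} {K : ℝ} (h1 : W u (-K) K = (2 * K : ℝ)) (h2 : zz K u K = 0)
    (τ : ℝ) : NN τ K u = u := by
  have e1 : EE K u = 0 := by rw [EE, h1, sub_self]
  have e2 : u1 K u = u := by funext t; simp [u1, e1]
  funext t
  simp [NN, tail, e1, e2, h2]

/-- concatenation in the working class -/
theorem gd_glue {u v : ℝ → ℂ} {K B C r : ℝ} (hu : Gd u K B) (hv : Gd v K C) (hK : 0 ≤ K)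
    (hr : B + C < 2 * (r - K)) : Gd (fun t => u (t + r) * v (t - r)) (r + K) (B + C) := by
  have hB := hu.dev.nonneg
  have hC := hv.dev.nonneg
  have hcu : Continuous fun t => u (t + r) := hu.cont.comp (by fun_prop)
  have hcv : Continuous fun t => v (t + -r) := hv.cont.comp (by fun_prop)
  have hu1 : ∀ τ, K - r ≤ τ → u (τ + r) = 1 := fun τ hτ =>
    hu.one _ (le_abs.2 (Or.inl (by linarith)))
  have hv1 : ∀ τ, τ ≤ r - K → v (τ + -r) = 1 := fun τ hτ =>
    hv.one _ (le_abs.2 (Or.inr (by linarith)))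
  have hdu : Dev (fun t => u (t + r)) B := fun s t hst => by
    have := hu.dev (s + r) (t + r) (by linarith)
    rw [W_shift]; linarith
  have hdv : Dev (fun t => v (t + -r)) C := fun s t hst => by
    have := hv.dev (s + -r) (t + -r) (by linarith)
    rw [W_shift]; linarith
  have hL : ∀ s t, s ≤ t → t ≤ 0 →
      W (fun t => u (t + r) * v (t + -r)) s t = W (fun t => u (t + r)) s t := fun s t hst ht =>
    W_congr hst fun τ hτ => by rw [hv1 τ (by linarith [hτ.2]), mul_one]
  have hR : ∀ s t, s ≤ t → 0 ≤ s →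
      W (fun t => u (t + r) * v (t + -r)) s t = W (fun t => v (t + -r)) s t := fun s t hst hs =>
    W_congr hst fun τ hτ => by rw [hu1 τ (by linarith [hτ.1]), one_mul]
  simp only [sub_eq_add_neg]
  refine ⟨hcu.mul hcv, fun t => mul_ne_zero (hu.ne _) (hv.ne _), fun s t hst h => ?_,
    fun t ht => ?_, fun s t hst => ?_, ?_⟩
  · rcases concat hcu hcv hdu hdv hu1 hv1 (by linarith) (by linarith) hst h with h | h
    · rw [h.2, A_shift]
      exact hu.emb _ _ (by linarith) (W_shift u r s t ▸ h.1)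
    · rw [h.2, A_shift]
      exact hv.emb _ _ (by linarith) (W_shift v (-r) s t ▸ h.1)
  · rcases le_abs.1 ht with h | h
    · rw [hu1 t (by linarith), hv.one _ (le_abs.2 (Or.inl (by linarith))), one_mul]
    · rw [hv1 t (by linarith), hu.one _ (le_abs.2 (Or.inr (by linarith))), one_mul]
  · by_cases ht : t ≤ 0
    · rw [hL s t hst ht]; linarith [hdu s t hst]
    · by_cases hs : 0 ≤ s
      · rw [hR s t hst hs]; linarith [hdv s t hst]
      · rw [← W_add (hcu.fun_mul hcv) s 0 t, Complex.add_re, hL s 0 (not_le.1 hs).le le_rfl,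
          hR 0 t (not_le.1 ht).le le_rfl]
        linarith [hdu s 0 (not_le.1 hs).le, hdv 0 t (not_le.1 ht).le]
  · rw [← W_add (hcu.fun_mul hcv) _ 0 _, Complex.add_re, hL _ 0 (by linarith) le_rfl,
      hR 0 _ (by linarith) le_rfl, W_shift, W_shift,
      W_ext hu.cont hu.one (by linarith) (by linarith),
      W_ext hv.cont hv.one (by linarith) (by linarith)]
    simp only [Complex.add_re, Complex.ofReal_re]
    linarith [hu.slow, hv.slow]

theorem cont_EE {u : P → ℝ → ℂ} (hu : Continuous fun q : P × ℝ => u q.1 q.2) (K : ℝ) :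
    Continuous fun p => EE K (u p) :=
  ((continuous_W hu).comp (by fun_prop : Continuous fun p : P => (p, -K, K))).sub continuous_const

theorem cont_ZZ {u : P → ℝ → ℂ} (hu : Continuous fun q : P × ℝ => u q.1 q.2) (K : ℝ) :
    Continuous fun p => zz K (u1 K (u p)) K := by
  have h1 := smooth_s1.continuous
  have h2 := cont_EE hu K
  have h3 : Continuous fun q : P × ℝ => u1 K (u q.1) q.2 :=
    hu.add ((h2.comp continuous_fst).neg.mul (by fun_prop))
  have h4 := (continuous_W (x := fun p => u1 K (u p)) h3).comp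
    (by fun_prop : Continuous fun q : P × ℝ => (q.1, -K, q.2))
  exact continuous_param (f := fun p τ => (W (u1 K (u p)) (-K) τ).im * (u1 K (u p) τ).re)
    ((Complex.continuous_im.comp h4).mul (Complex.continuous_re.comp h3))
    continuous_const continuous_const

theorem cont_NN {u : P → ℝ → ℂ} (hu : Continuous fun q : P × ℝ => u q.1 q.2) (K : ℝ)
    {τ : P → ℝ} (hτ : Continuous τ) : Continuous fun q : P × ℝ => NN (τ q.1) K (u q.1) q.2 := by
  have h1 := smooth_s1.continuous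
  have h1' := smooth_s2.continuous
  have h2 := cont_EE hu K
  have h3 := cont_ZZ hu K
  refine hu.add (Continuous.mul (by fun_prop) (Continuous.add ?_ ?_))
  · exact (h2.comp continuous_fst).neg.mul (by fun_prop)
  · exact (continuous_const.mul
      (Complex.continuous_ofReal.comp (h3.comp continuous_fst))).neg.mul (by fun_prop)

theorem SC_NN {u : P → ℝ → ℂ} (hu : SC u) (K : ℝ) {τ : P → ℝ} (hτ : Continuous τ) :
    SC fun p => NN (τ p) K (u p) := by
  have h2 := cont_EE hu.cont K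
  have h3 := cont_ZZ hu.cont K
  have k1 : SC fun (_ : P) t => ((s1 (t - (K - 10)) : ℝ) : ℂ) :=
    (SC.fixed (smooth_s1.comp (contDiff_id.sub contDiff_const))).ofReal
  have k2 : SC fun (_ : P) t => ((s2 (t - (K - 7)) : ℝ) : ℂ) :=
    (SC.fixed (smooth_s2.comp (contDiff_id.sub contDiff_const))).ofReal
  exact hu.add ((SC.const (Complex.continuous_ofReal.comp hτ)).mul
    (((SC.const h2.neg).mul k1).add ((SC.const
      (continuous_const.mul (Complex.continuous_ofReal.comp h3)).neg).mul k2)))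

end Pool.Agent.MP_b8ade4_gt

end MrgPart1

-- ======== part 2: formerly Pool.Agent.MP_b8ade4_gt.CLeg
section MrgPart2

/-!
Legendrian lifts of derivative functions and continuity into the space of long embeddings.
-/

namespace Pool.Agent.MP_b8ade4_gt

open Set Filter Topology MeasureTheory

variable {P : Type*} [TopologicalSpace P]

/-- the Legendrian curve with Lagrangian velocity `u` through `(-K, 0, 0)` -/
noncomputable def Leg (K : ℝ) (u : ℝ → ℂ) (t : ℝ) : ℝ × ℝ × ℝ :=
  (-K + (W u (-K) t).re, (W u (-K) t).im, zz K u t)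

/-- `γ` is Legendrian with Lagrangian velocity `u` -/
def IsLeg (γ : ℝ → ℝ × ℝ × ℝ) (u : ℝ → ℂ) : Prop :=
  ∀ t, HasDerivAt γ ((u t).re, (u t).im, (γ t).2.1 * (u t).re) t

theorem hasDerivAt_W {u : ℝ → ℂ} (hu : Continuous u) (s t : ℝ) : HasDerivAt (W u s) (u t) t :=
  (hu.integral_hasStrictDerivAt s t).hasDerivAt

theorem hasDerivAt_re {f : ℝ → ℂ} {f' : ℂ} {t : ℝ} (h : HasDerivAt f f' t) :
    HasDerivAt (fun t => (f t).re) f'.re t := Complex.reCLM.hasFDerivAt.comp_hasDerivAt t h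

theorem hasDerivAt_im {f : ℝ → ℂ} {f' : ℂ} {t : ℝ} (h : HasDerivAt f f' t) :
    HasDerivAt (fun t => (f t).im) f'.im t := Complex.imCLM.hasFDerivAt.comp_hasDerivAt t h

theorem isLeg_Leg {u : ℝ → ℂ} (hu : Continuous u) (K : ℝ) : IsLeg (Leg K u) u := by
  intro t
  have hW := continuous_W_right hu (-K)
  have h3 : Continuous fun τ => (W u (-K) τ).im * (u τ).re := by fun_prop
  exact ((hasDerivAt_re (hasDerivAt_W hu (-K) t)).const_add (-K)).prodMk
    ((hasDerivAt_im (hasDerivAt_W hu (-K) t)).prodMk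
      (h3.integral_hasStrictDerivAt (-K) t).hasDerivAt)

namespace IsLeg

variable {γ : ℝ → ℝ × ℝ × ℝ} {u : ℝ → ℂ}

theorem cont (h : IsLeg γ u) : Continuous γ :=
  continuous_iff_continuousAt.2 fun t => (h t).continuousAt

theorem dx (h : IsLeg γ u) (t : ℝ) : HasDerivAt (fun t => (γ t).1) (u t).re t :=
  (ContinuousLinearMap.fst ℝ ℝ (ℝ × ℝ)).hasFDerivAt.comp_hasDerivAt t (h t)

theorem dyz (h : IsLeg γ u) (t : ℝ) :
    HasDerivAt (fun t => (γ t).2) ((u t).im, (γ t).2.1 * (u t).re) t :=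
  (ContinuousLinearMap.snd ℝ ℝ (ℝ × ℝ)).hasFDerivAt.comp_hasDerivAt t (h t)

theorem dy (h : IsLeg γ u) (t : ℝ) : HasDerivAt (fun t => (γ t).2.1) (u t).im t :=
  (ContinuousLinearMap.fst ℝ ℝ ℝ).hasFDerivAt.comp_hasDerivAt t (h.dyz t)

theorem dz (h : IsLeg γ u) (t : ℝ) : HasDerivAt (fun t => (γ t).2.2) ((γ t).2.1 * (u t).re) t :=
  (ContinuousLinearMap.snd ℝ ℝ ℝ).hasFDerivAt.comp_hasDerivAt t (h.dyz t)

theorem W_re' (h : IsLeg γ u) (hu : Continuous u) (s t : ℝ) :
    (W u s t).re = (γ t).1 - (γ s).1 := by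
  rw [W_re hu]
  exact intervalIntegral.integral_eq_sub_of_hasDerivAt (fun τ _ => h.dx τ)
    ((Complex.continuous_re.comp hu).intervalIntegrable _ _)

theorem W_im' (h : IsLeg γ u) (hu : Continuous u) (s t : ℝ) :
    (W u s t).im = (γ t).2.1 - (γ s).2.1 := by
  rw [W_im hu]
  exact intervalIntegral.integral_eq_sub_of_hasDerivAt (fun τ _ => h.dy τ)
    ((Complex.continuous_im.comp hu).intervalIntegrable _ _)

theorem z_sub (h : IsLeg γ u) (hu : Continuous u) (s t : ℝ) :
    ∫ τ in s..t, (γ τ).2.1 * (u τ).re = (γ t).2.2 - (γ s).2.2 := by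
  have := h.cont
  exact intervalIntegral.integral_eq_sub_of_hasDerivAt (fun τ _ => h.dz τ)
    (Continuous.intervalIntegrable (by fun_prop) _ _)

theorem eq_Leg (h : IsLeg γ u) (hu : Continuous u) {K : ℝ} (h0 : γ (-K) = (-K, 0, 0)) :
    Leg K u = γ := by
  funext t
  have h1 : ∀ τ, (W u (-K) τ).im = (γ τ).2.1 := fun τ => by rw [h.W_im' hu, h0]; simp
  refine Prod.ext ?_ (Prod.ext (h1 t) ?_)
  · show -K + (W u (-K) t).re = _
    rw [h.W_re' hu, h0]; ring
  · show zz K u t = _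
    unfold zz
    simp_rw [h1]
    rw [h.z_sub hu, h0]; simp

theorem A_eq (h : IsLeg γ u) (hu : Continuous u) {s t : ℝ} (hW : W u s t = 0) :
    A u s t = 2 * ((γ t).2.2 - (γ s).2.2) := by
  have hc := h.cont
  have hx : (γ t).1 - (γ s).1 = 0 := by rw [← h.W_re' hu, hW]; rfl
  have hd : ∀ τ, HasDerivAt (fun τ => 2 * (γ τ).2.2 - 2 * (γ s).2.1 * (γ τ).1 -
      ((γ τ).1 - (γ s).1) * ((γ τ).2.1 - (γ s).2.1))
      ((W u s τ * (starRingEnd ℂ) (u τ)).im) τ := by
    intro τ
    refine ((((h.dz τ).const_mul 2).sub ((h.dx τ).const_mul (2 * (γ s).2.1))).sub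
      (((h.dx τ).sub_const _).mul ((h.dy τ).sub_const _))).congr_deriv ?_
    rw [Complex.mul_im, h.W_re' hu, h.W_im' hu]
    simp only [Complex.conj_re, Complex.conj_im]
    ring
  have hW' := continuous_W_right hu s
  rw [A, intervalIntegral.integral_eq_sub_of_hasDerivAt (fun τ _ => hd τ)
    (Continuous.intervalIntegrable (by fun_prop) _ _), hx, sub_eq_zero.1 hx]
  ring

theorem inj (h : IsLeg γ u) (hu : Continuous u) (he : Emb u) : Function.Injective γ := by
  have key : ∀ s t, s < t → γ s ≠ γ t := by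
    intro s t hst hγ
    have hW : W u s t = 0 := Complex.ext (by rw [h.W_re' hu, hγ]; simp) (by rw [h.W_im' hu, hγ]; simp)
    exact he s t hst hW (by rw [h.A_eq hu hW, hγ]; simp)
  intro s t hγ
  rcases lt_trichotomy s t with h1 | h1 | h1
  · exact absurd hγ (key s t h1)
  · exact h1
  · exact absurd hγ.symm (key t s h1)

theorem emb (h : IsLeg γ u) (hu : Continuous u) (hi : Function.Injective γ) : Emb u := by
  intro s t hst hW hA
  rw [h.A_eq hu hW] at hA
  have h1 := h.W_re' hu s t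
  have h2 := h.W_im' hu s t
  rw [hW] at h1 h2
  simp only [Complex.zero_re, Complex.zero_im] at h1 h2
  exact hst.ne (hi (Prod.ext (by linarith) (Prod.ext (by linarith) (by linarith))))

theorem std_of (h : IsLeg γ u) (hu : Continuous u) {a t : ℝ} (h0 : γ a = (a, 0, 0))
    (h1 : ∀ τ ∈ uIcc a t, u τ = 1) : γ t = (t, 0, 0) := by
  have hW : ∀ τ ∈ uIcc a t, W u a τ = (τ - a : ℝ) := fun τ hτ => by
    rw [W, intervalIntegral.integral_congr (g := fun _ => (1 : ℂ))
      fun σ hσ => h1 σ (uIcc_subset_uIcc_left hτ hσ)]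
    simp
  have hy : ∀ τ ∈ uIcc a t, (γ τ).2.1 = 0 := fun τ hτ => by
    have := h.W_im' hu a τ
    rw [hW τ hτ, h0] at this
    simpa using this.symm
  refine Prod.ext ?_ (Prod.ext (hy t right_mem_uIcc) ?_)
  · have := h.W_re' hu a t
    rw [hW t right_mem_uIcc, h0, Complex.ofReal_re] at this
    show (γ t).1 = t
    simp only at this
    linarith
  · have := h.z_sub hu a t
    rw [intervalIntegral.integral_congr (g := fun _ => (0 : ℝ))
      fun σ hσ => by simp [hy σ hσ], h0] at this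
    simpa using this.symm

theorem inBox (h : IsLeg γ u) (hu : Continuous u) {m B T : ℝ} (hd : Dev u B)
    (hp : ∀ t, m ≤ |t| → 0 < (u t).re) (hT : m + B ≤ T)
    (hs : ∀ t, T ≤ |t| → γ t = (t, 0, 0)) : InBox T γ := by
  have hB := hd.nonneg
  refine ⟨hs, fun t ht => ?_⟩
  rw [abs_lt] at ht ⊢
  constructor
  · have h1 := h.W_re' hu (-T) t
    rw [hs (-T) (by rw [abs_neg]; exact le_abs_self T)] at h1
    by_cases h2 : t ≤ -m
    · have := W_re_pos hu ht.1 fun τ hτ => hp τ (le_abs.2 (Or.inr (by linarith [hτ.2])))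
      simp only at h1; linarith
    · have := hd (-T) t ht.1.le
      simp only at h1; linarith [not_le.1 h2]
  · have h1 := h.W_re' hu t T
    rw [hs T (le_abs_self T)] at h1
    by_cases h2 : m ≤ t
    · have := W_re_pos hu ht.2 fun τ hτ => hp τ (le_abs.2 (Or.inl (h2.trans hτ.1)))
      simp only at h1; linarith
    · have := hd t T ht.2.le
      simp only at h1; linarith [not_le.1 h2]

theorem glue {γ₁ γ₂ : ℝ → ℝ × ℝ × ℝ} {u v : ℝ → ℂ} (h₁ : IsLeg γ₁ u) (h₂ : IsLeg γ₂ v) {K R : ℝ}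
    (hR : K < R) (hs₁ : ∀ t, K ≤ |t| → γ₁ t = (t, 0, 0)) (hs₂ : ∀ t, K ≤ |t| → γ₂ t = (t, 0, 0))
    (hu : ∀ t, K ≤ |t| → u t = 1) (hv : ∀ t, K ≤ |t| → v t = 1) :
    IsLeg (glue R γ₁ γ₂) fun t => u (t + R) * v (t - R) := by
  intro t
  by_cases ht : t ≤ 0
  · have e : MP_b8ade4_gt.glue R γ₁ γ₂ =ᶠ[𝓝 t] fun t => γ₁ (t + R) - (R, 0, 0) := by
      filter_upwards [Iio_mem_nhds (by linarith : t < R - K)] with x hx
      rw [mem_Iio] at hx
      unfold MP_b8ade4_gt.glue
      split_ifs with h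
      · rfl
      · rw [hs₁ _ (le_abs.2 (Or.inl (by linarith [not_le.1 h]))),
          hs₂ _ (le_abs.2 (Or.inr (by linarith)))]
        simp
    refine ((((h₁ (t + R)).comp_add_const t R).sub_const _).congr_of_eventuallyEq e).congr_deriv ?_
    simp [e.self_of_nhds, hv (t - R) (le_abs.2 (Or.inr (by linarith)))]
  · have e : MP_b8ade4_gt.glue R γ₁ γ₂ =ᶠ[𝓝 t] fun t => γ₂ (t - R) + (R, 0, 0) := by
      filter_upwards [Ioi_mem_nhds (not_le.1 ht)] with x hx
      exact if_neg (not_le.2 hx)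
    refine ((((h₂ (t - R)).comp_sub_const t R).add_const _).congr_of_eventuallyEq e).congr_deriv ?_
    simp [e.self_of_nhds, hu (t + R) (le_abs.2 (Or.inl (by linarith [not_le.1 ht])))]

end IsLeg

theorem Leg_start (K : ℝ) (u : ℝ → ℂ) : Leg K u (-K) = (-K, 0, 0) := by
  simp [Leg, W_self, zz]

theorem Leg_std {u : ℝ → ℂ} {m B K : ℝ} (h : Gd u m B) (hm : 0 ≤ m) (hK : m + B + 11 ≤ K) (t : ℝ)
    (ht : K ≤ |t|) : Leg K (NN 1 K u) t = (t, 0, 0) := by
  have hB := h.dev.nonneg
  have hg := gd_NN h hm hK zero_le_one le_rfl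
  have hl := isLeg_Leg hg.cont K
  rcases le_abs.1 ht with h1 | h1
  · obtain ⟨e1, e2⟩ := NN_closed h hm (by linarith : m + 11 ≤ K)
    refine hl.std_of hg.cont (a := K) ?_ fun τ hτ => hg.one τ ?_
    · rw [Leg, e1, e2]; simp; ring
    · rw [uIcc_of_le h1] at hτ
      exact le_abs.2 (Or.inl hτ.1)
  · refine hl.std_of hg.cont (Leg_start K _) fun τ hτ => hg.one τ ?_
    rw [uIcc_of_ge (by linarith)] at hτ
    exact le_abs.2 (Or.inr (by linarith [hτ.2]))

theorem Leg_inBox {u : ℝ → ℂ} {m B K T : ℝ} (h : Gd u m B) (hm : 0 ≤ m) (hK : m + B + 11 ≤ K)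
    (hT : K ≤ T) : InBox T (Leg K (NN 1 K u)) := by
  have hB := h.dev.nonneg
  have hg := gd_NN h hm hK zero_le_one le_rfl
  exact (isLeg_Leg hg.cont K).inBox hg.cont hg.dev (NN_pos h (by linarith) zero_le_one)
    (by linarith) fun t ht => Leg_std h hm hK t (hT.trans ht)

theorem SC_Leg {u : P → ℝ → ℂ} (hu : SC u) (K : ℝ) : SC fun p => Leg K (u p) := by
  have hW : SC fun p t => W (u p) (-K) t := hu.prim (-K)
  exact ((SC.const continuous_const).add hW.re).prodMk (hW.im.prodMk ((hW.im.mulr hu.re).prim (-K)))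

theorem isLong_Leg {u : P → ℝ → ℂ} (hu : SC u) {m B K : ℝ} (p : P) (h : Gd (u p) m B) (hm : 0 ≤ m)
    (hK : m + B + 11 ≤ K) : IsLong (Leg K (NN 1 K (u p))) := by
  have hg := gd_NN h hm hK zero_le_one le_rfl
  have hl := isLeg_Leg hg.cont K
  refine ⟨(SC_Leg (SC_NN hu K continuous_const) K).smooth p, hl.inj hg.cont hg.emb, fun t => ?_,
    fun t => ?_, K, Leg_std h hm hK⟩
  · rw [(hl t).deriv]
    intro h0
    exact hg.ne t (Complex.ext (congrArg (fun z => z.1) h0) (congrArg (fun z => z.2.1) h0))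
  · rw [(hl t).deriv]

end Pool.Agent.MP_b8ade4_gt

end MrgPart2

-- ======== part 3: formerly Pool.Agent.MP_b8ade4_gt.SmFam
section MrgPart3

/-! Families of smooth curves all of whose derivatives depend continuously on a parameter. -/

namespace Pool.Agent.MP_b8ade4_gt

open Set

variable {X Y : Type*} [TopologicalSpace X] [TopologicalSpace Y]
  {E F G : Type*} [NormedAddCommGroup E] [NormedSpace ℝ E] [NormedAddCommGroup F] [NormedSpace ℝ F]
  [NormedAddCommGroup G] [NormedSpace ℝ G]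

def SmN : ℕ → (X → ℝ → E) → Prop
  | 0, x => Continuous fun q : X × ℝ => x q.1 q.2
  | k + 1, x => (Continuous fun q : X × ℝ => x q.1 q.2) ∧ (∀ a, Differentiable ℝ (x a)) ∧
      SmN k (fun a => deriv (x a))

/-- all derivatives in `t` exist and are jointly continuous -/
def SmF (x : X → ℝ → E) : Prop := ∀ k, SmN k x

lemma SmN.cont {k : ℕ} {x : X → ℝ → E} (h : SmN k x) : Continuous fun q : X × ℝ => x q.1 q.2 := by
  cases k with
  | zero => exact h
  | succ k => exact h.1

lemma SmN.pred {k : ℕ} {x : X → ℝ → E} (h : SmN (k + 1) x) : SmN k x := by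
  induction k generalizing x with
  | zero => exact h.1
  | succ k ih => exact ⟨h.1, h.2.1, ih h.2.2⟩

lemma SmF.cont {x : X → ℝ → E} (h : SmF x) : Continuous fun q : X × ℝ => x q.1 q.2 := h 0
lemma SmF.diff {x : X → ℝ → E} (h : SmF x) (a : X) : Differentiable ℝ (x a) := (h 1).2.1 a
lemma SmF.deriv {x : X → ℝ → E} (h : SmF x) : SmF fun a => deriv (x a) := fun k => (h (k + 1)).2.2

lemma SmF.of_coind (P : (X → ℝ → E) → Prop)
    (hP : ∀ x, P x → (Continuous fun q : X × ℝ => x q.1 q.2) ∧ (∀ a, Differentiable ℝ (x a)) ∧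
      P (fun a => _root_.deriv (x a))) {x : X → ℝ → E} (h : P x) : SmF x := by
  intro k
  induction k generalizing x with
  | zero => exact (hP x h).1
  | succ k ih => exact ⟨(hP x h).1, (hP x h).2.1, ih (hP x h).2.2⟩

lemma SmF.of_deriv {x x' : X → ℝ → E} (hc : Continuous fun q : X × ℝ => x q.1 q.2)
    (hd : ∀ a t, HasDerivAt (x a) (x' a t) t) (h : SmF x') : SmF x := by
  have e : (fun a => _root_.deriv (x a)) = x' := by
    funext a t; exact (hd a t).deriv
  intro k
  cases k with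
  | zero => exact hc
  | succ k => exact ⟨hc, fun a t => (hd a t).differentiableAt, by rw [e]; exact h k⟩

lemma SmF.iter {x : X → ℝ → E} (h : SmF x) (k : ℕ) :
    SmF fun a => iteratedDeriv k (x a) := by
  induction k generalizing x with
  | zero => simpa using h
  | succ k ih => simpa only [iteratedDeriv_succ'] using ih h.deriv

lemma SmF.contDiff {x : X → ℝ → E} (h : SmF x) (a : X) : ContDiff ℝ (⊤ : ℕ∞) (x a) :=
  contDiff_of_differentiable_iteratedDeriv fun k _ => (h.iter k).diff a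

lemma SmF.of_iter {x : X → ℝ → E} (hs : ∀ a, ContDiff ℝ (⊤ : ℕ∞) (x a))
    (hc : ∀ k, Continuous fun q : X × ℝ => iteratedDeriv k (x q.1) q.2) : SmF x := by
  refine SmF.of_coind (fun y => ∃ k, y = fun a => iteratedDeriv k (x a)) ?_ ⟨0, by simp⟩
  rintro y ⟨k, rfl⟩
  refine ⟨hc k, fun a => (hs a).differentiable_iteratedDeriv k ?_, k + 1, ?_⟩
  · exact_mod_cast ENat.natCast_lt_top k
  · simp only [iteratedDeriv_succ]

lemma SmF.of_contDiff {f : ℝ → E} (hf : ContDiff ℝ (⊤ : ℕ∞) f) : SmF fun _ : X => f :=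
  SmF.of_iter (fun _ => hf) fun k =>
    (hf.continuous_iteratedDeriv k (by exact_mod_cast le_top)).comp continuous_snd

lemma SmF.const {c : X → E} (hc : Continuous c) : SmF fun a (_ : ℝ) => c a := by
  refine SmF.of_coind (fun y => ∃ c : X → E, Continuous c ∧ y = fun a _ => c a) ?_ ⟨c, hc, rfl⟩
  rintro y ⟨c, hc, rfl⟩
  exact ⟨by fun_prop, fun a => by fun_prop, fun _ => 0, continuous_const, by
    funext a t; simp⟩

lemma SmF.comp {x : X → ℝ → E} (h : SmF x) {κ : Y → X} {r : Y → ℝ} (hκ : Continuous κ)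
    (hr : Continuous r) : SmF fun b t => x (κ b) (t + r b) := by
  refine SmF.of_coind (fun y => ∃ x : X → ℝ → E, SmF x ∧ y = fun b t => x (κ b) (t + r b)) ?_
    ⟨x, h, rfl⟩
  rintro y ⟨x, h, rfl⟩
  refine ⟨h.cont.comp (f := fun q : Y × ℝ => (κ q.1, q.2 + r q.1)) (by fun_prop), fun b => ?_,
    _, h.deriv, ?_⟩
  · exact (h.diff _).comp (differentiable_id.add_const _)
  · funext b t; exact deriv_comp_add_const _ _ _

lemma SmF.param {x : X → ℝ → E} (h : SmF x) {κ : Y → X} (hκ : Continuous κ) :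
    SmF fun b => x (κ b) := by
  simpa using h.comp (r := fun _ => 0) hκ continuous_const

lemma SmN.add {k : ℕ} {x y : X → ℝ → E} (hx : SmN k x) (hy : SmN k y) :
    SmN k fun a t => x a t + y a t := by
  induction k generalizing x y with
  | zero => exact Continuous.add hx hy
  | succ k ih =>
    refine ⟨hx.1.add hy.1, fun a => (hx.2.1 a).add (hy.2.1 a), ?_⟩
    convert ih hx.2.2 hy.2.2 using 2 with a
    funext t; exact deriv_fun_add (hx.2.1 a t) (hy.2.1 a t)

lemma SmF.add {x y : X → ℝ → E} (hx : SmF x) (hy : SmF y) : SmF fun a t => x a t + y a t :=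
  fun k => (hx k).add (hy k)

lemma SmN.bil (B : E →L[ℝ] F →L[ℝ] G) {k : ℕ} {x : X → ℝ → E} {y : X → ℝ → F} (hx : SmN k x)
    (hy : SmN k y) : SmN k fun a t => B (x a t) (y a t) := by
  induction k generalizing x y with
  | zero => exact (B.continuous.comp hx).clm_apply hy
  | succ k ih =>
    have hd : ∀ a t, HasDerivAt (fun t => B (x a t) (y a t))
        (B (deriv (x a) t) (y a t) + B (x a t) (deriv (y a) t)) t := fun a t => by
      have := (B.hasFDerivAt.comp_hasDerivAt t (hx.2.1 a t).hasDerivAt).clm_apply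
        (hy.2.1 a t).hasDerivAt
      simpa using this
    refine ⟨(B.continuous.comp hx.1).clm_apply hy.1, fun a t => (hd a t).differentiableAt, ?_⟩
    convert (ih hx.2.2 hy.pred).add (ih hx.pred hy.2.2) using 2 with a
    funext t; exact (hd a t).deriv

lemma SmF.bil (B : E →L[ℝ] F →L[ℝ] G) {x : X → ℝ → E} {y : X → ℝ → F} (hx : SmF x)
    (hy : SmF y) : SmF fun a t => B (x a t) (y a t) := fun k => (hx k).bil B (hy k)

lemma SmF.smul {c : X → ℝ → ℝ} {x : X → ℝ → E} (hc : SmF c) (hx : SmF x) :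
    SmF fun a t => c a t • x a t := hc.bil (ContinuousLinearMap.lsmul ℝ ℝ) hx

lemma SmF.mul {𝔸 : Type*} [NormedRing 𝔸] [NormedAlgebra ℝ 𝔸] {x y : X → ℝ → 𝔸} (hx : SmF x)
    (hy : SmF y) : SmF fun a t => x a t * y a t := hx.bil (ContinuousLinearMap.mul ℝ 𝔸) hy

lemma SmF.clm (L : E →L[ℝ] F) {x : X → ℝ → E} (hx : SmF x) : SmF fun a t => L (x a t) :=
  (SmF.const (c := fun _ : X => L) continuous_const).bil (ContinuousLinearMap.id ℝ (E →L[ℝ] F)) hx

lemma SmF.neg {x : X → ℝ → E} (hx : SmF x) : SmF fun a t => -x a t :=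
  hx.clm (-ContinuousLinearMap.id ℝ E)

lemma SmF.sub {x y : X → ℝ → E} (hx : SmF x) (hy : SmF y) : SmF fun a t => x a t - y a t := by
  simpa only [sub_eq_add_neg] using hx.add hy.neg

lemma SmF.prod {x : X → ℝ → E} {y : X → ℝ → F} (hx : SmF x) (hy : SmF y) :
    SmF fun a t => (x a t, y a t) := by
  simpa using (hx.clm (ContinuousLinearMap.inl ℝ E F)).add (hy.clm (ContinuousLinearMap.inr ℝ E F))

lemma SmF.re {x : X → ℝ → ℂ} (hx : SmF x) : SmF fun a t => (x a t).re := hx.clm Complex.reCLM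
lemma SmF.im {x : X → ℝ → ℂ} (hx : SmF x) : SmF fun a t => (x a t).im := hx.clm Complex.imCLM
lemma SmF.ofReal {x : X → ℝ → ℝ} (hx : SmF x) : SmF fun a t => ((x a t : ℝ) : ℂ) :=
  hx.clm Complex.ofRealCLM

lemma SmF.integral [CompleteSpace E] {x : X → ℝ → E} (hx : SmF x) (c : ℝ) :
    SmF fun a t => ∫ s in c..t, x a s := by
  refine SmF.of_deriv ?_ (fun a t => ?_) hx
  · exact intervalIntegral.continuous_parametric_primitive_of_continuous (f := x) hx.cont
  · exact ((hx.diff a).continuous.integral_hasStrictDerivAt c t).hasDerivAt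

end Pool.Agent.MP_b8ade4_gt

end MrgPart3

-- ======== part 4: formerly Pool.Agent.MP_b8ade4_gt.CMoll
section MrgPart4

/-! Mollification of continuous families. -/

namespace Pool.Agent.MP_b8ade4_gt

open Set MeasureTheory Convolution ContinuousLinearMap

noncomputable def moll (φ : ContDiffBump (0 : ℝ)) (u : ℝ → ℂ) : ℝ → ℂ :=
  φ.normed volume ⋆[lsmul ℝ ℝ, volume] u

lemma smf_conv {X : Type*} [TopologicalSpace X] {x : X → ℝ → ℂ}
    (hx : Continuous fun q : X × ℝ => x q.1 q.2) {f : ℝ → ℝ} (hf : ContDiff ℝ (⊤ : ℕ∞) f)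
    (hc : HasCompactSupport f) : SmF fun a => f ⋆[lsmul ℝ ℝ, volume] x a := by
  refine SmF.of_coind (fun y => ∃ f : ℝ → ℝ, ContDiff ℝ (⊤ : ℕ∞) f ∧ HasCompactSupport f ∧
    y = fun a => f ⋆[lsmul ℝ ℝ, volume] x a) ?_ ⟨f, hf, hc, rfl⟩
  rintro y ⟨f, hf, hc, rfl⟩
  have hd : ∀ a t, HasDerivAt (f ⋆[lsmul ℝ ℝ, volume] x a)
      ((deriv f ⋆[lsmul ℝ ℝ, volume] x a) t) t := fun a t =>
    hc.hasDerivAt_convolution_left _ (hf.of_le (by exact_mod_cast le_top))
      (hx.comp (Continuous.prodMk_right a)).locallyIntegrable t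
  refine ⟨?_, fun a t => (hd a t).differentiableAt, deriv f, (contDiff_infty_iff_deriv.1 hf).2,
    hc.deriv, by funext a t; exact (hd a t).deriv⟩
  obtain ⟨r, hr⟩ := hc.isCompact.isBounded.subset_ball (0 : ℝ)
  have e : ∀ a t, (f ⋆[lsmul ℝ ℝ, volume] x a) t = ∫ s in (-r)..r, f s • x a (t - s) := by
    intro a t
    rw [intervalIntegral.integral_eq_integral_of_support_subset]
    · rfl
    · intro s hs
      have : s ∈ Function.support f := fun h => hs (by simp [h])
      have := hr (subset_tsupport _ this)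
      rw [Metric.mem_ball, Real.dist_eq, sub_zero, abs_lt] at this
      exact ⟨this.1, this.2.le⟩
  simp only [e]
  refine intervalIntegral.continuous_parametric_intervalIntegral_of_continuous'
    (f := fun (q : X × ℝ) s => f s • x q.1 (q.2 - s)) ?_ _ _
  exact (hf.continuous.comp continuous_snd).smul
    (hx.comp (f := fun z : (X × ℝ) × ℝ => (z.1.1, z.1.2 - z.2)) (by fun_prop))

theorem moll_smf {X : Type*} [TopologicalSpace X] {x : X → ℝ → ℂ}
    (hx : Continuous fun q : X × ℝ => x q.1 q.2) (φ : ContDiffBump (0 : ℝ)) :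
    SmF fun a => moll φ (x a) :=
  smf_conv hx φ.contDiff_normed φ.hasCompactSupport_normed

theorem moll_congr {φ : ContDiffBump (0 : ℝ)} {u v : ℝ → ℂ} {t t' : ℝ}
    (h : ∀ s, |s| < φ.rOut → u (t - s) = v (t' - s)) : moll φ u t = moll φ v t' := by
  simp only [moll, convolution]
  congr 1
  funext s
  by_cases hs : |s| < φ.rOut
  · rw [h s hs]
  · have : φ.normed volume s = 0 := by
      by_contra hc
      have : s ∈ Function.support (φ.normed volume) := hc
      rw [φ.support_normed_eq, Metric.mem_ball, Real.dist_eq, sub_zero] at this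
      exact hs this
    simp [this]

theorem moll_shift (φ : ContDiffBump (0 : ℝ)) (u : ℝ → ℂ) (c t : ℝ) :
    moll φ (fun τ => u (τ + c)) t = moll φ u (t + c) :=
  moll_congr fun s _ => by congr 1; ring

theorem moll_one {φ : ContDiffBump (0 : ℝ)} {u : ℝ → ℂ} {t : ℝ}
    (h : ∀ y, |y - t| < φ.rOut → u y = 1) : moll φ u t = 1 := by
  have h0 : u t = 1 := h t (by simpa using φ.rOut_pos)
  rw [moll, φ.normed_convolution_eq_right, h0]
  intro y hy
  rw [h0, h y (by rwa [Metric.mem_ball, Real.dist_eq] at hy)]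

theorem moll_close {φ : ContDiffBump (0 : ℝ)} {u : ℝ → ℂ} (hu : Continuous u) {t ε : ℝ}
    (h : ∀ y, |y - t| < φ.rOut → ‖u y - u t‖ ≤ ε) : ‖moll φ u t - u t‖ ≤ ε := by
  rw [← dist_eq_norm]
  refine φ.dist_normed_convolution_le hu.aestronglyMeasurable fun y hy => ?_
  rw [dist_eq_norm]
  exact h y (by rwa [Metric.mem_ball, Real.dist_eq] at hy)

/-- product of two functions with separated supports -/
theorem moll_mul {φ : ContDiffBump (0 : ℝ)} {u v : ℝ → ℂ} {m : ℝ}
    (hu : ∀ t, m - 2 * φ.rOut ≤ t → u t = 1) (hv : ∀ t, t ≤ m + 2 * φ.rOut → v t = 1) (t : ℝ) :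
    moll φ (fun τ => u τ * v τ) t = moll φ u t * moll φ v t := by
  have hr := φ.rOut_pos
  rcases le_total t m with h | h
  · rw [moll_one (u := v) fun y hy => hv y (by linarith [(abs_lt.1 hy).2]), mul_one]
    exact moll_congr fun s hs => by rw [hv _ (by linarith [(abs_lt.1 hs).1]), mul_one]
  · rw [moll_one (u := u) fun y hy => hu y (by linarith [(abs_lt.1 hy).1]), one_mul]
    exact moll_congr fun s hs => by rw [hu _ (by linarith [(abs_lt.1 hs).2]), one_mul]

/-- an embedded curve with free ends, straight outside `(-T, T)`, total deviation at most `B` -/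
def Nice (v : ℝ → ℂ) (T B : ℝ) : Prop :=
  Continuous v ∧ (∀ t, v t ≠ 0) ∧ Emb v ∧ (∀ t, T ≤ |t| → v t = 1) ∧
    ∀ s t, s ≤ t → ∫ τ in s..t, ‖v τ - 1‖ ≤ B

lemma W_sub_lin {v : ℝ → ℂ} (hv : Continuous v) {s t : ℝ} (hst : s ≤ t) :
    ‖W v s t - ((t - s : ℝ) : ℂ)‖ ≤ ∫ τ in s..t, ‖v τ - 1‖ := by
  have := W_sub_le (u := fun _ => 1) continuous_const hv hst le_rfl
  rwa [W_const, mul_one] at this

lemma dev_of_int {v : ℝ → ℂ} {B : ℝ} (hv : Continuous v)
    (h : ∀ s t, s ≤ t → ∫ τ in s..t, ‖v τ - 1‖ ≤ B) : Dev v B := by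
  intro s t hst
  have h1 := (Complex.abs_re_le_norm _).trans ((W_sub_lin hv hst).trans (h s t hst))
  rw [Complex.sub_re, Complex.ofReal_re, abs_le] at h1
  linarith [h1.1]

lemma Nice.dev {v : ℝ → ℂ} {T B : ℝ} (h : Nice v T B) : Dev v B := dev_of_int h.1 h.2.2.2.2

lemma Nice.mono {v : ℝ → ℂ} {T B T' B' : ℝ} (h : Nice v T B) (hT : T ≤ T') (hB : B ≤ B') :
    Nice v T' B' :=
  ⟨h.1, h.2.1, h.2.2.1, fun t ht => h.2.2.2.1 t (hT.trans ht),
    fun s t hst => (h.2.2.2.2 s t hst).trans hB⟩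

/-- chords lie in a bounded window -/
lemma chord_window {v : ℝ → ℂ} {T B s t : ℝ} (hD : Dev v B) (h1 : ∀ t, T ≤ |t| → v t = 1)
    (hst : s < t) (h : W v s t = 0) : -(|T| + B) ≤ s ∧ t ≤ |T| + B := by
  have h2 := hD s t hst.le
  rw [h, Complex.zero_re] at h2
  have key : (∀ τ ∈ Icc s t, v τ = 1) → False := by
    intro q
    rw [W_congr hst.le q, W_const, mul_one, Complex.ofReal_eq_zero] at h
    linarith
  constructor
  · by_contra hc
    refine key fun τ hτ => h1 τ ((le_abs_self T).trans (le_abs.2 (Or.inr ?_)))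
    linarith [hτ.2]
  · by_contra hc
    refine key fun τ hτ => h1 τ ((le_abs_self T).trans (le_abs.2 (Or.inl ?_)))
    linarith [hτ.1]

/-- uniform perturbations of a compact family of nice curves are nice -/
theorem nice_stab {X : Type*} [TopologicalSpace X] [CompactSpace X] {x : X → ℝ → ℂ}
    (hx : Continuous fun q : X × ℝ => x q.1 q.2) {T B : ℝ} (hT : 0 ≤ T)
    (h : ∀ a, Nice (x a) T B) :
    ∃ ε > 0, ∀ a (v : ℝ → ℂ), Continuous v → (∀ t, ‖v t - x a t‖ ≤ ε) →
      (∀ t, T + 1 ≤ |t| → v t = 1) → Nice v (T + 1) (B + 1) := by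
  obtain ⟨η, hη, hs⟩ := stab hx (fun a => (h a).2.1) (T + 1 + |B| + 1)
    (Ω := {q | q.2.2.2 ≠ 0}) (isOpen_ne_fun (by fun_prop) continuous_const)
    (fun a s t _ hst _ hW => (h a).2.2.1 s t hst hW)
  have hp : 0 < 1 / (2 * (T + 1)) := by positivity
  refine ⟨min η (1 / (2 * (T + 1))), lt_min hη hp, fun a v hv hc h1 => ?_⟩
  have hxa := (h a).1
  have hint : ∀ s t, s ≤ t → ∫ τ in s..t, ‖v τ - 1‖ ≤ B + 1 := by
    intro s t hst
    have c1 : Continuous fun τ => ‖v τ - x a τ‖ := by fun_prop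
    have i1 : ∫ τ in s..t, ‖v τ - 1‖ ≤ ∫ τ in s..t, (‖x a τ - 1‖ + ‖v τ - x a τ‖) := by
      refine intervalIntegral.integral_mono_on hst (Continuous.intervalIntegrable (by fun_prop) _ _)
        (Continuous.intervalIntegrable (by fun_prop) _ _) fun τ _ => ?_
      have := norm_add_le (x a τ - 1) (v τ - x a τ)
      rwa [show x a τ - 1 + (v τ - x a τ) = v τ - 1 by ring] at this
    rw [intervalIntegral.integral_add (Continuous.intervalIntegrable (by fun_prop) _ _)
      (c1.intervalIntegrable _ _)] at i1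
    have hsupp : Function.support (fun τ => ‖v τ - x a τ‖) ⊆ Ioc (-(T + 1)) (T + 1) := by
      intro τ hτ
      have : |τ| < T + 1 := by
        by_contra hc
        push Not at hc
        exact hτ (by simp [h1 τ hc, (h a).2.2.2.1 τ (by linarith)])
      exact ⟨(abs_lt.1 this).1, (abs_lt.1 this).2.le⟩
    have i2 : ∫ τ in s..t, ‖v τ - x a τ‖ ≤ ∫ τ in (-(T + 1))..(T + 1), ‖v τ - x a τ‖ := by
      rw [intervalIntegral.integral_eq_integral_of_support_subset hsupp,
        intervalIntegral.integral_of_le hst]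
      refine setIntegral_le_integral (c1.integrable_of_hasCompactSupport ?_)
        (Filter.Eventually.of_forall fun _ => norm_nonneg _)
      exact HasCompactSupport.intro (isCompact_Icc (a := -(T + 1)) (b := T + 1)) fun τ hτ => by
        by_contra hc; exact hτ (Ioc_subset_Icc_self (hsupp hc))
    have i3 := int_norm_le c1 (s := -(T + 1)) (t := T + 1) (η := 1 / (2 * (T + 1))) (by linarith)
      fun σ _ => (hc σ).trans (min_le_right _ _)
    have e : 1 / (2 * (T + 1)) * (T + 1 - -(T + 1)) = 1 := by field_simp; ring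
    linarith [(h a).2.2.2.2 s t hst]
  refine ⟨hv, fun t => ?_, fun s t hst hW => ?_, h1, hint⟩
  · by_cases ht : T + 1 ≤ |t|
    · rw [h1 t ht]; exact one_ne_zero
    · exact (hs a v hv).1 t (by linarith [abs_nonneg B]) ((hc t).trans (min_le_left _ _))
  · obtain ⟨w1, w2⟩ := chord_window (dev_of_int hv hint) h1 hst hW
    rw [abs_of_nonneg (by linarith)] at w1 w2
    exact (hs a v hv).2 s t (by linarith [le_abs_self B]) hst (by linarith [le_abs_self B])
      (fun τ _ => (hc τ).trans (min_le_left _ _)) hW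

/-- the segment from a compact family of nice curves to its mollification consists of nice curves -/
theorem moll_family {X : Type*} [TopologicalSpace X] [CompactSpace X] {x : X → ℝ → ℂ}
    (hx : Continuous fun q : X × ℝ => x q.1 q.2) {T B : ℝ} (hT : 0 ≤ T)
    (h : ∀ a, Nice (x a) T B) :
    ∃ η > 0, ∀ φ : ContDiffBump (0 : ℝ), φ.rOut ≤ η → ∀ a, ∀ s ∈ Icc (0 : ℝ) 1,
      Nice (fun t => x a t + (s : ℂ) * (moll φ (x a) t - x a t)) (T + 1) (B + 1) := by
  obtain ⟨ε, hε, hs⟩ := nice_stab hx hT h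
  obtain ⟨δ, hδ, hd⟩ := fam_unif hx (T + 1) hε
  refine ⟨min δ 1, lt_min hδ one_pos, fun φ hφ a s hs' => ?_⟩
  have h1 := hφ.trans (min_le_left _ _)
  have h2 := hφ.trans (min_le_right _ _)
  have hm : Continuous (moll φ (x a)) := ((moll_smf hx φ).diff a).continuous
  have hxa := (h a).1
  have one : ∀ t, T + 1 ≤ |t| → moll φ (x a) t = 1 := fun t ht =>
    moll_one fun y hy => (h a).2.2.2.1 y (by
      have := abs_sub_abs_le_abs_sub t y
      rw [abs_sub_comm] at this; linarith)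
  refine hs a _ (by fun_prop) (fun t => ?_) (fun t ht => ?_)
  · rw [add_sub_cancel_left, norm_mul, Complex.norm_real, Real.norm_of_nonneg hs'.1]
    refine (mul_le_of_le_one_left (norm_nonneg _) hs'.2).trans ?_
    by_cases ht : T + 1 ≤ |t|
    · rw [one t ht, (h a).2.2.2.1 t (by linarith), sub_self, norm_zero]; exact hε.le
    · push Not at ht
      exact moll_close hxa fun y hy =>
        hd a t y (abs_lt.1 ht).1.le (abs_lt.1 ht).2.le (hy.trans_le h1)
  · rw [one t ht, (h a).2.2.2.1 t (by linarith)]; simp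

lemma L1.nice {v : ℝ → ℂ} {T B : ℝ} (h : L1 v B) (hE : Emb v) (h1 : ∀ t, T ≤ |t| → v t = 1) :
    Nice v T B :=
  ⟨h.1, fun t q => by have := h.2.1 t; rw [q, norm_zero] at this; exact zero_ne_one this, hE, h1,
    h.2.2⟩

end Pool.Agent.MP_b8ade4_gt

end MrgPart4

-- ======== part 5: formerly Pool.Agent.MP_b8ade4_gt.CTop
section MrgPart5

/-! The topology of the space of long Legendrian embeddings. -/

namespace Pool.Agent.MP_b8ade4_gt

open Set Filter Topology

variable {X : Type*} [TopologicalSpace X]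

lemma continuous_long_iff {γ : X → Long} : Continuous γ ↔ ∀ k : ℕ, Continuous fun a =>
    (UniformFun.ofFun (iteratedDeriv k (γ a).1) : UniformFun ℝ (ℝ × ℝ × ℝ)) := by
  rw [continuous_iInf_rng]
  exact forall_congr' fun k => continuous_induced_rng

/-- smooth families with a common support are continuous -/
theorem continuous_long {γ : X → Long} (h : SmF fun a => (γ a).1) {T : ℝ}
    (hT : ∀ a t, T ≤ |t| → (γ a).1 t = (t, 0, 0)) : Continuous γ := by
  refine continuous_long_iff.2 fun k => continuous_iff_continuousAt.2 fun a₀ => ?_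
  rw [ContinuousAt, UniformFun.tendsto_iff_tendstoUniformly, Metric.tendstoUniformly_iff]
  intro ε hε
  have hc := (h.iter k).cont
  have h1 := (isCompact_Icc (a := -T) (b := T)).eventually_forall_of_forall_eventually (x₀ := a₀)
    (P := fun a t => dist (iteratedDeriv k (γ a₀).1 t) (iteratedDeriv k (γ a).1 t) < ε) (by
      intro t _
      have : Continuous fun z : X × ℝ =>
          dist (iteratedDeriv k (γ a₀).1 z.2) (iteratedDeriv k (γ z.1).1 z.2) :=
        (hc.comp (f := fun z : X × ℝ => (a₀, z.2)) (by fun_prop)).dist hc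
      exact this.continuousAt.eventually_lt continuousAt_const (by simpa using hε))
  filter_upwards [h1] with a ha t
  by_cases ht : t ∈ Icc (-T) T
  · exact ha t ht
  · have ht' : T < |t| := by
      by_contra hc
      exact ht (abs_le.1 (not_lt.1 hc))
    have e : (γ a₀).1 =ᶠ[𝓝 t] (γ a).1 := by
      filter_upwards [continuous_abs.continuousAt.eventually (lt_mem_nhds ht')] with s hs
      rw [hT a₀ s (le_of_lt hs), hT a s (le_of_lt hs)]
    show dist (iteratedDeriv k (γ a₀).1 t) (iteratedDeriv k (γ a).1 t) < ε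
    rw [e.iteratedDeriv_eq k, dist_self]; exact hε

lemma long_unif {γ : X → Long} (h : Continuous γ) (k : ℕ) (a₀ : X) {ε : ℝ} (hε : 0 < ε) :
    ∀ᶠ a in 𝓝 a₀, ∀ t, dist (iteratedDeriv k (γ a₀).1 t) (iteratedDeriv k (γ a).1 t) < ε := by
  have := (continuous_long_iff.1 h k).continuousAt (x := a₀)
  rw [ContinuousAt, UniformFun.tendsto_iff_tendstoUniformly, Metric.tendstoUniformly_iff] at this
  exact this ε hε

/-- continuous families are smooth families -/
theorem smf_of_long {γ : X → Long} (h : Continuous γ) : SmF fun a => (γ a).1 := by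
  refine SmF.of_iter (fun a => (γ a).2.smooth) fun k => continuous_iff_continuousAt.2 ?_
  rintro ⟨a₀, t₀⟩
  rw [Metric.continuousAt_iff']
  intro ε hε
  have c0 : Continuous (iteratedDeriv k (γ a₀).1) :=
    (γ a₀).2.smooth.continuous_iteratedDeriv k (by exact_mod_cast le_top)
  have h1 := Metric.continuousAt_iff'.1 (c0.continuousAt (x := t₀)) (ε / 2) (by linarith)
  filter_upwards [(long_unif h k a₀ (half_pos hε)).prod_nhds h1] with q hq
  have := dist_triangle (iteratedDeriv k (γ q.1).1 q.2) (iteratedDeriv k (γ a₀).1 q.2)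
    (iteratedDeriv k (γ a₀).1 t₀)
  have h2 := hq.1 q.2
  rw [dist_comm] at h2
  linarith [hq.2]

/-- derivative of the Lagrangian projection -/
noncomputable def lag (γ : ℝ → ℝ × ℝ × ℝ) (t : ℝ) : ℂ :=
  ((deriv γ t).1 : ℂ) + ((deriv γ t).2.1 : ℂ) * Complex.I

lemma lag_re (γ : ℝ → ℝ × ℝ × ℝ) (t : ℝ) : (lag γ t).re = (deriv γ t).1 := by simp [lag]
lemma lag_im (γ : ℝ → ℝ × ℝ × ℝ) (t : ℝ) : (lag γ t).im = (deriv γ t).2.1 := by simp [lag]

lemma smf_lag {γ : X → ℝ → ℝ × ℝ × ℝ} (h : SmF γ) : SmF fun a => lag (γ a) :=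
  (h.deriv.clm (ContinuousLinearMap.fst ℝ _ _)).ofReal.add
    ((h.deriv.clm ((ContinuousLinearMap.fst ℝ _ _).comp (ContinuousLinearMap.snd ℝ _ _))).ofReal.mul
      (SmF.const continuous_const))

lemma hd3 {γ : ℝ → ℝ × ℝ × ℝ} {v : ℝ × ℝ × ℝ} {t : ℝ} (h : HasDerivAt γ v t) :
    HasDerivAt (fun τ => (γ τ).1) v.1 t ∧ HasDerivAt (fun τ => (γ τ).2.1) v.2.1 t ∧
      HasDerivAt (fun τ => (γ τ).2.2) v.2.2 t := by
  have h2 : HasDerivAt (fun τ => (γ τ).2) v.2 t :=
    (ContinuousLinearMap.snd ℝ ℝ (ℝ × ℝ)).hasFDerivAt.comp_hasDerivAt t h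
  exact ⟨(ContinuousLinearMap.fst ℝ ℝ (ℝ × ℝ)).hasFDerivAt.comp_hasDerivAt t h,
    (ContinuousLinearMap.fst ℝ ℝ ℝ).hasFDerivAt.comp_hasDerivAt t h2,
    (ContinuousLinearMap.snd ℝ ℝ ℝ).hasFDerivAt.comp_hasDerivAt t h2⟩

lemma W_lag {γ : ℝ → ℝ × ℝ × ℝ} (h : ContDiff ℝ (⊤ : ℕ∞) γ) (s t : ℝ) :
    W (lag γ) s t = (((γ t).1 - (γ s).1 : ℝ) : ℂ) + (((γ t).2.1 - (γ s).2.1 : ℝ) : ℂ) * Complex.I := by
  have hs : SmF fun _ : Unit => γ := SmF.of_contDiff h
  have hd : ∀ τ, HasDerivAt (fun τ => ((γ τ).1 : ℂ) + ((γ τ).2.1 : ℂ) * Complex.I) (lag γ τ) τ := by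
    intro τ
    obtain ⟨a, b, -⟩ := hd3 (hs.diff () τ).hasDerivAt
    exact a.ofReal_comp.add (b.ofReal_comp.mul_const _)
  rw [W, intervalIntegral.integral_eq_sub_of_hasDerivAt (fun τ _ => hd τ)
    (((smf_lag hs).diff ()).continuous.intervalIntegrable _ _)]
  push_cast; ring

/-- at a double point of the projection `A` is twice the height difference -/
lemma A_lag {γ : ℝ → ℝ × ℝ × ℝ} (h : ContDiff ℝ (⊤ : ℕ∞) γ)
    (leg : ∀ t, (deriv γ t).2.2 = (γ t).2.1 * (deriv γ t).1) (s t : ℝ) :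
    A (lag γ) s t = 2 * ((γ t).2.2 - (γ s).2.2) -
      ((γ t).1 - (γ s).1) * ((γ t).2.1 + (γ s).2.1) := by
  have hs : SmF fun _ : Unit => γ := SmF.of_contDiff h
  have hd : ∀ τ, HasDerivAt
      (fun τ => 2 * ((γ τ).2.2 - (γ s).2.2) - ((γ τ).1 - (γ s).1) * ((γ τ).2.1 + (γ s).2.1))
      ((W (lag γ) s τ * (starRingEnd ℂ) (lag γ τ)).im) τ := by
    intro τ
    obtain ⟨a, b, c⟩ := hd3 (hs.diff () τ).hasDerivAt
    refine (((c.sub_const (γ s).2.2).const_mul 2).sub
      ((a.sub_const (γ s).1).mul (b.add_const (γ s).2.1))).congr_deriv ?_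
    rw [W_lag h, Complex.mul_im, Complex.conj_re, Complex.conj_im, lag_re, lag_im, leg]
    simp
    ring
  have hc : Continuous (lag γ) := ((smf_lag hs).diff ()).continuous
  have hc2 : Continuous fun τ => W (lag γ) s τ := by
    simp only [W_lag h]
    have := h.continuous
    fun_prop
  rw [A, intervalIntegral.integral_eq_sub_of_hasDerivAt (fun τ _ => hd τ)
    ((Complex.continuous_im.comp (hc2.mul (Complex.continuous_conj.comp hc))).intervalIntegrable _ _)]
  ring

lemma IsLong.lag_ne {γ : ℝ → ℝ × ℝ × ℝ} (h : IsLong γ) (t : ℝ) : lag γ t ≠ 0 := by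
  intro q
  have a := congrArg Complex.re q
  have b := congrArg Complex.im q
  rw [lag_re, Complex.zero_re] at a
  rw [lag_im, Complex.zero_im] at b
  refine h.imm t (Prod.ext a (Prod.ext b ?_))
  rw [h.leg, a, mul_zero]; rfl

lemma IsLong.emb {γ : ℝ → ℝ × ℝ × ℝ} (h : IsLong γ) : Emb (lag γ) := by
  intro s t hst hW hA
  rw [W_lag h.smooth] at hW
  have a := congrArg Complex.re hW
  have b := congrArg Complex.im hW
  simp only [Complex.add_re, Complex.ofReal_re, Complex.mul_re, Complex.I_re, mul_zero,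
    Complex.ofReal_im, Complex.I_im, mul_one, sub_self, add_zero, Complex.zero_re, Complex.add_im,
    Complex.mul_im, zero_add, Complex.zero_im] at a b
  rw [A_lag h.smooth h.leg, a] at hA
  exact hst.ne' (h.inj (Prod.ext (by linarith) (Prod.ext (by linarith) (by linarith))))

/-- uniform control at infinity of a compact family -/
theorem long_control [CompactSpace X] {γ : X → Long} (h : Continuous γ) :
    ∃ T₀ M₀ : ℝ, ∀ a, (∀ t, T₀ ≤ |t| → 0 < (lag (γ a).1 t).re) ∧ Dev (lag (γ a).1) M₀ := by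
  have key := isCompact_univ.eventually_forall_of_forall_eventually (X := ℕ∞) (Y := X)
    (x₀ := ⊤) (P := fun n a => ∀ N : ℕ, n = N →
      (∀ t, (N : ℝ) ≤ |t| → 0 < (lag (γ a).1 t).re) ∧ ∀ t, |((γ a).1 t).1 - t| ≤ N) (by
    intro a₀ _
    obtain ⟨T, hT⟩ := (γ a₀).2.std
    have c0 : Continuous fun t => ((γ a₀).1 t).1 - t := by
      have := (γ a₀).2.smooth.continuous
      fun_prop
    obtain ⟨C, hC⟩ := (isCompact_Icc (a := -T) (b := T)).exists_bound_of_continuousOn c0.continuousOn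
    obtain ⟨N₀, hN₀⟩ := exists_nat_gt (|T| + |C| + 1)
    have e1 : ∀ᶠ n : ℕ∞ in 𝓝 ⊤, (N₀ : ℕ∞) < n := lt_mem_nhds (ENat.natCast_lt_top N₀)
    filter_upwards [e1.prod_nhds ((long_unif h 0 a₀ one_pos).and (long_unif h 1 a₀ one_pos))]
      with q hq N hN
    obtain ⟨q1, q2, q3⟩ := hq
    rw [hN] at q1
    have hN' : (N₀ : ℝ) < N := by exact_mod_cast q1
    refine ⟨fun t ht => ?_, fun t => ?_⟩
    · have ht' : T < |t| := by linarith [le_abs_self T, abs_nonneg C]
      have e : (γ a₀).1 =ᶠ[𝓝 t] fun s => (s, 0, 0) := by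
        filter_upwards [continuous_abs.continuousAt.eventually (lt_mem_nhds ht')] with s hs
        exact hT s (le_of_lt hs)
      have d : HasDerivAt (fun s : ℝ => ((s, 0, 0) : ℝ × ℝ × ℝ)) (1, 0, 0) t :=
        (hasDerivAt_id t).prodMk (hasDerivAt_const t _)
      have := q3 t
      rw [iteratedDeriv_one, iteratedDeriv_one, e.deriv_eq, d.deriv, dist_eq_norm] at this
      have := (norm_fst_le _).trans_lt this
      rw [Prod.fst_sub, Real.norm_eq_abs, abs_lt] at this
      rw [lag_re]; linarith [this.2]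
    · have := q2 t
      rw [iteratedDeriv_zero, iteratedDeriv_zero, dist_eq_norm] at this
      have := (norm_fst_le _).trans_lt this
      rw [Prod.fst_sub, Real.norm_eq_abs, abs_lt] at this
      have b : |((γ a₀).1 t).1 - t| ≤ |C| := by
        by_cases ht : t ∈ Icc (-T) T
        · exact (hC t ht).trans (le_abs_self C)
        · rw [hT t (by by_contra hc; exact ht (abs_le.1 (not_le.1 hc).le))]; simp
      rw [abs_le] at b ⊢
      constructor <;> linarith [abs_nonneg T])
  obtain ⟨N, hN⟩ : ∃ N : ℕ, ∀ a, (∀ t, (N : ℝ) ≤ |t| → 0 < (lag (γ a).1 t).re) ∧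
      ∀ t, |((γ a).1 t).1 - t| ≤ N := by
    obtain ⟨N, hN⟩ := (ENat.tendsto_natCast_nhds_top.eventually key).exists
    exact ⟨N, fun a => hN a (mem_univ a) N rfl⟩
  refine ⟨N, 2 * N, fun a => ⟨(hN a).1, fun s t _ => ?_⟩⟩
  rw [W_lag (γ a).2.smooth]
  have a1 := abs_le.1 ((hN a).2 s)
  have a2 := abs_le.1 ((hN a).2 t)
  simp only [Complex.add_re, Complex.ofReal_re, Complex.mul_re, Complex.I_re, mul_zero,
    Complex.ofReal_im, Complex.I_im, mul_one, sub_self, add_zero]
  linarith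

end Pool.Agent.MP_b8ade4_gt

end MrgPart5

-- ======== part 6: formerly Pool.Agent.MP_b8ade4_gt.Topo
section MrgPart6

/-! Squares give relations between paths. -/

namespace Pool.Agent.MP_b8ade4_gt

open unitInterval

theorem square {Y : Type*} [TopologicalSpace Y] (F : C(I × I, Y)) {a b c d : Y}
    (bot : Path a b) (rgt : Path b d) (lft : Path a c) (top : Path c d)
    (hb : ∀ θ, F (θ, 0) = bot θ) (hr : ∀ τ, F (1, τ) = rgt τ)
    (hl : ∀ τ, F (0, τ) = lft τ) (ht : ∀ θ, F (θ, 1) = top θ) :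
    (bot.trans rgt).Homotopic (lft.trans top) := by
  have : ContractibleSpace I := (convex_Icc (0 : ℝ) 1).contractibleSpace ⟨0, by simp⟩
  let b0 : Path ((0, 0) : I × I) (1, 0) := ⟨⟨fun θ => (θ, 0), by fun_prop⟩, rfl, rfl⟩
  let r0 : Path ((1, 0) : I × I) (1, 1) := ⟨⟨fun θ => (1, θ), by fun_prop⟩, rfl, rfl⟩
  let l0 : Path ((0, 0) : I × I) (0, 1) := ⟨⟨fun θ => (0, θ), by fun_prop⟩, rfl, rfl⟩
  let t0 : Path ((0, 1) : I × I) (1, 1) := ⟨⟨fun θ => (θ, 1), by fun_prop⟩, rfl, rfl⟩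
  have h := (SimplyConnectedSpace.paths_homotopic (b0.trans r0) (l0.trans t0)).map F
  have ha : a = F (0, 0) := by rw [hb]; simp
  have hd : d = F (1, 1) := by rw [ht]; simp
  have h2 := h.pathCast ha hd
  convert h2 using 1
  · ext θ
    simp only [Path.cast_coe, Path.map_coe, Function.comp, Path.trans_apply]
    split_ifs
    · exact (hb _).symm
    · exact (hr _).symm
  · ext θ
    simp only [Path.cast_coe, Path.map_coe, Function.comp, Path.trans_apply]
    split_ifs
    · exact (hl _).symm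
    · exact (ht _).symm

/-- the same in the quotient -/
theorem squareQ {Y : Type*} [TopologicalSpace Y] (F : C(I × I, Y)) {a b c d : Y}
    (bot : Path a b) (rgt : Path b d) (lft : Path a c) (top : Path c d)
    (hb : ∀ θ, F (θ, 0) = bot θ) (hr : ∀ τ, F (1, τ) = rgt τ)
    (hl : ∀ τ, F (0, τ) = lft τ) (ht : ∀ θ, F (θ, 1) = top θ) :
    (Path.Homotopic.Quotient.mk bot).trans (Path.Homotopic.Quotient.mk rgt) = (Path.Homotopic.Quotient.mk lft).trans (Path.Homotopic.Quotient.mk top) := by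
  rw [← Path.Homotopic.Quotient.mk_trans, ← Path.Homotopic.Quotient.mk_trans, Path.Homotopic.Quotient.eq]
  exact square F bot rgt lft top hb hr hl ht

/-- free homotopy of loops preserves null-homotopy -/
theorem null_of_free {Y : Type*} [TopologicalSpace Y] (F : C(I × I, Y)) {a b : Y}
    (α : Path a a) (β : Path b b) (h0 : ∀ θ, F (θ, 0) = α θ) (h1 : ∀ θ, F (θ, 1) = β θ)
    (hs : ∀ τ, F (0, τ) = F (1, τ)) (hβ : β.Homotopic (Path.refl b)) :
    α.Homotopic (Path.refl a) := by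
  let p : Path a b := ⟨⟨fun τ => F (0, τ), by fun_prop⟩, by simp [h0], by simp [h1]⟩
  have h := squareQ F α p p β h0 (fun τ => (hs τ).symm) (fun _ => rfl) h1
  rw [Path.Homotopic.Quotient.eq.2 hβ, Path.Homotopic.Quotient.mk_refl, Path.Homotopic.Quotient.trans_refl] at h
  have h2 := congrArg (fun q => Path.Homotopic.Quotient.trans q (Path.Homotopic.Quotient.symm (Path.Homotopic.Quotient.mk p))) h
  simp only [Path.Homotopic.Quotient.trans_assoc, Path.Homotopic.Quotient.trans_symm, Path.Homotopic.Quotient.trans_refl] at h2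
  rw [← Path.Homotopic.Quotient.eq, h2, Path.Homotopic.Quotient.mk_refl]

/-- a path which retraces itself is null-homotopic -/
theorem null_of_symm {Y : Type*} [TopologicalSpace Y] {a : Y} (α : Path a a)
    (h : ∀ θ, α (σ θ) = α θ) : α.Homotopic (Path.refl a) := by
  let m : I × I → I := fun q => ⟨min (q.2 : ℝ) (1 - q.2) * (1 - q.1), by
    have h1 := q.1.2.1; have h2 := q.1.2.2; have h3 := q.2.2.1; have h4 := q.2.2.2
    have h5 : 0 ≤ min (q.2 : ℝ) (1 - q.2) := le_min h3 (by linarith)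
    have h6 : min (q.2 : ℝ) (1 - q.2) ≤ 1 := (min_le_left _ _).trans h4
    exact ⟨mul_nonneg h5 (by linarith), mul_le_one₀ h6 (by linarith) (by linarith)⟩⟩
  have hm : Continuous m := Continuous.subtype_mk (by fun_prop) _
  refine ⟨⟨⟨⟨fun q => α (m q), by fun_prop⟩, ?_, ?_⟩, ?_⟩⟩
  · intro θ
    show α (m (0, θ)) = α θ
    rcases le_total (θ : ℝ) (1 - θ) with hθ | hθ
    · congr 1; ext; simp [m, min_eq_left hθ]
    · rw [← h θ]; congr 1; ext; simp [m, min_eq_right hθ]
  · intro θ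
    show α (m (1, θ)) = a
    have : m (1, θ) = 0 := by ext; simp [m]
    rw [this, α.source]
  · intro τ θ hθ
    show α (m (τ, θ)) = α θ
    have : m (τ, θ) = 0 := by
      rcases hθ with rfl | rfl <;> (ext; simp [m])
    rw [this]
    rcases hθ with rfl | rfl <;> simp

end Pool.Agent.MP_b8ade4_gt

end MrgPart6

-- ======== part 7: formerly Pool.Agent.MP_b8ade4_gt.BNull
section MrgPart7

/-!
The braid relation for three kinks and the null-homotopy of the loop `(alpha, alpha inverse)`.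
-/

namespace Pool.Agent.MP_b8ade4_gt.B
open Complex Real Set unitInterval

/-- embedded unit speed curves with bounded support -/
def YY (B T : ℝ) : Type := {u : C(ℝ, ℂ) // Emb u ∧ L1 u B ∧ ∀ t, T ≤ |t| → u t = 1}

noncomputable instance (B T : ℝ) : TopologicalSpace (YY B T) :=
  inferInstanceAs (TopologicalSpace {u : C(ℝ, ℂ) // Emb u ∧ L1 u B ∧ ∀ t, T ≤ |t| → u t = 1})

theorem YY.ext {B T : ℝ} {a b : YY B T} (h : ∀ t, a.1 t = b.1 t) : a = b :=
  Subtype.ext (ContinuousMap.ext h)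

theorem YY.cont {B T : ℝ} : Continuous fun q : YY B T × ℝ => q.1.1 q.2 :=
  continuous_eval.comp ((continuous_subtype_val.comp continuous_fst).prodMk continuous_snd)

/-- a continuous family of curves as a map into `YY` -/
noncomputable def mkY {Z : Type*} [TopologicalSpace Z] {B T : ℝ} (f : Z → ℝ → ℂ)
    (hc : Continuous fun q : Z × ℝ => f q.1 q.2)
    (h : ∀ z, Emb (f z) ∧ L1 (f z) B ∧ ∀ t, T ≤ |t| → f z t = 1) : C(Z, YY B T) :=
  ⟨fun z => ⟨ContinuousMap.curry ⟨fun q : Z × ℝ => f q.1 q.2, hc⟩ z, h z⟩,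
    Continuous.subtype_mk (ContinuousMap.curry ⟨fun q : Z × ℝ => f q.1 q.2, hc⟩).continuous _⟩

theorem mkY_apply {Z : Type*} [TopologicalSpace Z] {B T : ℝ} (f : Z → ℝ → ℂ)
    (hc : Continuous fun q : Z × ℝ => f q.1 q.2)
    (h : ∀ z, Emb (f z) ∧ L1 (f z) B ∧ ∀ t, T ≤ |t| → f z t = 1) (z : Z) (t : ℝ) :
    (mkY f hc h z).1 t = f z t := rfl

/-- a family of three kinks as a map into `YY` -/
theorem exists_k3 {Z : Type*} [TopologicalSpace Z] {pa la pw lw pc : Z → ℝ} (c1 : Continuous pa)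
    (c2 : Continuous la) (c3 : Continuous pw) (c4 : Continuous lw) (c5 : Continuous pc)
    (h1 : ∀ z, |pa z| ≤ 1000) (h2 : ∀ z, 0 < la z ∧ la z ≤ 1) (h3 : ∀ z, |pw z| ≤ 1000)
    (h4 : ∀ z, 0 < lw z ∧ lw z ≤ 1) (h5 : ∀ z, |pc z| ≤ 1000)
    (h : ∀ z, Emb (k3 (pa z) (la z) (pw z) (lw z) (pc z))) :
    ∃ F : C(Z, YY (12 * π) 1010), ∀ z t, (F z).1 t = k3 (pa z) (la z) (pw z) (lw z) (pc z) t := by
  refine ⟨mkY (fun z => k3 (pa z) (la z) (pw z) (lw z) (pc z)) ?_ fun z => ⟨h z, ?_, ?_⟩,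
    fun z t => rfl⟩
  · exact (continuous_red' (c1.comp continuous_fst) (c2.comp continuous_fst) continuous_snd
      fun q => (h2 q.1).1.ne').mul
      ((continuous_blue' (c3.comp continuous_fst) (c4.comp continuous_fst) continuous_snd
        fun q => (h4 q.1).1.ne').mul
      (continuous_red' (c5.comp continuous_fst) continuous_const continuous_snd
        fun _ => one_ne_zero))
  · exact ((L1_red' _ (h2 z).1 (h2 z).2).mul ((L1_blue' _ (h4 z).1 (h4 z).2).mul
      (L1_red' _ one_pos le_rfl))).mono_b (by linarith)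
  · intro t ht
    rw [k3, red_far (h2 z).1 (h2 z).2 (h1 z) ht, blue_far (h4 z).1 (h4 z).2 (h3 z) ht,
      red_far one_pos le_rfl (h5 z) ht, one_mul, one_mul]

theorem ff0 : ff 0 = 0 := ff_of_le le_rfl
theorem ff1 : ff 1 = 1 := ff_of_ge le_rfl
theorem gg0 (l : ℝ) : gg l 0 = 1 := gg_of_le l le_rfl
theorem gg1 (l : ℝ) : gg l 1 = 1 := gg_of_ge l le_rfl

theorem k3_congr {a b c d e a' c' e' : ℝ} (t : ℝ) (h1 : a = a') (h2 : c = c') (h3 : e = e') :
    k3 a b c d e t = k3 a' b c' d e' t := by rw [h1, h2, h3]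

theorem k3_swap {a c d e a' c' e' : ℝ} (t : ℝ) (h1 : a = e') (h2 : c = c') (h3 : e = a') :
    k3 a 1 c d e t = k3 a' 1 c' d e' t := by
  rw [h1, h2, h3]; unfold k3; ring

/-- the braid relation at the word red, blue, red -/
theorem braid {l : ℝ} (hl : 0 < l) (h1 : l ≤ 1)
    (hRB : ∀ p q, |p| ≤ 1000 → |q| ≤ 1000 → RB p l q 1)
    (hs : ∀ l', 0 < l' → l' ≤ l → ∀ pa pw pc, |pa| ≤ 1000 → |pw| ≤ 1000 →
      |pc| ≤ 1000 → 1000 ≤ |pw - pc| → Emb (k3 pa l' pw 1 pc)) :
    ∃ (a b c : YY (12 * π) 1010) (s₁ : Path a b) (s₂ : Path b a) (s₃ : Path a c) (s₄ : Path c a),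
      (∀ θ t, (s₁ θ).1 t = k3 (-1000 + 1000 * ff θ) (gg l θ) (-1000 * ff θ) 1 1000 t) ∧
      (∀ θ t, (s₂ θ).1 t = k3 1000 1 (-1000 + 1000 * ff θ) (gg l θ) (-1000 * ff θ) t) ∧
      (∀ θ t, (s₃ θ).1 t = k3 (-1000) 1 (1000 * ff θ) (gg l θ) (1000 - 1000 * ff θ) t) ∧
      (∀ θ t, (s₄ θ).1 t = k3 (1000 * ff θ) (gg l θ) (1000 - 1000 * ff θ) 1 (-1000) t) ∧
      (s₁.trans s₂).Homotopic (s₃.trans s₄) := by
  obtain ⟨l₀, hl₀, ht⟩ := emb3_tiny hl h1 hRB
  set m := min l₀ l with hm
  have m0 : 0 < m := lt_min hl₀ hl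
  have m1 : m ≤ l := min_le_right _ _
  have m2 : m ≤ 1 := m1.trans h1
  have lam : ∀ τ : I, 0 < (1 - (τ : ℝ)) * m + τ * l ∧ (1 - (τ : ℝ)) * m + τ * l ≤ l := by
    intro τ
    have a0 := τ.2.1
    have a1 := τ.2.2
    constructor <;> nlinarith
  -- the naturality square
  obtain ⟨F, hF⟩ := exists_k3 (Z := I × I) (pa := fun q => -1000 + 2000 * ff q.1)
    (la := fun q => gg m q.1) (pw := fun q => 500 - 1000 * ff q.1 - 500 + 1000 * ff q.2)
    (lw := fun q => gg l q.2) (pc := fun q => 500 - 1000 * ff q.1 + 500 - 1000 * ff q.2)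
    (by fun_prop) (by fun_prop) (by fun_prop) (by fun_prop) (by fun_prop)
    (fun q => abs_le.2 ⟨by linarith [ff_nonneg q.1], by linarith [ff_le_one q.1]⟩)
    (fun q => ⟨gg_pos m0 m2 _, gg_le_one m2 _⟩)
    (fun q => abs_le.2 ⟨by linarith [ff_le_one q.1, ff_nonneg q.2],
      by linarith [ff_nonneg q.1, ff_le_one q.2]⟩)
    (fun q => ⟨gg_pos hl h1 _, gg_le_one h1 _⟩)
    (fun q => abs_le.2 ⟨by linarith [ff_le_one q.1, ff_le_one q.2],
      by linarith [ff_nonneg q.1, ff_nonneg q.2]⟩)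
    (fun q => by
      have a0 := ff_nonneg q.1
      have a1 := ff_le_one q.1
      have b0 := ff_nonneg q.2
      have b1 := ff_le_one q.2
      have hc : |500 - 1000 * ff q.1| ≤ 500 := abs_le.2 ⟨by linarith, by linarith⟩
      have he := (RB_slide hl h1 hRB hc q.2).symm.emb'
      rcases ff_cases m q.1 with h2 | h2 | h2
      · exact emb3_red_left (gg_pos m0 m2 _) (gg_le_one m2 _) (gg_pos hl h1 _) (gg_le_one h1 _)
          (by linarith) (by linarith) he
      · exact emb3_red_right (gg_pos m0 m2 _) (gg_le_one m2 _) (gg_pos hl h1 _) (gg_le_one h1 _)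
          (by linarith) (by linarith) he
      · rw [h2]
        exact ht m m0 (min_le_left _ _) _ _ q.2 (abs_le.2 ⟨by linarith, by linarith⟩) hc)
  obtain ⟨G, hG⟩ := exists_k3 (Z := I × I)
    (pa := fun q => -1000 + (2000 - 1000 * q.2) * ff q.1)
    (la := fun q => gg ((1 - (q.2 : ℝ)) * m + q.2 * l) q.1) (pw := fun q => -1000 * ff q.1)
    (lw := fun _ => 1) (pc := fun q => 1000 - 1000 * (1 - q.2) * ff q.1)
    (by fun_prop) (by fun_prop) (by fun_prop) (by fun_prop) (by fun_prop)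
    (fun q => abs_le.2 ⟨by nlinarith [ff_nonneg q.1, q.2.2.2],
      by nlinarith [ff_le_one q.1, ff_nonneg q.1, q.2.2.1]⟩)
    (fun q => ⟨gg_pos (lam _).1 ((lam _).2.trans h1) _, gg_le_one ((lam _).2.trans h1) _⟩)
    (fun q => abs_le.2 ⟨by linarith [ff_le_one q.1], by linarith [ff_nonneg q.1]⟩)
    (fun q => ⟨one_pos, le_rfl⟩)
    (fun q => abs_le.2 ⟨by nlinarith [ff_le_one q.1, ff_nonneg q.1, q.2.2.1],
      by nlinarith [ff_nonneg q.1, q.2.2.2]⟩)
    (fun q => by
      have a0 := ff_nonneg q.1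
      have a1 := ff_le_one q.1
      have b0 := q.2.2.1
      have b1 := q.2.2.2
      have g0 := gg_pos (lam q.2).1 ((lam q.2).2.trans h1) q.1
      have g1 := gg_le_one ((lam q.2).2.trans h1) q.1
      rcases ff_cases ((1 - (q.2 : ℝ)) * m + q.2 * l) q.1 with h2 | h2 | h2
      · refine emb3_red_left g0 g1 one_pos le_rfl (by rw [h2]; linarith) (by rw [h2]; linarith)
          (RB_apart one_pos le_rfl one_pos le_rfl (by rw [h2]; linarith)).symm.emb'
      · exact emb3_blue_left g0 g1 (by rw [h2]; linarith) (by rw [h2]; linarith)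
      · rw [h2]
        exact hs _ (lam _).1 (lam _).2 _ _ _ (abs_le.2 ⟨by nlinarith, by nlinarith⟩)
          (abs_le.2 ⟨by linarith, by linarith⟩) (abs_le.2 ⟨by nlinarith, by nlinarith⟩)
          (le_abs.2 (Or.inr (by nlinarith))))
  obtain ⟨K, hK⟩ := exists_k3 (Z := I × I)
    (pa := fun q => -1000 * (1 - q.2) + (2000 - 1000 * q.2) * ff q.1)
    (la := fun q => gg ((1 - (q.2 : ℝ)) * m + q.2 * l) q.1) (pw := fun q => 1000 - 1000 * ff q.1)
    (lw := fun _ => 1) (pc := fun q => -1000 * (1 - q.2) * ff q.1 - 1000 * q.2)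
    (by fun_prop) (by fun_prop) (by fun_prop) (by fun_prop) (by fun_prop)
    (fun q => abs_le.2 ⟨by nlinarith [ff_nonneg q.1, q.2.2.2, q.2.2.1],
      by nlinarith [ff_le_one q.1, ff_nonneg q.1, q.2.2.1, q.2.2.2]⟩)
    (fun q => ⟨gg_pos (lam _).1 ((lam _).2.trans h1) _, gg_le_one ((lam _).2.trans h1) _⟩)
    (fun q => abs_le.2 ⟨by linarith [ff_le_one q.1], by linarith [ff_nonneg q.1]⟩)
    (fun q => ⟨one_pos, le_rfl⟩)
    (fun q => abs_le.2 ⟨by nlinarith [ff_le_one q.1, ff_nonneg q.1, q.2.2.1, q.2.2.2],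
      by nlinarith [ff_nonneg q.1, q.2.2.2, q.2.2.1]⟩)
    (fun q => by
      have a0 := ff_nonneg q.1
      have a1 := ff_le_one q.1
      have b0 := q.2.2.1
      have b1 := q.2.2.2
      have g0 := gg_pos (lam q.2).1 ((lam q.2).2.trans h1) q.1
      have g1 := gg_le_one ((lam q.2).2.trans h1) q.1
      rcases ff_cases ((1 - (q.2 : ℝ)) * m + q.2 * l) q.1 with h2 | h2 | h2
      · exact emb3_blue_right g0 g1 (by rw [h2]; linarith) (by rw [h2]; linarith)
      · refine emb3_red_right g0 g1 one_pos le_rfl (by rw [h2]; linarith) (by rw [h2]; linarith)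
          (RB_apart one_pos le_rfl one_pos le_rfl (by rw [h2]; linarith)).emb'
      · rw [h2]
        exact hs _ (lam _).1 (lam _).2 _ _ _ (abs_le.2 ⟨by nlinarith, by nlinarith⟩)
          (abs_le.2 ⟨by linarith, by linarith⟩) (abs_le.2 ⟨by nlinarith, by nlinarith⟩)
          (le_abs.2 (Or.inl (by nlinarith))))
  have c0 : ((0 : I) : ℝ) = 0 := rfl
  have c1 : ((1 : I) : ℝ) = 1 := rfl
  have hFG : ∀ θ, F (θ, 0) = G (θ, 0) := fun θ => YY.ext fun t => by
    simp only [hF, hG, c0, ff0, gg0, sub_zero, one_mul, zero_mul, add_zero]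
    exact k3_congr t (by ring) (by ring) (by ring)
  have hFK : ∀ θ, F (θ, 1) = K (θ, 0) := fun θ => YY.ext fun t => by
    simp only [hF, hK, c0, c1, ff1, gg1, sub_zero, one_mul, zero_mul, add_zero]
    exact k3_congr t (by ring) (by ring) (by ring)
  have hGl : ∀ τ, G (0, τ) = F (0, 0) := fun τ => YY.ext fun t => by
    simp only [hF, hG, c0, ff0, gg0]
    exact k3_congr t (by ring) (by ring) (by ring)
  have hGr : ∀ τ, G (1, σ τ) = G (1, τ) := fun τ => YY.ext fun t => by
    simp only [hG, c1, ff1, gg1, coe_symm_eq]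
    exact k3_swap t (by ring) (by ring) (by ring)
  have hKl : ∀ τ, K (0, σ τ) = K (0, τ) := fun τ => YY.ext fun t => by
    simp only [hK, c0, ff0, gg0, coe_symm_eq]
    exact k3_swap t (by ring) (by ring) (by ring)
  have hKr : ∀ τ, K (1, τ) = F (0, 0) := fun τ => YY.ext fun t => by
    simp only [hF, hK, c0, c1, ff0, gg0, ff1, gg1]
    exact k3_swap t (by ring) (by ring) (by ring)
  have hG11 : G (1, 1) = F (1, 0) := by rw [hFG, ← hGr 0, symm_zero]
  have hK01 : K (0, 1) = F (0, 1) := by rw [hFK, ← hKl 0, symm_zero]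
  have hF11 : F (1, 1) = F (0, 0) := by rw [hFK, hKr]
  let s₁ : Path (F (0, 0)) (F (1, 0)) := ⟨⟨fun θ => G (θ, 1), by fun_prop⟩, hGl 1, hG11⟩
  let s₂ : Path (F (1, 0)) (F (0, 0)) := ⟨⟨fun θ => F (1, θ), by fun_prop⟩, rfl, hF11⟩
  let s₃ : Path (F (0, 0)) (F (0, 1)) := ⟨⟨fun θ => F (0, θ), by fun_prop⟩, rfl, rfl⟩
  let s₄ : Path (F (0, 1)) (F (0, 0)) := ⟨⟨fun θ => K (θ, 1), by fun_prop⟩, hK01, hKr 1⟩
  let S₀ : Path (F (0, 0)) (F (1, 0)) := ⟨⟨fun θ => F (θ, 0), by fun_prop⟩, rfl, rfl⟩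
  let S₁ : Path (F (0, 1)) (F (0, 0)) := ⟨⟨fun θ => F (θ, 1), by fun_prop⟩, rfl, hF11⟩
  let e₀ : Path (F (1, 0)) (F (1, 0)) := ⟨⟨fun τ => G (1, τ), by fun_prop⟩, (hFG 1).symm, hG11⟩
  let e₁ : Path (F (0, 1)) (F (0, 1)) := ⟨⟨fun τ => K (0, τ), by fun_prop⟩, (hFK 0).symm, hK01⟩
  have q1 := squareQ F S₀ s₂ s₃ S₁ (fun _ => rfl) (fun _ => rfl) (fun _ => rfl) (fun _ => rfl)
  have q2 := squareQ G S₀ e₀ (Path.refl _) s₁ (fun θ => (hFG θ).symm) (fun _ => rfl) hGl
    (fun _ => rfl)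
  have q3 := squareQ K S₁ (Path.refl _) e₁ s₄ (fun θ => (hFK θ).symm) hKr (fun _ => rfl)
    (fun _ => rfl)
  rw [Path.Homotopic.Quotient.eq.2 (null_of_symm e₀ hGr), Path.Homotopic.Quotient.mk_refl,
    Path.Homotopic.Quotient.mk_refl, Path.Homotopic.Quotient.trans_refl,
    Path.Homotopic.Quotient.refl_trans] at q2
  rw [Path.Homotopic.Quotient.eq.2 (null_of_symm e₁ hKl), Path.Homotopic.Quotient.mk_refl,
    Path.Homotopic.Quotient.mk_refl, Path.Homotopic.Quotient.trans_refl,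
    Path.Homotopic.Quotient.refl_trans] at q3
  rw [q2, q3, ← Path.Homotopic.Quotient.mk_trans, ← Path.Homotopic.Quotient.mk_trans,
    Path.Homotopic.Quotient.eq] at q1
  refine ⟨_, _, _, s₁, s₂, s₃, s₄, fun θ t => ?_, fun θ t => ?_, fun θ t => ?_, fun θ t => ?_, q1⟩
  · show (G (θ, 1)).1 t = _
    simp only [hG, c1, sub_self, one_mul, zero_mul, zero_add]
    exact k3_congr t (by ring) (by ring) (by ring)
  · show (F (1, θ)).1 t = _
    simp only [hF, c1, ff1, gg1]
    exact k3_congr t (by ring) (by ring) (by ring)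
  · show (F (0, θ)).1 t = _
    simp only [hF, c0, ff0, gg0]
    exact k3_congr t (by ring) (by ring) (by ring)
  · show (K (θ, 1)).1 t = _
    simp only [hK, c1, sub_self, one_mul, zero_mul, zero_add]
    exact k3_congr t (by ring) (by ring) (by ring)

end Pool.Agent.MP_b8ade4_gt.B

end MrgPart7

-- ======== part 8: formerly Pool.Agent.MP_b8ade4_gt.RawNull
section MrgPart8

/-!
Module B: the raw loop `(alpha, alpha inverse)` is null-homotopic.
-/

namespace Pool.Agent.MP_b8ade4_gt.B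
open Complex Real Set unitInterval

/-- append a blue kink on the right -/
noncomputable def addBlue : C(YY (12 * π) 1010, YY (16 * π) 1510) :=
  mkY (fun u t => u.1 (t + 500) * blue 1500 1 t)
    ((YY.cont.comp (f := fun q : YY (12 * π) 1010 × ℝ => (q.1, q.2 + 500)) (by fun_prop)).mul
      (continuous_blue' continuous_const continuous_const continuous_snd fun _ => one_ne_zero))
    fun u => ⟨Emb.concat_b (m := 510) (m' := 1500) (u.2.1.shift_b 500) (emb_blue 1500 one_pos)
        (u.2.2.1.shift_b 500) (L1_blue' 1500 one_pos le_rfl)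
        (fun τ hτ => u.2.2.2 _ (le_abs.2 (Or.inl (by linarith))))
        (fun τ hτ => blue_left one_pos hτ) (by norm_num) (by linarith [Real.pi_lt_d2]),
      ((u.2.2.1.shift_b 500).mul (L1_blue' 1500 one_pos le_rfl)).mono_b (by linarith),
      fun t ht => by
        rcases le_abs.1 ht with h | h
        · rw [u.2.2.2 _ (le_abs.2 (Or.inl (by linarith))), blue_right' one_pos le_rfl (by linarith),
            one_mul]
        · rw [u.2.2.2 _ (le_abs.2 (Or.inr (by linarith))), blue_left one_pos (by linarith),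
            one_mul]⟩

/-- mirror, and put a red kink on the left -/
noncomputable def addRed : C(YY (12 * π) 1010, YY (16 * π) 1510) :=
  mkY (fun u t => red (-1500) 1 t * (starRingEnd ℂ) (u.1 (t + -500)))
    ((continuous_red' continuous_const continuous_const continuous_snd fun _ => one_ne_zero).mul
      (Complex.continuous_conj.comp
        (YY.cont.comp (f := fun q : YY (12 * π) 1010 × ℝ => (q.1, q.2 + -500)) (by fun_prop))))
    fun u => ⟨Emb.concat_b (m := -1493) (m' := -510) (emb_red (-1500) one_pos)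
        (u.2.1.shift_b (-500)).conj_b (L1_red' (-1500) one_pos le_rfl) (u.2.2.1.shift_b (-500)).conj
        (fun τ hτ => red_right' one_pos le_rfl (by linarith))
        (fun τ hτ => by rw [u.2.2.2 _ (le_abs.2 (Or.inr (by linarith))), map_one])
        (by norm_num) (by linarith [Real.pi_lt_d2]),
      ((L1_red' (-1500) one_pos le_rfl).mul (u.2.2.1.shift_b (-500)).conj).mono_b (by linarith),
      fun t ht => by
        rcases le_abs.1 ht with h | h
        · rw [u.2.2.2 _ (le_abs.2 (Or.inl (by linarith))), red_right' one_pos le_rfl (by linarith),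
            map_one, one_mul]
        · rw [u.2.2.2 _ (le_abs.2 (Or.inr (by linarith))), red_left one_pos (by linarith),
            map_one, one_mul]⟩

theorem addBlue_k3 {u : YY (12 * π) 1010} {a b c d e : ℝ} (h : ∀ t, u.1 t = k3 a b c d e t) (t : ℝ) :
    (addBlue u).1 t = red (a - 500) b t * (blue (c - 500) d t * red (e - 500) 1 t) *
      blue 1500 1 t := by
  show u.1 (t + 500) * blue 1500 1 t = _
  rw [h, k3, red_shift, blue_shift, red_shift]

theorem addRed_k3 {u : YY (12 * π) 1010} {a b c d e : ℝ} (h : ∀ t, u.1 t = k3 a b c d e t) (t : ℝ) :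
    (addRed u).1 t = red (-1500) 1 t *
      (blue (a + 500) b t * (red (c + 500) d t * blue (e + 500) 1 t)) := by
  show red (-1500) 1 t * (starRingEnd ℂ) (u.1 (t + -500)) = _
  rw [h, k3, red_shift, blue_shift, red_shift, map_mul, map_mul, conj_red, conj_blue, conj_red]
  simp only [sub_neg_eq_add]

theorem abs_pr_le (θ : ℝ) : |pr θ| ≤ 500 := by
  rcases le_total θ (1 / 2) with h | h
  · rw [pr, ff_of_le (θ := 2 * θ - 1) (by linarith)]
    exact abs_le.2 ⟨by linarith [ff_nonneg (2 * θ)], by linarith [ff_le_one (2 * θ)]⟩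
  · rw [pr, ff_of_ge (θ := 2 * θ) (by linarith)]
    exact abs_le.2 ⟨by linarith [ff_le_one (2 * θ - 1)], by linarith [ff_nonneg (2 * θ - 1)]⟩

theorem L1_al {l : ℝ} (hl : 0 < l) (h1 : l ≤ 1) (θ : ℝ) : L1 (al l θ) (8 * π) :=
  ((L1_red' _ (gg_pos hl h1 _) (gg_le_one h1 _)).mul
    (L1_blue' _ (gg_pos hl h1 _) (gg_le_one h1 _))).mono_b (by linarith)

theorem al_far {l : ℝ} (hl : 0 < l) (h1 : l ≤ 1) (θ : ℝ) {t : ℝ} (ht : 510 ≤ |t|) :
    al l θ t = 1 := by
  have a := abs_le.1 (abs_pr_le θ)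
  unfold al
  rcases le_abs.1 ht with h | h
  · rw [red_right' (gg_pos hl h1 _) (gg_le_one h1 _) (by linarith),
      blue_right' (gg_pos hl h1 _) (gg_le_one h1 _) (by linarith), one_mul]
  · rw [red_left (gg_pos hl h1 _) (by linarith), blue_left (gg_pos hl h1 _) (by linarith), one_mul]

theorem _root_.Pool.Agent.MP_b8ade4_gt.Win.emb_b {l : ℝ} (h : Win l) (θ : ℝ) : Emb (al l θ) := by
  intro s t hst hW
  rcases h θ s t hst hW with h1 | h1
  · exact h1.1.ne'
  · exact h1.1.ne

theorem continuous_al {Z : Type*} [TopologicalSpace Z] {l : ℝ} (hl : 0 < l) (h1 : l ≤ 1)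
    {θ t : Z → ℝ} (hθ : Continuous θ) (ht : Continuous t) :
    Continuous fun z => al l (θ z) (t z) :=
  (continuous_red' (by fun_prop) (by fun_prop) ht fun _ => (gg_pos hl h1 _).ne').mul
    (continuous_blue' (by fun_prop) (by fun_prop) ht fun _ => (gg_pos hl h1 _).ne')

theorem al_zero (l t : ℝ) : al l 0 t = red (-500) 1 t * blue 500 1 t := by
  rw [al_first l (by norm_num), mul_zero, ff0, gg0]
  norm_num

theorem al_one (l t : ℝ) : al l 1 t = al l 0 t := by
  rw [al_zero, al_second l (by norm_num), show (2 : ℝ) * 1 - 1 = 1 by norm_num, ff1, gg1]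
  norm_num

/-- Module B -/
theorem _root_.Pool.Agent.MP_b8ade4_gt.raw_null : ∃ l : ℝ, 0 < l ∧ l ≤ 1 / 2 ∧ Win l ∧ ∃ H : I × I → ℝ → ℂ,
    (Continuous fun q : (I × I) × ℝ => H q.1 q.2) ∧
    (∀ q, Emb (H q) ∧ L1 (H q) (16 * π) ∧ ∀ t, 1510 ≤ |t| → H q t = 1) ∧
    (∀ θ t, H (θ, 0) t = al l θ (t + 1000) * al l (1 - θ) (t - 1000)) ∧
    (∀ θ τ, H (θ, 1) = H (0, 0) ∧ H (0, τ) = H (0, 0) ∧ H (1, τ) = H (0, 0)) := by
  obtain ⟨l₁, a1, a2, a3⟩ := RB_small
  obtain ⟨l₂, b1, b2⟩ := emb3_small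
  set l := min l₁ l₂ with hld
  have hl : 0 < l := lt_min a1 b1
  have l1 : l ≤ l₁ := min_le_left _ _
  have l2 : l ≤ l₂ := min_le_right _ _
  have h1 : l ≤ 1 := by linarith
  have hRB := a3 l hl l1
  have hW := win_of hl h1 hRB
  refine ⟨l, hl, by linarith, hW, ?_⟩
  obtain ⟨a, b, c, s₁, s₂, s₃, s₄, e₁, e₂, e₃, e₄, hh⟩ :=
    braid hl h1 hRB fun l' h2 h3 => b2 l' h2 (h3.trans l2)
  let K : C(I × I, YY (16 * π) 1510) :=
    mkY (fun q t => al l q.1 (t + 1000) * al l q.2 (t + -1000))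
      ((continuous_al hl h1 (by fun_prop) (by fun_prop)).mul
        (continuous_al hl h1 (by fun_prop) (by fun_prop)))
      fun q => ⟨Emb.concat_b (m := -490) (m' := 490) ((hW.emb_b _).shift_b 1000) ((hW.emb_b _).shift_b (-1000))
          ((L1_al hl h1 _).shift_b 1000) ((L1_al hl h1 _).shift_b (-1000))
          (fun τ hτ => al_far hl h1 _ (le_abs.2 (Or.inl (by linarith))))
          (fun τ hτ => al_far hl h1 _ (le_abs.2 (Or.inr (by linarith))))
          (by norm_num) (by linarith [Real.pi_lt_d2]),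
        (((L1_al hl h1 _).shift_b 1000).mul ((L1_al hl h1 _).shift_b (-1000))).mono_b (by linarith),
        fun t ht => by
          rcases le_abs.1 ht with h | h
          · rw [al_far hl h1 _ (le_abs.2 (Or.inl (by linarith))),
              al_far hl h1 _ (le_abs.2 (Or.inl (by linarith))), one_mul]
          · rw [al_far hl h1 _ (le_abs.2 (Or.inr (by linarith))),
              al_far hl h1 _ (le_abs.2 (Or.inr (by linarith))), one_mul]⟩
  have hK : ∀ q t, (K q).1 t = al l q.1 (t + 1000) * al l q.2 (t + -1000) := fun _ _ => rfl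
  have c0 : ((0 : I) : ℝ) = 0 := rfl
  have c1 : ((1 : I) : ℝ) = 1 := rfl
  have K10 : K (1, 0) = K (0, 0) := YY.ext fun t => by simp only [hK, c0, c1, al_one]
  have K01 : K (0, 1) = K (0, 0) := YY.ext fun t => by simp only [hK, c0, c1, al_one]
  let L : Path (K (0, 0)) (K (0, 0)) := ⟨⟨fun θ => K (θ, 0), by fun_prop⟩, rfl, K10⟩
  let R : Path (K (0, 0)) (K (0, 0)) := ⟨⟨fun θ => K (0, θ), by fun_prop⟩, rfl, K01⟩
  have p1 : ∀ θ, addBlue ((s₁.trans s₂) θ) = L θ := fun θ => YY.ext fun t => by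
    show _ = (K (θ, 0)).1 t
    rw [hK, Path.trans_apply]
    split_ifs with h
    · rw [addBlue_k3 (e₁ _), al_first l h]
      simp only [c0, al_zero, red_shift, blue_shift]
      ring_nf
    · rw [addBlue_k3 (e₂ _), al_second l (not_le.1 h).le]
      simp only [c0, al_zero, red_shift, blue_shift]
      ring_nf
  have p2 : ∀ θ, addBlue ((s₃.trans s₄) θ) = addRed ((s₁.trans s₂) θ) :=
    fun θ => YY.ext fun t => by
    rw [Path.trans_apply, Path.trans_apply]
    split_ifs with h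
    · rw [addBlue_k3 (e₃ _), addRed_k3 (e₁ _)]
      ring_nf
    · rw [addBlue_k3 (e₄ _), addRed_k3 (e₂ _)]
      ring_nf
  have p3 : ∀ θ, addRed ((s₃.trans s₄) θ) = R θ := fun θ => YY.ext fun t => by
    show _ = (K (0, θ)).1 t
    rw [hK, Path.trans_apply]
    split_ifs with h
    · rw [addRed_k3 (e₃ _), al_first l h]
      simp only [c0, al_zero, red_shift, blue_shift]
      ring_nf
    · rw [addRed_k3 (e₄ _), al_second l (not_le.1 h).le]
      simp only [c0, al_zero, red_shift, blue_shift]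
      ring_nf
  have ha : K (0, 0) = addBlue a := by rw [← L.source, ← p1, Path.source]
  have ha' : K (0, 0) = addRed a := by rw [← R.source, ← p3, Path.source]
  have k1 := (hh.map addBlue).pathCast ha ha
  have k2 := (hh.map addRed).pathCast ha' ha'
  have q1 : ((s₁.trans s₂).map addBlue.continuous).cast ha ha = L := by
    ext θ; simp only [Path.cast_coe, Path.map_coe, Function.comp, p1]
  have q2 : ((s₃.trans s₄).map addBlue.continuous).cast ha ha =
      ((s₁.trans s₂).map addRed.continuous).cast ha' ha' := by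
    ext θ; simp only [Path.cast_coe, Path.map_coe, Function.comp, p2]
  have q3 : ((s₃.trans s₄).map addRed.continuous).cast ha' ha' = R := by
    ext θ; simp only [Path.cast_coe, Path.map_coe, Function.comp, p3]
  rw [q1, q2] at k1
  rw [q3] at k2
  have hLR : L.Homotopic R := k1.trans k2
  let β : Path (K (0, 0)) (K (0, 0)) := ⟨⟨fun θ => K (θ, σ θ), by fun_prop⟩,
    by simp only [symm_zero]; exact K01, by simp only [symm_one]; exact K10⟩
  let Q : C(I × I, YY (16 * π) 1510) := ⟨fun q => K (q.1, σ q.1 * σ q.2), by fun_prop⟩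
  have q4 := squareQ Q β (Path.refl _) R.symm L
    (fun θ => by show K (θ, σ θ * σ 0) = K (θ, σ θ); rw [symm_zero, mul_one])
    (fun τ => by show K (1, σ 1 * σ τ) = K (0, 0); rw [symm_one, zero_mul, K10])
    (fun τ => by show K (0, σ 0 * σ τ) = K (0, σ τ); rw [symm_zero, one_mul])
    (fun θ => by show K (θ, σ θ * σ 1) = K (θ, 0); rw [symm_one, mul_zero])
  rw [Path.Homotopic.Quotient.eq.2 hLR, Path.Homotopic.Quotient.mk_refl,
    Path.Homotopic.Quotient.trans_refl, Path.Homotopic.Quotient.mk_symm,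
    Path.Homotopic.Quotient.symm_trans, ← Path.Homotopic.Quotient.mk_refl,
    Path.Homotopic.Quotient.eq] at q4
  obtain ⟨H⟩ := q4
  have H0 : H (0, 0) = K (0, 0) := H.source 0
  refine ⟨fun q t => (H (q.2, q.1)).1 t,
    YY.cont.comp (f := fun q : (I × I) × ℝ => (H (q.1.2, q.1.1), q.2)) (by fun_prop),
    fun q => (H (q.2, q.1)).2, fun θ t => ?_, fun θ τ => ⟨?_, ?_, ?_⟩⟩
  · show (H (0, θ)).1 t = _
    rw [H.apply_zero]
    show (K (θ, σ θ)).1 t = _
    rw [hK, coe_symm_eq, sub_eq_add_neg t]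
  · show (fun t => (H (1, θ)).1 t) = fun t => (H (0, 0)).1 t
    rw [H.apply_one, H0]
    rfl
  · show (fun t => (H (τ, 0)).1 t) = fun t => (H (0, 0)).1 t
    rw [H.source, H0]
  · show (fun t => (H (τ, 1)).1 t) = fun t => (H (0, 0)).1 t
    rw [H.target, H0]

end Pool.Agent.MP_b8ade4_gt.B

end MrgPart8

-- ======== part 9: formerly Pool.Agent.MP_b8ade4_gt.CFin
section MrgPart9

/-!
Assembly: from the continuous layer to long Legendrian embeddings.
-/

namespace Pool.Agent.MP_b8ade4_gt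

open Set Filter Topology unitInterval

variable {P : Type*} [TopologicalSpace P]

theorem SC.smf {E : Type*} [NormedAddCommGroup E] [NormedSpace ℝ E] {f : P → ℝ → E} (h : SC f) :
    SmF f := SmF.of_iter h.smooth fun k => (h k).iter.2

/-- a smooth good family gives a continuous family of long embeddings in a box -/
noncomputable def mkB {u : P → ℝ → ℂ} (hu : SC u) {m B K : ℝ} (h : ∀ p, Gd (u p) m B) (hm : 0 ≤ m)
    (hK : m + B + 11 ≤ K) : C(P, {γ : Long // InBox K γ.1}) :=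
  ⟨fun p => ⟨⟨Leg K (NN 1 K (u p)), isLong_Leg hu p (h p) hm hK⟩, Leg_inBox (h p) hm hK le_rfl⟩,
    Continuous.subtype_mk (continuous_long (T := K) (SC_Leg (SC_NN hu K continuous_const) K).smf
      fun p t ht => Leg_std (h p) hm hK t ht) _⟩

theorem mkB_ext {K : ℝ} {a b : {γ : Long // InBox K γ.1}} {u v : ℝ → ℂ} (e : u = v)
    (ha : a.1.1 = Leg K (NN 1 K u)) (hb : b.1.1 = Leg K (NN 1 K v)) : a = b :=
  Subtype.ext (Subtype.ext (by rw [ha, hb, e]))

/-- a jointly continuous controlled family gives a continuous map to `XX` -/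
noncomputable def mkX {u : P → ℝ → ℂ} (hu : Continuous fun q : P × ℝ => u q.1 q.2) {T M : ℝ}
    (h : ∀ p, (∀ t, u p t ≠ 0) ∧ Emb (u p) ∧ (∀ t, T ≤ |t| → 0 < (u p t).re) ∧ Dev (u p) M) :
    C(P, XX T M) :=
  ⟨fun p => ⟨⟨u p, hu.comp (Continuous.prodMk_right p)⟩, h p⟩,
    Continuous.subtype_mk (ContinuousMap.continuous_of_continuous_uncurry _ hu) _⟩

theorem mkX_ext {T M : ℝ} {a b : XX T M} (e : ⇑a.1 = ⇑b.1) : a = b :=
  Subtype.ext (ContinuousMap.ext fun t => congrFun e t)

theorem nontriv_of {l : ℝ} (hl : 0 < l) (hl' : l ≤ 1 / 2) (hW : Win l) {γ : Long} (α : Path γ γ)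
    {n : I × I → ℝ → ℂ} (hn : Continuous fun q : (I × I) × ℝ => n q.1 q.2) {K B : ℝ}
    (hg : ∀ q, Gd (n q) K B) (h0 : ∀ θ, n (θ, 0) = al l θ) (h1 : ∀ θ, n (θ, 1) = lag (α θ).1)
    (hs : ∀ τ, n (0, τ) = n (1, τ)) : ¬ α.Homotopic (Path.refl γ) := by
  rintro ⟨G⟩
  have hG : Continuous fun q : I × I => G (q.2, q.1) := G.continuous.comp continuous_swap
  obtain ⟨T, M, hc⟩ := long_control hG
  have hmono : ∀ {u : ℝ → ℂ} {a b : ℝ}, Dev u a → a ≤ b → Dev u b :=
    fun h hab s t hst => le_trans (by linarith) (h s t hst)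
  let F₁ : C(I × I, XX (max T K) (max M B)) := mkX hn fun q =>
    ⟨(hg q).ne, (hg q).emb, fun t ht => by
      rw [(hg q).one t ((le_max_right _ _).trans ht)]; exact one_pos,
      hmono (hg q).dev (le_max_right _ _)⟩
  let F₂ : C(I × I, XX (max T K) (max M B)) := mkX (smf_lag (smf_of_long hG)).cont fun q =>
    ⟨(G (q.2, q.1)).2.lag_ne, (G (q.2, q.1)).2.emb,
      fun t ht => (hc q).1 t ((le_max_left _ _).trans ht), hmono (hc q).2 (le_max_left _ _)⟩
  let α₀ : Path (F₁ (0, 0)) (F₁ (0, 0)) :=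
    ⟨⟨fun θ => F₁ (θ, 0), by fun_prop⟩, rfl, mkX_ext (hs 0).symm⟩
  let α₁ : Path (F₁ (0, 1)) (F₁ (0, 1)) :=
    ⟨⟨fun θ => F₁ (θ, 1), by fun_prop⟩, rfl, mkX_ext (hs 1).symm⟩
  refine raw_nontriv hl hl' hW α₀ (fun θ t => congrFun (h0 θ) t) ?_
  refine null_of_free F₁ α₀ α₁ (fun _ => rfl) (fun _ => rfl) (fun τ => mkX_ext (hs τ)) ?_
  refine null_of_free F₂ α₁ (Path.refl (F₂ (0, 1))) (fun θ => mkX_ext ?_) (fun θ => mkX_ext ?_)
    (fun τ => mkX_ext ?_) (Path.Homotopic.refl _)
  · show lag (G (0, θ)).1 = n (θ, 1)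
    rw [h1]; simp
  · show lag (G (1, θ)).1 = lag (G (1, 0)).1
    simp
  · show lag (G (τ, 0)).1 = lag (G (τ, 1)).1
    simp

theorem lag_Leg {u : ℝ → ℂ} (hu : Continuous u) (K : ℝ) : lag (Leg K u) = u := by
  funext t
  apply Complex.ext
  · rw [lag_re, (isLeg_Leg hu K t).deriv]
  · rw [lag_im, (isLeg_Leg hu K t).deriv]

theorem Leg_glue {u v : ℝ → ℂ} {m B K R : ℝ} (hu : Gd u m B) (hv : Gd v m B) (hm : 0 ≤ m)
    (hK : m + B + 11 ≤ K) (hR : K < R) :
    Leg (2 * R) (NN 1 (2 * R) fun t => NN 1 K u (t + R) * NN 1 K v (t - R)) =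
      glue R (Leg K (NN 1 K u)) (Leg K (NN 1 K v)) := by
  have hB := hu.dev.nonneg
  have gu := gd_NN hu hm hK zero_le_one le_rfl
  have gv := gd_NN hv hm hK zero_le_one le_rfl
  have hl := (isLeg_Leg gu.cont K).glue (isLeg_Leg gv.cont K) hR (Leg_std hu hm hK)
    (Leg_std hv hm hK) gu.one gv.one
  have hc : Continuous fun t => NN 1 K u (t + R) * NN 1 K v (t - R) :=
    (gu.cont.comp (by fun_prop)).mul (gv.cont.comp (by fun_prop))
  have e := hl.eq_Leg hc (K := 2 * R) (by
    rw [glue, if_pos (by linarith), Leg_std hu hm hK _ (le_abs.2 (Or.inr (by linarith)))]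
    simp only [Prod.mk_sub_mk, sub_self, Prod.mk.injEq, and_true, Prod.mk_zero_zero]
    ring)
  have e2 := congrFun e (2 * R)
  rw [glue, if_neg (by linarith), Leg_std hv hm hK _ (le_abs.2 (Or.inl (by linarith)))] at e2
  have a1 := congrArg (fun z => z.1) e2
  have a2 := congrArg (fun z => z.2.1) e2
  have a3 := congrArg (fun z => z.2.2) e2
  simp only [Leg, Prod.mk_add_mk, add_zero] at a1 a2 a3
  rw [NN_of_closed (Complex.ext (by rw [Complex.ofReal_re]; linarith) (by simpa using a2)) a3, e]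

set_option maxHeartbeats 400000 in
theorem main : ∃ (γ : Long) (α : Path γ γ), ¬ α.Homotopic (Path.refl γ) ∧
    ∃ T > 0, (∀ θ, InBox T (α θ).1) ∧ ∀ R ≥ T, ∃ (δ : Long) (β : Path δ δ),
      (∀ θ, (β θ).1 = glue R (α θ).1 (α.symm θ).1) ∧
      ∃ H : β.Homotopy (Path.refl δ), ∀ q, InBox (2 * R) (H q).1 := by
  obtain ⟨l, hl, hl', hW, H, hHc, hHg, hH0, hH1⟩ := raw_null
  have hl1 : l ≤ 1 := by linarith
  have hpi := Real.pi_lt_d2
  have hpi0 := Real.pi_pos
  have hac : Continuous fun q : I × ℝ => al l q.1 q.2 :=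
    B.continuous_al hl hl1 (by fun_prop) continuous_snd
  obtain ⟨δ₁, hδ₁, m₁⟩ := moll_gd (x := fun θ : I => al l θ) (m := 510) (by norm_num) hac
    (fun θ => hW.emb_b θ) (fun θ => B.L1_al hl hl1 θ) fun θ t ht => B.al_far hl hl1 θ ht
  obtain ⟨δ₂, hδ₂, m₂⟩ := moll_gd (x := H) (m := 1510) (by norm_num) hHc (fun q => (hHg q).1)
    (fun q => (hHg q).2.1) fun q => (hHg q).2.2
  obtain ⟨g, hg⟩ := exists_ker (lt_min (lt_min hδ₁ hδ₂) one_pos)
  have hg0 := hg.zero (min_le_right _ _)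
  replace m₁ := m₁ _ g ((min_le_left _ _).trans (min_le_left _ _)) (min_le_right _ _) hg
  replace m₂ := m₂ _ g ((min_le_left _ _).trans (min_le_right _ _)) (min_le_right _ _) hg
  have sv : SC fun θ : I => cv g (al l θ) := SC_cv hg.1 hg0 hac
  have sH : SC fun q => cv g (H q) := SC_cv hg.1 hg0 hHc
  have gv : ∀ θ : I, Gd (cv g (al l θ)) (510 + 1) (8 * Real.pi + 1) := fun θ => by
    simpa using m₁ θ 1 zero_le_one le_rfl
  have gH : ∀ q, Gd (cv g (H q)) (1510 + 1) (16 * Real.pi + 1) := fun q => by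
    simpa using m₂ q 1 zero_le_one le_rfl
  have a10 : al l ((1 : I) : ℝ) = al l ((0 : I) : ℝ) := funext fun t => B.al_one l t
  have hK : (510 + 1 : ℝ) + (8 * Real.pi + 1) + 11 ≤ 700 := by linarith
  let F : C(I, {γ : Long // InBox 700 γ.1}) := mkB sv gv (by norm_num) hK
  let α : Path (F 0).1 (F 0).1 :=
    ⟨⟨fun θ => (F θ).1, by fun_prop⟩, rfl, congrArg Subtype.val (mkB_ext (congrArg (cv g) a10) rfl rfl)⟩
  have hα : ∀ θ, (α θ).1 = Leg 700 (NN 1 700 (cv g (al l θ))) := fun θ => rfl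
  refine ⟨(F 0).1, α, ?_, 1000, by norm_num, fun θ => ?_, fun R hR => ?_⟩
  · refine nontriv_of hl hl' hW α (K := 700) (B := 8 * Real.pi + 1)
      (n := fun q => NN q.2 700 fun t => (1 - q.2 : ℝ) * al l q.1 t + q.2 * cv g (al l q.1) t)
      (cont_NN (u := fun (q : I × I) t => (1 - q.2 : ℝ) * al l q.1 t + q.2 * cv g (al l q.1) t)
        ?_ 700 (τ := fun q : I × I => q.2) (by fun_prop))
      (fun q => gd_NN (m₁ q.1 q.2 q.2.2.1 q.2.2.2) (by norm_num) hK q.2.2.1 q.2.2.2)
      (fun θ => ?_) (fun θ => ?_) fun τ => by rw [a10]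
    · have k1 : Continuous fun q : (I × I) × ℝ => al l q.1.1 q.2 :=
        B.continuous_al hl hl1 (by fun_prop) continuous_snd
      have k2 : Continuous fun q : (I × I) × ℝ => cv g (al l q.1.1) q.2 :=
        (sv.comp (g := fun q : I × I => q.1) continuous_fst).cont
      have k3 : Continuous fun q : (I × I) × ℝ => ((1 - q.1.2 : ℝ) : ℂ) := by fun_prop
      have k4 : Continuous fun q : (I × I) × ℝ => (((q.1.2 : I) : ℝ) : ℂ) := by fun_prop
      exact (k3.fun_mul k1).fun_add (k4.fun_mul k2)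
    · simp [NN_zero]
    · rw [hα, lag_Leg (gd_NN (gv θ) (by norm_num) hK zero_le_one le_rfl).cont]
      simp
  · exact Leg_inBox (gv θ) (by norm_num) hK (by norm_num)
  · have hR' : (1000 : ℝ) ≤ R := hR
    have sn : SC fun q : I × I => NN (1 - q.2) 700 (cv g (al l q.1)) :=
      SC_NN (sv.comp continuous_fst) 700 (by fun_prop)
    have gn : ∀ q : I × I, Gd (NN (1 - q.2) 700 (cv g (al l q.1))) 700 (8 * Real.pi + 1) :=
      fun q => gd_NN (gv q.1) (by norm_num) hK (by linarith [q.2.2.2]) (by linarith [q.2.2.1])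
    have sU : SC fun (q : I × I) t =>
        NN (1 - q.2) 700 (cv g (al l q.1)) (t + (R - q.2 * (R - 1000))) *
          NN (1 - q.2) 700 (cv g (al l (σ q.1))) (t - (R - q.2 * (R - 1000))) :=
      (sn.shift (by fun_prop)).mul
        ((sn.comp (g := fun q : I × I => (σ q.1, q.2)) (by fun_prop)).shift
          (c := fun q : I × I => -(R - q.2 * (R - 1000))) (by fun_prop))
    have gU : ∀ q : I × I, Gd (fun t =>
        NN (1 - q.2) 700 (cv g (al l q.1)) (t + (R - q.2 * (R - 1000))) *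
          NN (1 - q.2) 700 (cv g (al l (σ q.1))) (t - (R - q.2 * (R - 1000)))) (R + 700)
        ((8 * Real.pi + 1) + (8 * Real.pi + 1)) := fun q => by
      have h1 : 0 ≤ (q.2 : ℝ) * (R - 1000) := mul_nonneg q.2.2.1 (by linarith)
      have h2 : (q.2 : ℝ) * (R - 1000) ≤ R - 1000 := mul_le_of_le_one_left (by linarith) q.2.2.2
      exact (gd_glue (gn q) (gn (σ q.1, q.2)) (by norm_num) (by linarith)).mono (by linarith) le_rfl
    let F₁ : C(I × I, {γ : Long // InBox (2 * R) γ.1}) := mkB sU gU (by linarith) (by linarith)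
    let F₂ : C(I × I, {γ : Long // InBox (2 * R) γ.1}) := mkB sH gH (by norm_num) (by linarith)
    have e01 : ∀ τ, F₁ (0, τ) = F₁ (1, τ) := fun τ => mkB_ext (by
      simp only [symm_zero, symm_one, a10]) rfl rfl
    let β₁ : Path (F₁ (0, 0)) (F₁ (0, 0)) := ⟨⟨fun θ => F₁ (θ, 0), by fun_prop⟩, rfl, (e01 0).symm⟩
    let β₂ : Path (F₂ (0, 0)) (F₂ (0, 0)) :=
      ⟨⟨fun θ => F₂ (θ, 0), by fun_prop⟩, rfl, mkB_ext (congrArg (cv g) (hH1 0 0).2.2) rfl rfl⟩
    have n₂ : β₂.Homotopic (Path.refl _) :=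
      null_of_free F₂ β₂ (Path.refl (F₂ (0, 0))) (fun _ => rfl)
        (fun θ => mkB_ext (congrArg (cv g) (hH1 θ 0).1) rfl rfl)
        (fun τ => mkB_ext (congrArg (cv g) ((hH1 0 τ).2.1.trans (hH1 0 τ).2.2.symm)) rfl rfl)
        (Path.Homotopic.refl _)
    have n₁ : β₁.Homotopic (Path.refl _) := by
      refine null_of_free F₁ β₁ β₂ (fun _ => rfl) (fun θ => mkB_ext ?_ rfl rfl) e01 n₂
      funext t
      have e : H (θ, 0) = fun t => al l θ (t + 1000) * al l (σ θ) (t + -1000) :=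
        funext fun t => hH0 θ t
      simp only [Icc.coe_one, sub_self, NN_zero, one_mul, sub_sub_cancel, e]
      by_cases ht : t ≤ 0
      · rw [(gv (σ θ)).one _ (le_abs.2 (Or.inr (by linarith))), mul_one, ← cv_shift]
        refine cv_congr hg0 fun τ hτ => ?_
        rw [B.al_far hl hl1 (σ θ) (le_abs.2 (Or.inr (by linarith [(abs_le.1 hτ).2]))), mul_one]
      · rw [(gv θ).one _ (le_abs.2 (Or.inl (by linarith [not_le.1 ht]))), one_mul, sub_eq_add_neg,
          ← cv_shift]
        refine cv_congr hg0 fun τ hτ => ?_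
        rw [B.al_far hl hl1 θ (le_abs.2 (Or.inl (by linarith [(abs_le.1 hτ).1, not_le.1 ht]))),
          one_mul]
    obtain ⟨G⟩ := n₁
    refine ⟨(F₁ (0, 0)).1, β₁.map continuous_subtype_val, fun θ => ?_,
      (G.map ⟨Subtype.val, continuous_subtype_val⟩).cast rfl (by ext; rfl), fun q => (G q).2⟩
    rw [Path.symm_apply, Function.comp_apply, hα, hα,
      ← Leg_glue (gv θ) (gv (σ θ)) (by norm_num) hK (by linarith)]
    show Leg (2 * R) (NN 1 (2 * R) _) = _
    simp

end Pool.Agent.MP_b8ade4_gt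

end MrgPart9

-- marker of a merged file
example : 731051 + 285944 = 731051 + 285944 := rfl
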