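import Pool.Agent.MP_b8ade4_gt.CTop

/-! Legendrian lifts and the connected sum. -/

namespace Pool.Agent.MP_b8ade4_gt

open Set Filter Topology

variable {X : Type*} [TopologicalSpace X]

/-- smooth and tangent to the contact planes -/
def Leg (γ : ℝ → ℝ × ℝ × ℝ) : Prop :=
  ContDiff ℝ (⊤ : ℕ∞) γ ∧ ∀ t, (deriv γ t).2.2 = (γ t).2.1 * (deriv γ t).1

lemma IsLong.toLeg {γ : ℝ → ℝ × ℝ × ℝ} (h : IsLong γ) : Leg γ := ⟨h.smooth, h.leg⟩

lemma W_lag_re {γ : ℝ → ℝ × ℝ × ℝ} (h : ContDiff ℝ (⊤ : ℕ∞) γ) (s t : ℝ) :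
    (W (lag γ) s t).re = (γ t).1 - (γ s).1 := by rw [W_lag h]; simp
lemma W_lag_im {γ : ℝ → ℝ × ℝ × ℝ} (h : ContDiff ℝ (⊤ : ℕ∞) γ) (s t : ℝ) :
    (W (lag γ) s t).im = (γ t).2.1 - (γ s).2.1 := by rw [W_lag h]; simp

/-- a Legendrian curve is determined by one point and the derivative of its projection -/
lemma ext_lag {γ δ : ℝ → ℝ × ℝ × ℝ} (hγ : Leg γ) (hδ : Leg δ) {s t : ℝ} (hst : s ≤ t)
    (h : ∀ τ ∈ Icc s t, lag γ τ = lag δ τ) : γ s = δ s ↔ γ t = δ t := by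
  have w := W_congr hst h
  have a := A_congr hst h
  have w1 := congrArg Complex.re w
  have w2 := congrArg Complex.im w
  rw [W_lag_re hγ.1, W_lag_re hδ.1] at w1
  rw [W_lag_im hγ.1, W_lag_im hδ.1] at w2
  rw [A_lag hγ.1 hγ.2, A_lag hδ.1 hδ.2] at a
  constructor
  · intro e
    rw [e] at w1 w2 a
    have x : (γ t).1 = (δ t).1 := by linarith
    have y : (γ t).2.1 = (δ t).2.1 := by linarith
    rw [x, y] at a
    exact Prod.ext x (Prod.ext y (by linarith))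
  · intro e
    rw [e] at w1 w2 a
    have x : (γ s).1 = (δ s).1 := by linarith
    have y : (γ s).2.1 = (δ s).2.1 := by linarith
    rw [x, y] at a
    exact Prod.ext x (Prod.ext y (by linarith))

lemma ext_lag' {γ δ : ℝ → ℝ × ℝ × ℝ} (hγ : Leg γ) (hδ : Leg δ) (h : lag γ = lag δ) {s : ℝ}
    (e : γ s = δ s) : γ = δ := by
  funext t
  rcases le_total s t with q | q
  · exact (ext_lag hγ hδ q fun τ _ => congrFun h τ).1 e
  · exact (ext_lag hγ hδ q fun τ _ => congrFun h τ).2 e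

def ax (t : ℝ) : ℝ × ℝ × ℝ := (t, 0, 0)

lemma hd_ax (t : ℝ) : HasDerivAt ax (1, 0, 0) t := (hasDerivAt_id t).prodMk (hasDerivAt_const t _)
lemma leg_ax : Leg ax := ⟨by unfold ax; fun_prop, fun t => by rw [(hd_ax t).deriv]; simp [ax]⟩
lemma lag_ax (t : ℝ) : lag ax t = 1 := by simp [lag, (hd_ax t).deriv]

noncomputable def lift (E : ℝ) (u : ℝ → ℂ) (t : ℝ) : ℝ × ℝ × ℝ :=
  (-E + (W u (-E) t).re, (W u (-E) t).im, ∫ τ in (-E)..t, (W u (-E) τ).im * (u τ).re)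

lemma smf_lift (E : ℝ) {u : X → ℝ → ℂ} (h : SmF u) : SmF fun a => lift E (u a) :=
  ((SmF.const continuous_const).add (h.integral (-E)).re).prod
    ((h.integral (-E)).im.prod (((h.integral (-E)).im.mul h.re).integral (-E)))

lemma hd_lift (E : ℝ) {u : ℝ → ℂ} (h : Continuous u) (t : ℝ) :
    HasDerivAt (lift E u) ((u t).re, (u t).im, (W u (-E) t).im * (u t).re) t := by
  have hw : ∀ t, HasDerivAt (W u (-E)) (u t) t := fun t =>
    (h.integral_hasStrictDerivAt (-E) t).hasDerivAt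
  have hc : Continuous (W u (-E)) := continuous_iff_continuousAt.2 fun t => (hw t).continuousAt
  have c : Continuous fun τ => (W u (-E) τ).im * (u τ).re := by fun_prop
  exact ((Complex.reCLM.hasFDerivAt.comp_hasDerivAt t (hw t)).const_add (-E)).prodMk
    ((Complex.imCLM.hasFDerivAt.comp_hasDerivAt t (hw t)).prodMk
      (c.integral_hasStrictDerivAt (-E) t).hasDerivAt)

lemma lag_lift (E : ℝ) {u : ℝ → ℂ} (h : Continuous u) : lag (lift E u) = u := by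
  funext t
  rw [lag, (hd_lift E h t).deriv]
  exact Complex.re_add_im _

lemma leg_lift (E : ℝ) {u : ℝ → ℂ} (h : ContDiff ℝ (⊤ : ℕ∞) u) : Leg (lift E u) :=
  ⟨(smf_lift E (SmF.of_contDiff (X := Unit) h)).contDiff (),
    fun t => by rw [(hd_lift E h.continuous t).deriv]; rfl⟩

lemma lift_base (E : ℝ) (u : ℝ → ℂ) : lift E u (-E) = ax (-E) := by simp [lift, ax, W]

lemma lift_std {E : ℝ} {u : ℝ → ℂ} (h : ContDiff ℝ (⊤ : ℕ∞) u) {T : ℝ} (hT : T ≤ E)
    (h1 : ∀ t, T ≤ |t| → u t = 1) (hc : lift E u E = ax E) (t : ℝ) (ht : T ≤ |t|) :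
    lift E u t = ax t := by
  have hl := leg_lift E h
  have e : ∀ τ, T ≤ |τ| → lag (lift E u) τ = lag ax τ := fun τ hτ => by
    rw [lag_lift E h.continuous, lag_ax, h1 τ hτ]
  rcases le_abs.1 ht with q | q
  · rcases le_total t E with r | r
    · exact (ext_lag hl leg_ax r fun τ hτ => e τ (le_abs.2 (Or.inl (by linarith [hτ.1])))).2 hc
    · exact (ext_lag hl leg_ax r fun τ hτ => e τ (le_abs.2 (Or.inl (by linarith [hτ.1])))).1 hc
  · rcases le_total t (-E) with r | r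
    · exact (ext_lag hl leg_ax r fun τ hτ => e τ (le_abs.2 (Or.inr (by linarith [hτ.2])))).2
        (lift_base E u)
    · exact (ext_lag hl leg_ax r fun τ hτ => e τ (le_abs.2 (Or.inr (by linarith [hτ.2])))).1
        (lift_base E u)

lemma Leg.isLong {γ : ℝ → ℝ × ℝ × ℝ} (h : Leg γ) (h0 : ∀ t, lag γ t ≠ 0) (hE : Emb (lag γ))
    {T : ℝ} (hT : ∀ t, T ≤ |t| → γ t = (t, 0, 0)) : IsLong γ := by
  have key : ∀ s t, s < t → γ s ≠ γ t := fun s t hst e =>
    hE s t hst (by rw [W_lag h.1, e]; simp) (by rw [A_lag h.1 h.2, e]; ring)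
  refine ⟨h.1, fun s t e => ?_, fun t e => h0 t (by simp [lag, e]), h.2, T, hT⟩
  rcases lt_trichotomy s t with q | q | q
  · exact absurd e (key s t q)
  · exact q
  · exact absurd e.symm (key t s q)

lemma InBox.mono {T T' : ℝ} {γ : ℝ → ℝ × ℝ × ℝ} (h : InBox T γ) (hT : T ≤ T') : InBox T' γ := by
  refine ⟨fun t ht => h.1 t (hT.trans ht), fun t ht => ?_⟩
  by_cases q : T ≤ |t|
  · rw [h.1 t q]; exact ht
  · exact (h.2 t (not_le.1 q)).trans_le hT

lemma glue_eq {R : ℝ} {γ₁ γ₂ : ℝ → ℝ × ℝ × ℝ} (h₁ : InBox R γ₁) (h₂ : InBox R γ₂) :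
    glue R γ₁ γ₂ = fun t => γ₁ (t + R) + γ₂ (t + -R) - ax t := by
  funext t
  unfold glue
  split_ifs with h
  · rw [h₂.1 (t + -R) (le_abs.2 (Or.inr (by linarith)))]
    ext <;> simp [ax]; ring
  · rw [h₁.1 (t + R) (le_abs.2 (Or.inl (by linarith))), sub_eq_add_neg t R]
    ext <;> simp [ax]; ring

lemma smf_glue {R : X → ℝ} (hR : Continuous R) {γ₁ γ₂ : X → ℝ → ℝ × ℝ × ℝ} (s₁ : SmF γ₁)
    (s₂ : SmF γ₂) (h₁ : ∀ a, InBox (R a) (γ₁ a)) (h₂ : ∀ a, InBox (R a) (γ₂ a)) :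
    SmF fun a => glue (R a) (γ₁ a) (γ₂ a) := by
  simp only [fun a => glue_eq (h₁ a) (h₂ a)]
  exact ((s₁.comp continuous_id hR).add (s₂.comp continuous_id hR.neg)).sub
    (SmF.of_contDiff leg_ax.1)

lemma deriv_std {γ : ℝ → ℝ × ℝ × ℝ} (hγ : ContDiff ℝ (⊤ : ℕ∞) γ) {R : ℝ}
    (h : ∀ t, R ≤ |t| → γ t = (t, 0, 0)) {t : ℝ} (ht : R ≤ |t|) : deriv γ t = (1, 0, 0) := by
  have hd := (hγ.differentiable (by simp) t).hasDerivAt
  rcases le_abs.1 ht with q | q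
  · refine (uniqueDiffOn_Ici t t (mem_Ici.2 le_rfl)).eq_deriv _ hd.hasDerivWithinAt ?_
    refine (hd_ax t).hasDerivWithinAt.congr (fun s hs => h s (le_abs.2 (Or.inl (q.trans hs))))
      (h t ht)
  · refine (uniqueDiffOn_Iic t t (mem_Iic.2 le_rfl)).eq_deriv _ hd.hasDerivWithinAt ?_
    refine (hd_ax t).hasDerivWithinAt.congr (fun s hs => h s (le_abs.2 (Or.inr ?_))) (h t ht)
    linarith [mem_Iic.1 hs]

lemma deriv_glue {R : ℝ} (hR : 0 < R) {γ₁ γ₂ : ℝ → ℝ × ℝ × ℝ} (l₁ : IsLong γ₁) (l₂ : IsLong γ₂)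
    (h₁ : InBox R γ₁) (h₂ : InBox R γ₂) (t : ℝ) :
    deriv (glue R γ₁ γ₂) t = if t ≤ 0 then deriv γ₁ (t + R) else deriv γ₂ (t - R) := by
  have d₁ := (l₁.smooth.differentiable (by simp) (t + R)).hasDerivAt.comp_add_const t R
  have d₂ := (l₂.smooth.differentiable (by simp) (t + -R)).hasDerivAt.comp_add_const t (-R)
  rw [glue_eq h₁ h₂]
  have := ((d₁.add d₂).sub (hd_ax t)).deriv
  refine this.trans ?_
  split_ifs with h
  · rw [deriv_std l₂.smooth h₂.1 (le_abs.2 (Or.inr (by linarith)))]; simp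
  · rw [deriv_std l₁.smooth h₁.1 (le_abs.2 (Or.inl (by linarith))), sub_eq_add_neg t R]; simp

lemma box_lt {R : ℝ} {γ : ℝ → ℝ × ℝ × ℝ} (h : InBox R γ) {t : ℝ} (ht : t < R) : (γ t).1 < R := by
  by_cases q : R ≤ |t|
  · rw [h.1 t q]; exact ht
  · exact (abs_lt.1 (h.2 t (not_le.1 q))).2
lemma box_gt {R : ℝ} {γ : ℝ → ℝ × ℝ × ℝ} (h : InBox R γ) {t : ℝ} (ht : -R < t) : -R < (γ t).1 := by
  by_cases q : R ≤ |t|
  · rw [h.1 t q]; exact ht
  · exact (abs_lt.1 (h.2 t (not_le.1 q))).1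

lemma glue_box {R : ℝ} (hR : 0 < R) {γ₁ γ₂ : ℝ → ℝ × ℝ × ℝ} (h₁ : InBox R γ₁) (h₂ : InBox R γ₂) :
    InBox (2 * R) (glue R γ₁ γ₂) := by
  constructor
  · intro t ht
    unfold glue
    split_ifs with h
    · rw [abs_of_nonpos h] at ht
      rw [h₁.1 _ (le_abs.2 (Or.inr (by linarith)))]; ext <;> simp
    · rw [abs_of_pos (not_le.1 h)] at ht
      rw [h₂.1 _ (le_abs.2 (Or.inl (by linarith)))]; simp
  · intro t ht
    rw [abs_lt] at ht ⊢
    unfold glue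
    split_ifs with h
    · have a := box_gt h₁ (t := t + R) (by linarith)
      have b := box_lt (h₁.mono (T' := 2 * R) (by linarith)) (t := t + R) (by linarith)
      simp only [Prod.fst_sub]; constructor <;> linarith
    · have a := box_lt h₂ (t := t - R) (by linarith)
      have b := box_gt h₂ (t := t - R) (by linarith)
      simp only [Prod.fst_add]; constructor <;> linarith

lemma glue_long {R : ℝ} (hR : 0 < R) {γ₁ γ₂ : ℝ → ℝ × ℝ × ℝ} (l₁ : IsLong γ₁) (l₂ : IsLong γ₂)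
    (h₁ : InBox R γ₁) (h₂ : InBox R γ₂) : IsLong (glue R γ₁ γ₂) := by
  have key : ∀ s t, s ≤ 0 → ¬ t ≤ 0 → glue R γ₁ γ₂ s ≠ glue R γ₁ γ₂ t := by
    intro s t hs ht e
    have e1 := congrArg Prod.fst e
    simp only [glue, if_pos hs, if_neg ht, Prod.fst_sub, Prod.fst_add] at e1
    have b := box_gt h₂ (t := t - R) (by linarith)
    rcases hs.eq_or_lt with q | q
    · rw [h₁.1 _ (by rw [q, zero_add, abs_of_pos hR]), q] at e1
      simp only at e1; linarith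
    · have a := box_lt h₁ (t := s + R) (by linarith)
      linarith
  refine ⟨(smf_glue (X := Unit) continuous_const (SmF.of_contDiff l₁.smooth)
    (SmF.of_contDiff l₂.smooth) (fun _ => h₁) (fun _ => h₂)).contDiff (), fun s t e => ?_,
    fun t => ?_, fun t => ?_, 2 * R, (glue_box hR h₁ h₂).1⟩
  · by_cases hs : s ≤ 0 <;> by_cases ht : t ≤ 0
    · simp only [glue, if_pos hs, if_pos ht, sub_left_inj] at e
      linarith [l₁.inj e]
    · exact absurd e (key s t hs ht)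
    · exact absurd e.symm (key t s ht hs)
    · simp only [glue, if_neg hs, if_neg ht, add_left_inj] at e
      linarith [l₂.inj e]
  · rw [deriv_glue hR l₁ l₂ h₁ h₂]
    split_ifs
    · exact l₁.imm _
    · exact l₂.imm _
  · rw [deriv_glue hR l₁ l₂ h₁ h₂]
    unfold glue
    split_ifs
    · simpa using l₁.leg _
    · simpa using l₂.leg _

lemma lag_glue {R : ℝ} (hR : 0 < R) {γ₁ γ₂ : ℝ → ℝ × ℝ × ℝ} (l₁ : IsLong γ₁) (l₂ : IsLong γ₂)
    (h₁ : InBox R γ₁) (h₂ : InBox R γ₂) (t : ℝ) :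
    lag (glue R γ₁ γ₂) t = lag γ₁ (t + R) * lag γ₂ (t - R) := by
  unfold lag
  rw [deriv_glue hR l₁ l₂ h₁ h₂]
  split_ifs with h
  · rw [deriv_std l₂.smooth h₂.1 (le_abs.2 (Or.inr (by linarith)))]; simp
  · rw [deriv_std l₁.smooth h₁.1 (le_abs.2 (Or.inl (by linarith)))]; simp

end Pool.Agent.MP_b8ade4_gt
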