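import Pool.Agent.MP_b8ade4_gt.CTop
import Pool.Agent.MP_b8ade4_gt.Nontriv
import Pool.Agent.MP_b8ade4_gt.Topo

/-! Transfer of the obstruction to the space of long Legendrian embeddings. -/

namespace Pool.Agent.MP_b8ade4_gt

open Set unitInterval

lemma Dev.mono {u : ℝ → ℂ} {B C : ℝ} (h : Dev u B) (hBC : B ≤ C) : Dev u C :=
  fun s t hst => by linarith [h s t hst]

/-- a jointly continuous family as a continuous map to `XX` -/
noncomputable def toXX {X : Type*} [TopologicalSpace X] (x : X → ℝ → ℂ)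
    (hx : Continuous fun q : X × ℝ => x q.1 q.2) {T M : ℝ}
    (h : ∀ a, (∀ t, x a t ≠ 0) ∧ Emb (x a) ∧ (∀ t, T ≤ |t| → 0 < (x a t).re) ∧ Dev (x a) M) :
    C(X, XX T M) :=
  ⟨fun a => ⟨ContinuousMap.curry ⟨_, hx⟩ a, h a⟩,
    (ContinuousMap.curry ⟨_, hx⟩).continuous.subtype_mk _⟩

theorem long_nontriv {l : ℝ} (hl : 0 < l) (hl' : l ≤ 1 / 2) (hW : Win l) {γ : Long}
    (α : Path γ γ) (F : I × I → ℝ → ℂ) (hF : Continuous fun q : (I × I) × ℝ => F q.1 q.2)
    {T B : ℝ} (hN : ∀ q, Nice (F q) T B) (h0 : ∀ θ, F (θ, 0) = al l θ)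
    (h1 : ∀ θ, F (θ, 1) = lag (α θ).1) (hs : ∀ τ, F (0, τ) = F (1, τ)) :
    ¬ α.Homotopic (Path.refl γ) := by
  rintro ⟨H⟩
  obtain ⟨T₀, M₀, hc⟩ := long_control H.continuous
  let F' : C(I × I, XX (max T T₀) (max B M₀)) := toXX F hF fun q =>
    ⟨(hN q).2.1, (hN q).2.2.1, fun t ht => by
      rw [(hN q).2.2.2.1 t ((le_max_left _ _).trans ht)]; exact one_pos,
      (hN q).dev.mono (le_max_left _ _)⟩
  let H' : C(I × I, XX (max T T₀) (max B M₀)) := toXX (fun q => lag (H q).1)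
    (smf_lag (smf_of_long H.continuous)).cont fun q =>
    ⟨(H q).2.lag_ne, (H q).2.emb, fun t ht => (hc q).1 t ((le_max_right _ _).trans ht),
      (hc q).2.mono (le_max_right _ _)⟩
  have ex : ∀ {a b : XX (max T T₀) (max B M₀)}, (∀ t, a.1 t = b.1 t) → a = b :=
    fun h => Subtype.ext (ContinuousMap.ext h)
  have eH : ∀ p q, H p = H q → H' p = H' q := fun p q h => ex fun t => by
    show lag (H p).1 t = lag (H q).1 t
    rw [h]
  let a : Path (F' (0, 0)) (F' (0, 0)) :=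
    ⟨⟨fun θ => F' (θ, 0), by fun_prop⟩, rfl, ex fun t => (congrFun (hs 0) t).symm⟩
  let b : Path (H' (0, 0)) (H' (0, 0)) :=
    ⟨⟨fun θ => H' (0, θ), by fun_prop⟩, rfl, eH _ _ (by rw [H.source, H.target])⟩
  have hb : b.Homotopic (Path.refl _) := by
    refine ⟨⟨⟨H', fun θ => rfl, fun θ => eH _ _ ?_⟩, fun τ θ hθ => ?_⟩⟩
    · rw [H.source]; exact H.toHomotopy.apply_one θ
    · rcases hθ with rfl | rfl
      · exact eH _ _ (by rw [H.source, H.source])
      · exact eH _ _ (by rw [H.target, H.target])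
  refine raw_nontriv hl hl' hW a (fun θ t => congrFun (h0 θ) t)
    (null_of_free F' a b (fun _ => rfl) (fun θ => ex fun t => ?_)
      (fun τ => ex fun t => congrFun (hs τ) t) hb)
  show F (θ, 1) t = lag (H (0, θ)).1 t
  have e : H (0, θ) = α θ := H.toHomotopy.apply_zero θ
  rw [h1, e]

end Pool.Agent.MP_b8ade4_gt
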